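import Pool.Agent.W401.FL.Defs

/-!
# FL-LAT: the Faltings-Serre argument with a lattice of matrices
-/

set_option autoImplicit false

namespace Pool.Agent.W148.FLLat

open Module Pool.Agent.W401.Gal Pool.Agent.W401.FL Filter Topology

/-- a `ℤ_p`-span which embeds into `ℚ_p^ι` with bounded image has a basis of at most `ι` elements -/
theorem exists_basis {p : ℕ} [Fact p.Prime] {A : Type} [AddCommGroup A] [Module ℤ_[p] A]
    (S : Set A) {ι : Type} [Fintype ι] (Φ : A →ₗ[ℤ_[p]] (ι → ℚ_[p])) (k : ℕ)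
    (hb : ∀ x ∈ S, ∀ i, ‖Φ x i‖ ≤ (p : ℝ) ^ k)
    (hinj : ∀ x ∈ Submodule.span ℤ_[p] S, Φ x = 0 → x = 0) :
    ∃ r : ℕ, r ≤ Fintype.card ι ∧ Nonempty (Basis (Fin r) ℤ_[p] (Submodule.span ℤ_[p] S)) := by
  have hp0 : (0 : ℝ) < p := by exact_mod_cast (Fact.out : p.Prime).pos
  have hball : ∀ x ∈ Submodule.span ℤ_[p] S, ∀ i, ‖Φ x i‖ ≤ (p : ℝ) ^ k := by
    intro x hx
    induction hx using Submodule.span_induction with
    | mem x hx => exact hb x hx
    | zero => intro i; rw [map_zero, Pi.zero_apply, norm_zero]; positivity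
    | add x y _ _ hx hy =>
      intro i
      rw [map_add, Pi.add_apply]
      exact (Padic.nonarchimedean _ _).trans (max_le (hx i) (hy i))
    | smul c x _ hx =>
      intro i
      rw [map_smul, Pi.smul_apply]
      have h1 : c • (Φ x i) = (c : ℚ_[p]) * Φ x i := Algebra.smul_def c _
      rw [h1, norm_mul]
      calc ‖(c : ℚ_[p])‖ * ‖Φ x i‖ ≤ 1 * (p : ℝ) ^ k :=
            mul_le_mul (PadicInt.norm_le_one c) (hx i) (norm_nonneg _) zero_le_one
        _ = _ := one_mul _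
  have hint : ∀ x : Submodule.span ℤ_[p] S, ∀ i, ‖(p : ℚ_[p]) ^ k * Φ x i‖ ≤ 1 := by
    intro x i
    rw [norm_mul, norm_pow, Padic.norm_p]
    calc (p : ℝ)⁻¹ ^ k * ‖Φ x i‖ ≤ (p : ℝ)⁻¹ ^ k * (p : ℝ) ^ k :=
          mul_le_mul_of_nonneg_left (hball x x.2 i) (by positivity)
      _ = 1 := by rw [← mul_pow, inv_mul_cancel₀ hp0.ne', one_pow]
  let Ψ : Submodule.span ℤ_[p] S →ₗ[ℤ_[p]] (ι → ℤ_[p]) :=
    { toFun := fun x i => ⟨(p : ℚ_[p]) ^ k * Φ x i, hint x i⟩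
      map_add' := by
        intro x y
        funext i
        apply Subtype.ext
        change (p : ℚ_[p]) ^ k * Φ ((x + y : Submodule.span ℤ_[p] S) : A) i =
          (p : ℚ_[p]) ^ k * Φ x i + (p : ℚ_[p]) ^ k * Φ y i
        rw [Submodule.coe_add, map_add, Pi.add_apply, mul_add]
      map_smul' := by
        intro c x
        funext i
        apply Subtype.ext
        have h1 : Φ ((c • x : Submodule.span ℤ_[p] S) : A) i = (c : ℚ_[p]) * Φ x i := by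
          rw [Submodule.coe_smul, map_smul, Pi.smul_apply]
          exact Algebra.smul_def c _
        change (p : ℚ_[p]) ^ k * Φ ((c • x : Submodule.span ℤ_[p] S) : A) i =
          (c : ℚ_[p]) * ((p : ℚ_[p]) ^ k * Φ x i)
        rw [h1]
        ring }
  have hΨ : Function.Injective Ψ := by
    rw [injective_iff_map_eq_zero]
    intro x hx
    apply Subtype.ext
    apply hinj x x.2
    funext i
    have h1 := congrArg Subtype.val (congrFun hx i)
    have h2 : (p : ℚ_[p]) ^ k * Φ x i = 0 := h1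
    have h3 : (p : ℚ_[p]) ^ k ≠ 0 := pow_ne_zero _ (by
      exact_mod_cast (Fact.out : p.Prime).ne_zero)
    exact (mul_eq_zero.1 h2).resolve_left h3
  obtain ⟨r, ⟨e⟩⟩ := Submodule.nonempty_basis_of_pid (Pi.basisFun ℤ_[p] ι) (LinearMap.range Ψ)
  refine ⟨r, ?_, ⟨e.map (LinearEquiv.ofInjective Ψ hΨ).symm⟩⟩
  have h1 : finrank ℤ_[p] (LinearMap.range Ψ) = r := by
    rw [finrank_eq_card_basis e, Fintype.card_fin]
  rw [← h1, ← Module.finrank_fintype_fun_eq_card (R := ℤ_[p]) (η := ι)]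
  exact Submodule.finrank_le _

section
variable {p : ℕ} [Fact p.Prime] {n : ℕ} {G : Type} [Group G]

/-- finitely many test elements -/
theorem exists_test {C : Type} [Field C] [CharZero C] (ρ : G →* GL (Fin n) C) (hρ : Semis ρ) :
    ∃ (a : ℕ) (s : Fin a → G), a ≤ n * n ∧ ∀ x ∈ Sp ρ,
      (∀ i, (x * (ρ (s i) : Matrix (Fin n) (Fin n) C)).trace = 0) → x = 0 := by
  obtain ⟨f, hf, hspan, -⟩ := Submodule.exists_fun_fin_finrank_span_eq C
    (Set.range fun g => (ρ g : Matrix (Fin n) (Fin n) C))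
  choose s hs using hf
  refine ⟨_, s, ?_, ?_⟩
  · refine (Submodule.finrank_le _).trans ?_
    rw [Module.finrank_matrix]
    simp
  · intro x hx h
    refine nondeg hρ (fun m hm _ => by exact_mod_cast hm.ne') hx fun g => ?_
    have hg : (ρ g : Matrix (Fin n) (Fin n) C) ∈ Submodule.span C (Set.range f) := by
      rw [hspan]
      exact Submodule.subset_span ⟨g, rfl⟩
    generalize (ρ g : Matrix (Fin n) (Fin n) C) = y at hg
    induction hg using Submodule.span_induction with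
    | mem y hy =>
      obtain ⟨i, rfl⟩ := hy
      rw [← hs i]
      exact h i
    | zero => rw [mul_zero, Matrix.trace_zero]
    | add y z _ _ hy hz => rw [mul_add, Matrix.trace_add, hy, hz, add_zero]
    | smul c y _ hy => rw [mul_smul_comm, Matrix.trace_smul, hy, smul_zero]

end

section core
variable {p : ℕ} [Fact p.Prime] {C : Type} [NormedField C] [NormedAlgebra ℚ_[p] C] [CharZero C]
  [Algebra ℤ_[p] C] [IsScalarTower ℤ_[p] ℚ_[p] C]

/-- matrices -/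
abbrev Mat (n : ℕ) (C : Type) := Matrix (Fin n) (Fin n) C

/-- the pair of representations -/
def rr {n : ℕ} {G : Type} [Group G] (ρ₁ ρ₂ : G →* GL (Fin n) C) : G →* Mat n C × Mat n C :=
  ((Units.coeHom _).comp ρ₁).prod ((Units.coeHom _).comp ρ₂)

omit [Algebra ℤ_[p] C] [IsScalarTower ℤ_[p] ℚ_[p] C] [CharZero C] in
theorem bounded_trace (E : IntermediateField ℚ_[p] C) [FiniteDimensional ℚ_[p] E]
    {n : ℕ} {G : Type} [Group G] [TopologicalSpace G] [CompactSpace G]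
    [ContinuousMul G]
    (ρ : G →* GL (Fin n) C) (hc : Continuous ρ)
    (ht : ∀ g, (ρ g : Mat n C).trace ∈ E) (l : C →ₗ[ℚ_[p]] ℚ_[p]) (s : G) :
    ∃ k : ℕ, ∀ g : G, ‖l ((ρ g : Mat n C) * (ρ s : Mat n C)).trace‖ ≤ (p : ℝ) ^ k := by
  have hp1 : (1 : ℝ) < p := by exact_mod_cast (Fact.out : p.Prime).one_lt
  have h0 : ∀ g : G, ((ρ g : Mat n C) * (ρ s : Mat n C)).trace ∈ E := by
    intro g
    have := ht (g * s)
    rwa [map_mul, Units.val_mul] at this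
  let l' : E →ₗ[ℚ_[p]] ℚ_[p] := l.comp E.val.toLinearMap
  have hl' : Continuous l' := l'.continuous_of_finiteDimensional
  have h1 : Continuous fun g : G => l' ⟨((ρ g : Mat n C) * (ρ s : Mat n C)).trace, h0 g⟩ := by
    refine hl'.comp (Continuous.subtype_mk ?_ _)
    have : Continuous fun g : G => (ρ g : Mat n C) := Units.continuous_val.comp hc
    fun_prop
  obtain ⟨K, hK⟩ := (isCompact_range h1).isBounded.exists_norm_le
  obtain ⟨k, hk⟩ := pow_unbounded_of_one_lt K hp1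
  refine ⟨k, fun g => ?_⟩
  have h2 := hK _ ⟨g, rfl⟩
  exact h2.trans hk.le

theorem lat_core (E : IntermediateField ℚ_[p] C) [FiniteDimensional ℚ_[p] E]
    (n : ℕ) (G : Type) [Group G] [TopologicalSpace G] [IsTopologicalGroup G] [CompactSpace G]
    (ρ₁ ρ₂ : G →* GL (Fin n) C) (c1 : Continuous ρ₁) (c2 : Continuous ρ₂)
    (s1 : Semis ρ₁) (s2 : Semis ρ₂)
    (t1 : ∀ g, (ρ₁ g : Mat n C).trace ∈ E) (t2 : ∀ g, (ρ₂ g : Mat n C).trace ∈ E) :
    ∃ r : ℕ, r ≤ (n * n + n * n) * finrank ℚ_[p] E ∧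
      Nonempty (Basis (Fin r) ℤ_[p] (Submodule.span ℤ_[p] (Set.range (rr ρ₁ ρ₂)))) := by
  classical
  obtain ⟨a, s, ha, hs⟩ := exists_test ρ₁ s1
  obtain ⟨b, t, hb, ht⟩ := exists_test ρ₂ s2
  let m := finrank ℚ_[p] E
  let e : Basis (Fin m) ℚ_[p] E := Module.finBasis ℚ_[p] E
  have hl : ∀ j : Fin m, ∃ l : C →ₗ[ℚ_[p]] ℚ_[p], ∀ x : E, l x = e.coord j x := by
    intro j
    obtain ⟨l, hl⟩ := LinearMap.exists_extend (p := Subalgebra.toSubmodule E.toSubalgebra) (e.coord j)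
    exact ⟨l, fun x => LinearMap.congr_fun hl x⟩
  choose l hl using hl
  have hl0 : ∀ x ∈ E, (∀ j, l j x = 0) → x = 0 := by
    intro x hx h
    have h1 : (⟨x, hx⟩ : E) = 0 := by
      apply e.ext_elem
      intro j
      have := hl j ⟨x, hx⟩
      rw [map_zero, Finsupp.zero_apply, ← Basis.coord_apply, ← this]
      exact h j
    exact congrArg Subtype.val h1
  -- the trace functionals
  let T1 : Fin a → (Mat n C × Mat n C) →ₗ[ℤ_[p]] C := fun i =>
    { toFun := fun x => (x.1 * (ρ₁ (s i) : Mat n C)).trace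
      map_add' := fun x y => by simp [add_mul]
      map_smul' := fun c x => by simp }
  let T2 : Fin b → (Mat n C × Mat n C) →ₗ[ℤ_[p]] C := fun i =>
    { toFun := fun x => (x.2 * (ρ₂ (t i) : Mat n C)).trace
      map_add' := fun x y => by simp [add_mul]
      map_smul' := fun c x => by simp }
  let Φ : (Mat n C × Mat n C) →ₗ[ℤ_[p]] ((Fin a ⊕ Fin b) × Fin m → ℚ_[p]) :=
    LinearMap.pi fun ij => ((l ij.2).restrictScalars ℤ_[p]).comp (Sum.elim T1 T2 ij.1)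
  have hT1 : ∀ x ∈ Submodule.span ℤ_[p] (Set.range (rr ρ₁ ρ₂)), x.1 ∈ Sp ρ₁ ∧ x.2 ∈ Sp ρ₂ ∧
      (∀ i, T1 i x ∈ E) ∧ (∀ i, T2 i x ∈ E) := by
    intro x hx
    induction hx using Submodule.span_induction with
    | mem x hx =>
      obtain ⟨g, rfl⟩ := hx
      refine ⟨Submodule.subset_span ⟨g, rfl⟩, Submodule.subset_span ⟨g, rfl⟩, fun i => ?_,
        fun i => ?_⟩
      · have := t1 (g * s i)
        rwa [map_mul, Units.val_mul] at this
      · have := t2 (g * t i)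
        rwa [map_mul, Units.val_mul] at this
    | zero => exact ⟨Submodule.zero_mem _, Submodule.zero_mem _, fun i => by
        rw [map_zero]; exact E.zero_mem, fun i => by rw [map_zero]; exact E.zero_mem⟩
    | add x y _ _ hx hy =>
      exact ⟨Submodule.add_mem _ hx.1 hy.1, Submodule.add_mem _ hx.2.1 hy.2.1,
        fun i => by rw [map_add]; exact E.add_mem (hx.2.2.1 i) (hy.2.2.1 i),
        fun i => by rw [map_add]; exact E.add_mem (hx.2.2.2 i) (hy.2.2.2 i)⟩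
    | smul c x _ hx =>
      have hcC : ∀ z : C, c • z = (c : ℚ_[p]) • z := fun z => by
        rw [← IsScalarTower.algebraMap_smul ℚ_[p] c z]; rfl
      have hcM : ∀ z : Mat n C, c • z = algebraMap ℚ_[p] C (c : ℚ_[p]) • z := fun z => by
        ext i j
        simp only [Matrix.smul_apply]
        rw [hcC, Algebra.smul_def, smul_eq_mul]
      refine ⟨?_, ?_, fun i => ?_, fun i => ?_⟩
      · change c • x.1 ∈ _
        rw [hcM]
        exact Submodule.smul_mem _ _ hx.1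
      · change c • x.2 ∈ _
        rw [hcM]
        exact Submodule.smul_mem _ _ hx.2.1
      · rw [map_smul, hcC]; exact E.smul_mem (hx.2.2.1 i)
      · rw [map_smul, hcC]; exact E.smul_mem (hx.2.2.2 i)
  have hbd1 : ∀ (i : Fin a) (j : Fin m), ∃ k : ℕ, ∀ g : G,
      ‖l j (T1 i (rr ρ₁ ρ₂ g))‖ ≤ (p : ℝ) ^ k := fun i j => bounded_trace E ρ₁ c1 t1 (l j) (s i)
  have hbd2 : ∀ (i : Fin b) (j : Fin m), ∃ k : ℕ, ∀ g : G,
      ‖l j (T2 i (rr ρ₁ ρ₂ g))‖ ≤ (p : ℝ) ^ k := fun i j => bounded_trace E ρ₂ c2 t2 (l j) (t i)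
  choose k1 hk1 using hbd1
  choose k2 hk2 using hbd2
  have hp1 : (1 : ℝ) ≤ p := by exact_mod_cast (Fact.out : p.Prime).one_lt.le
  obtain ⟨r, hr, hbasis⟩ := exists_basis (p := p) (Set.range (rr ρ₁ ρ₂)) Φ
    ((∑ i, ∑ j, k1 i j) + ∑ i, ∑ j, k2 i j) (by
      rintro _ ⟨g, rfl⟩ ⟨i | i, j⟩
      · refine (hk1 i j g).trans (pow_le_pow_right₀ hp1 ?_)
        refine le_trans ?_ (Nat.le_add_right _ _)
        refine le_trans (Finset.single_le_sum (f := fun j => k1 i j) (fun _ _ => Nat.zero_le _)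
          (Finset.mem_univ j)) ?_
        exact Finset.single_le_sum (f := fun i => ∑ j, k1 i j) (fun _ _ => Nat.zero_le _)
          (Finset.mem_univ i)
      · refine (hk2 i j g).trans (pow_le_pow_right₀ hp1 ?_)
        refine le_trans ?_ (Nat.le_add_left _ _)
        refine le_trans (Finset.single_le_sum (f := fun j => k2 i j) (fun _ _ => Nat.zero_le _)
          (Finset.mem_univ j)) ?_
        exact Finset.single_le_sum (f := fun i => ∑ j, k2 i j) (fun _ _ => Nat.zero_le _)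
          (Finset.mem_univ i)) (by
      intro x hx h0
      obtain ⟨a1, a2, a3, a4⟩ := hT1 x hx
      refine Prod.ext (hs _ a1 fun i => ?_) (ht _ a2 fun i => ?_)
      · exact hl0 _ (a3 i) fun j => congrFun h0 (Sum.inl i, j)
      · exact hl0 _ (a4 i) fun j => congrFun h0 (Sum.inr i, j))
  refine ⟨r, hr.trans ?_, hbasis⟩
  rw [Fintype.card_prod, Fintype.card_sum, Fintype.card_fin, Fintype.card_fin, Fintype.card_fin]
  exact Nat.mul_le_mul (add_le_add ha hb) le_rfl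

omit [NormedAlgebra ℚ_[p] C] [CharZero C] [IsScalarTower ℤ_[p] ℚ_[p] C] in
theorem mul_mem_left {n : ℕ} {G : Type} [Group G] (ρ₁ ρ₂ : G →* GL (Fin n) C) (h : G)
    {x : Mat n C × Mat n C} (hx : x ∈ Submodule.span ℤ_[p] (Set.range (rr ρ₁ ρ₂))) :
    rr ρ₁ ρ₂ h * x ∈ Submodule.span ℤ_[p] (Set.range (rr ρ₁ ρ₂)) := by
  induction hx using Submodule.span_induction with
  | mem x hx =>
    obtain ⟨g, rfl⟩ := hx
    rw [← map_mul]
    exact Submodule.subset_span ⟨_, rfl⟩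
  | zero => rw [mul_zero]; exact Submodule.zero_mem _
  | add x y _ _ hx hy => rw [mul_add]; exact Submodule.add_mem _ hx hy
  | smul c x _ hx => rw [mul_smul_comm]; exact Submodule.smul_mem _ _ hx

omit [NormedAlgebra ℚ_[p] C] [CharZero C] [IsScalarTower ℤ_[p] ℚ_[p] C] in
theorem mul_mem_right {n : ℕ} {G : Type} [Group G] (ρ₁ ρ₂ : G →* GL (Fin n) C) (h : G)
    {x : Mat n C × Mat n C} (hx : x ∈ Submodule.span ℤ_[p] (Set.range (rr ρ₁ ρ₂))) :
    x * rr ρ₁ ρ₂ h ∈ Submodule.span ℤ_[p] (Set.range (rr ρ₁ ρ₂)) := by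
  induction hx using Submodule.span_induction with
  | mem x hx =>
    obtain ⟨g, rfl⟩ := hx
    rw [← map_mul]
    exact Submodule.subset_span ⟨_, rfl⟩
  | zero => rw [zero_mul]; exact Submodule.zero_mem _
  | add x y _ _ hx hy => rw [add_mul]; exact Submodule.add_mem _ hx hy
  | smul c x _ hx => rw [smul_mul_assoc]; exact Submodule.smul_mem _ _ hx

/-- `p M` -/
noncomputable def PM {n : ℕ} {G : Type} [Group G] (p : ℕ) [Fact p.Prime] [Algebra ℤ_[p] C]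
    (ρ₁ ρ₂ : G →* GL (Fin n) C) :
    Submodule ℤ_[p] (Mat n C × Mat n C) :=
  (Submodule.span ℤ_[p] (Set.range (rr ρ₁ ρ₂))).map
    (LinearMap.lsmul ℤ_[p] (Mat n C × Mat n C) (p : ℤ_[p]))

omit [NormedAlgebra ℚ_[p] C] [CharZero C] [IsScalarTower ℤ_[p] ℚ_[p] C] in
theorem mem_PM {n : ℕ} {G : Type} [Group G] (ρ₁ ρ₂ : G →* GL (Fin n) C)
    {x : Mat n C × Mat n C} : x ∈ PM p ρ₁ ρ₂ ↔
      ∃ y ∈ Submodule.span ℤ_[p] (Set.range (rr ρ₁ ρ₂)), (p : ℤ_[p]) • y = x := Iff.rfl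

omit [NormedAlgebra ℚ_[p] C] [CharZero C] [IsScalarTower ℤ_[p] ℚ_[p] C] in
theorem PM_left {n : ℕ} {G : Type} [Group G] (ρ₁ ρ₂ : G →* GL (Fin n) C) (h : G)
    {x : Mat n C × Mat n C} (hx : x ∈ PM p ρ₁ ρ₂) : rr ρ₁ ρ₂ h * x ∈ PM p ρ₁ ρ₂ := by
  obtain ⟨y, hy, rfl⟩ := hx
  exact ⟨_, mul_mem_left ρ₁ ρ₂ h hy, by
    simp only [LinearMap.lsmul_apply, mul_smul_comm]⟩

omit [NormedAlgebra ℚ_[p] C] [CharZero C] [IsScalarTower ℤ_[p] ℚ_[p] C] in
theorem PM_right {n : ℕ} {G : Type} [Group G] (ρ₁ ρ₂ : G →* GL (Fin n) C) (h : G)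
    {x : Mat n C × Mat n C} (hx : x ∈ PM p ρ₁ ρ₂) : x * rr ρ₁ ρ₂ h ∈ PM p ρ₁ ρ₂ := by
  obtain ⟨y, hy, rfl⟩ := hx
  exact ⟨_, mul_mem_right ρ₁ ρ₂ h hy, by
    simp only [LinearMap.lsmul_apply, smul_mul_assoc]⟩

/-- the congruence subgroup -/
noncomputable def UU {n : ℕ} {G : Type} [Group G] (p : ℕ) [Fact p.Prime] [Algebra ℤ_[p] C]
    (ρ₁ ρ₂ : G →* GL (Fin n) C) : Subgroup G where
  carrier := {g | rr ρ₁ ρ₂ g - 1 ∈ PM p ρ₁ ρ₂}
  one_mem' := by
    change rr ρ₁ ρ₂ 1 - 1 ∈ PM p ρ₁ ρ₂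
    rw [map_one, sub_self]
    exact Submodule.zero_mem _
  mul_mem' := by
    intro g h hg hh
    have e : rr ρ₁ ρ₂ (g * h) - 1
        = (rr ρ₁ ρ₂ g - 1) * rr ρ₁ ρ₂ h + (rr ρ₁ ρ₂ h - 1) := by
      rw [map_mul, sub_mul, one_mul]; abel
    change rr ρ₁ ρ₂ (g * h) - 1 ∈ PM p ρ₁ ρ₂
    rw [e]
    exact Submodule.add_mem _ (PM_right ρ₁ ρ₂ h hg) hh
  inv_mem' := by
    intro g hg
    have e : rr ρ₁ ρ₂ g⁻¹ - 1 = -(rr ρ₁ ρ₂ g⁻¹ * (rr ρ₁ ρ₂ g - 1)) := by
      rw [mul_sub, mul_one, ← map_mul, inv_mul_cancel, map_one]; abel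
    change rr ρ₁ ρ₂ g⁻¹ - 1 ∈ PM p ρ₁ ρ₂
    rw [e]
    exact Submodule.neg_mem _ (PM_left ρ₁ ρ₂ _ hg)

omit [NormedAlgebra ℚ_[p] C] [CharZero C] [IsScalarTower ℤ_[p] ℚ_[p] C] in
theorem mem_UU {n : ℕ} {G : Type} [Group G] (ρ₁ ρ₂ : G →* GL (Fin n) C) {g : G} :
    g ∈ UU p ρ₁ ρ₂ ↔ rr ρ₁ ρ₂ g - 1 ∈ PM p ρ₁ ρ₂ := Iff.rfl

omit [CharZero C] in
theorem continuous_rr {n : ℕ} {G : Type} [Group G] [TopologicalSpace G]
    (ρ₁ ρ₂ : G →* GL (Fin n) C) (c1 : Continuous ρ₁) (c2 : Continuous ρ₂) :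
    Continuous (rr ρ₁ ρ₂) :=
  (Units.continuous_val.comp c1).prodMk (Units.continuous_val.comp c2)

theorem lat_main (E : IntermediateField ℚ_[p] C) [FiniteDimensional ℚ_[p] E]
    (n : ℕ) (G : Type) [Group G] [TopologicalSpace G] [IsTopologicalGroup G] [CompactSpace G]
    (ρ₁ ρ₂ : G →* GL (Fin n) C) (c1 : Continuous ρ₁) (c2 : Continuous ρ₂)
    (s1 : Semis ρ₁) (s2 : Semis ρ₂)
    (t1 : ∀ g, (ρ₁ g : Mat n C).trace ∈ E) (t2 : ∀ g, (ρ₂ g : Mat n C).trace ∈ E) :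
    ∃ U : Subgroup G, U.Normal ∧ IsOpen (U : Set G) ∧
      Nat.card (G ⧸ U) ≤ p ^ ((n * n + n * n) * finrank ℚ_[p] E) ∧
      ρ₁.ker ⊓ ρ₂.ker ≤ U ∧
      ∀ X : Set G, (∀ g : G, ∃ x ∈ X, x⁻¹ * g ∈ U) →
        (∀ x ∈ X, (ρ₁ x : Mat n C).trace = (ρ₂ x : Mat n C).trace) →
        ∀ g : G, (ρ₁ g : Mat n C).trace = (ρ₂ g : Mat n C).trace := by
  obtain ⟨r, hr, ⟨e⟩⟩ := lat_core (p := p) E n G ρ₁ ρ₂ c1 c2 s1 s2 t1 t2
  have hmemM : ∀ g, rr ρ₁ ρ₂ g ∈ Submodule.span ℤ_[p] (Set.range (rr ρ₁ ρ₂)) :=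
    fun g => Submodule.subset_span ⟨g, rfl⟩
  -- the injection into a finite set
  let f : G ⧸ UU p ρ₁ ρ₂ → (Fin r → ZMod p) := fun q i =>
    PadicInt.toZMod (e.repr ⟨rr ρ₁ ρ₂ q.out, hmemM _⟩ i)
  have hf : Function.Injective f := by
    intro q q' h
    have h1 : ∀ i, ∃ c : ℤ_[p], e.repr ⟨rr ρ₁ ρ₂ q.out, hmemM _⟩ i
        - e.repr ⟨rr ρ₁ ρ₂ q'.out, hmemM _⟩ i = (p : ℤ_[p]) * c := by
      intro i
      have h2 : e.repr ⟨rr ρ₁ ρ₂ q.out, hmemM _⟩ i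
        - e.repr ⟨rr ρ₁ ρ₂ q'.out, hmemM _⟩ i ∈ RingHom.ker (PadicInt.toZMod (p := p)) := by
        rw [RingHom.mem_ker, map_sub, sub_eq_zero]
        exact congrFun h i
      rw [PadicInt.ker_toZMod, PadicInt.maximalIdeal_eq_span_p, Ideal.mem_span_singleton] at h2
      exact h2
    choose c hc using h1
    have h3 : (⟨rr ρ₁ ρ₂ q.out, hmemM _⟩ - ⟨rr ρ₁ ρ₂ q'.out, hmemM _⟩ :
        Submodule.span ℤ_[p] (Set.range (rr ρ₁ ρ₂))) = (p : ℤ_[p]) • ∑ i, c i • e i := by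
      apply e.ext_elem
      intro i
      rw [map_sub, Finsupp.sub_apply, hc, map_smul, Finsupp.smul_apply, smul_eq_mul,
        e.repr_sum_self]
    have h4 : rr ρ₁ ρ₂ q.out - rr ρ₁ ρ₂ q'.out ∈ PM p ρ₁ ρ₂ := by
      refine ⟨_, (∑ i, c i • e i : Submodule.span ℤ_[p] (Set.range (rr ρ₁ ρ₂))).2, ?_⟩
      have := congrArg Subtype.val h3
      exact this.symm
    have h5 : q'.out⁻¹ * q.out ∈ UU p ρ₁ ρ₂ := by
      rw [mem_UU]
      have e1 : rr ρ₁ ρ₂ (q'.out⁻¹ * q.out) - 1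
          = rr ρ₁ ρ₂ q'.out⁻¹ * (rr ρ₁ ρ₂ q.out - rr ρ₁ ρ₂ q'.out) := by
        rw [mul_sub, ← map_mul, ← map_mul, inv_mul_cancel, map_one]
      rw [e1]
      exact PM_left ρ₁ ρ₂ _ h4
    have h6 := QuotientGroup.eq.2 h5
    rw [QuotientGroup.out_eq', QuotientGroup.out_eq'] at h6
    exact h6.symm
  have hfin : Finite (G ⧸ UU p ρ₁ ρ₂) := Finite.of_injective f hf
  have hfi : (UU p ρ₁ ρ₂).FiniteIndex := Subgroup.finiteIndex_of_finite_quotient
  -- closedness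
  have hclosedPM : IsClosed (PM p ρ₁ ρ₂ : Set (Mat n C × Mat n C)) := by
    have hcont : Continuous fun c : Fin r → ℤ_[p] =>
        ∑ i, ((c i : ℚ_[p]) • ((p : ℤ_[p]) • (e i : Mat n C × Mat n C))) := by
      refine continuous_finsetSum _ fun i _ => ?_
      have : Continuous fun c : Fin r → ℤ_[p] => ((c i : ℤ_[p]) : ℚ_[p]) :=
        continuous_subtype_val.comp (continuous_apply i)
      exact this.smul continuous_const
    have hcomp := (isCompact_range hcont).isClosed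
    convert hcomp using 1
    ext x
    constructor
    · rintro ⟨y, hy, rfl⟩
      refine ⟨e.repr ⟨y, hy⟩, ?_⟩
      have h1 := congrArg Subtype.val (e.sum_repr ⟨y, hy⟩)
      rw [Submodule.coe_sum] at h1
      simp only [Submodule.coe_smul] at h1
      change _ = (p : ℤ_[p]) • y
      conv_rhs => rw [← h1]
      rw [Finset.smul_sum]
      refine Finset.sum_congr rfl fun i _ => ?_
      rw [smul_comm (p : ℤ_[p])]
      exact IsScalarTower.algebraMap_smul ℚ_[p] (e.repr ⟨y, hy⟩ i)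
        ((p : ℤ_[p]) • (e i : Mat n C × Mat n C))
    · rintro ⟨c, rfl⟩
      refine ⟨_, (∑ i, c i • e i : Submodule.span ℤ_[p] (Set.range (rr ρ₁ ρ₂))).2, ?_⟩
      rw [LinearMap.lsmul_apply, Submodule.coe_sum, Finset.smul_sum]
      refine Finset.sum_congr rfl fun i _ => ?_
      rw [Submodule.coe_smul, smul_comm (p : ℤ_[p])]
      exact (IsScalarTower.algebraMap_smul ℚ_[p] (c i) _).symm
  have hUclosed : IsClosed (UU p ρ₁ ρ₂ : Set G) :=
    hclosedPM.preimage ((continuous_rr ρ₁ ρ₂ c1 c2).sub continuous_const)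
  refine ⟨UU p ρ₁ ρ₂, ⟨fun g hg h => ?_⟩, Subgroup.isOpen_of_isClosed_of_finiteIndex _ hUclosed,
    ?_, ?_, ?_⟩
  · rw [mem_UU] at hg ⊢
    have e1 : rr ρ₁ ρ₂ (h * g * h⁻¹) - 1
        = rr ρ₁ ρ₂ h * (rr ρ₁ ρ₂ g - 1) * rr ρ₁ ρ₂ h⁻¹ := by
      rw [mul_sub, sub_mul, mul_one, ← map_mul, ← map_mul, ← map_mul, mul_inv_cancel, map_one]
    rw [e1]
    exact PM_right ρ₁ ρ₂ _ (PM_left ρ₁ ρ₂ _ hg)
  · refine (Nat.card_le_card_of_injective f hf).trans ?_
    rw [Nat.card_eq_fintype_card, Fintype.card_fun, ZMod.card, Fintype.card_fin]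
    exact Nat.pow_le_pow_right (Fact.out : p.Prime).pos hr
  · rintro g ⟨hg1, hg2⟩
    rw [mem_UU]
    have h1 : rr ρ₁ ρ₂ g = 1 := by
      refine Prod.ext ?_ ?_
      · exact congrArg Units.val (show ρ₁ g = 1 from hg1)
      · exact congrArg Units.val (show ρ₂ g = 1 from hg2)
    rw [h1, sub_self]
    exact Submodule.zero_mem _
  · intro X hX hXt g
    have hfg : (Submodule.span ℤ_[p] (Set.range (rr ρ₁ ρ₂))).FG := by
      have : Module.Finite ℤ_[p] (Submodule.span ℤ_[p] (Set.range (rr ρ₁ ρ₂))) :=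
        Module.Finite.of_basis e
      exact Module.Finite.iff_fg.1 this
    have hJ : Ideal.span {(p : ℤ_[p])} ≤ Ideal.jacobson ⊥ := by
      rw [IsLocalRing.jacobson_eq_maximalIdeal ⊥ bot_ne_top, PadicInt.maximalIdeal_eq_span_p]
    have hle : Submodule.span ℤ_[p] (Set.range (rr ρ₁ ρ₂)) ≤
        Submodule.span ℤ_[p] (rr ρ₁ ρ₂ '' X) ⊔
          Ideal.span {(p : ℤ_[p])} • Submodule.span ℤ_[p] (Set.range (rr ρ₁ ρ₂)) := by
      rw [Submodule.span_le]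
      rintro _ ⟨g, rfl⟩
      obtain ⟨x, hx, hxg⟩ := hX g
      rw [mem_UU] at hxg
      have e1 : rr ρ₁ ρ₂ g = rr ρ₁ ρ₂ x + rr ρ₁ ρ₂ x * (rr ρ₁ ρ₂ (x⁻¹ * g) - 1) := by
        rw [mul_sub, mul_one, ← map_mul, mul_inv_cancel_left]; abel
      rw [e1]
      refine Submodule.add_mem_sup (Submodule.subset_span ⟨x, hx, rfl⟩) ?_
      obtain ⟨y, hy, hyx⟩ := PM_left (p := p) ρ₁ ρ₂ x hxg
      rw [← hyx]
      exact Submodule.smul_mem_smul (Ideal.mem_span_singleton_self _) hy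
    have hle2 := Submodule.le_of_le_smul_of_le_jacobson_bot hfg hJ hle
    let τ : (Mat n C × Mat n C) →ₗ[ℤ_[p]] C :=
      { toFun := fun x => x.1.trace - x.2.trace
        map_add' := fun x y => by simp; abel
        map_smul' := fun c x => by simp [smul_sub] }
    have h3 : Submodule.span ℤ_[p] (rr ρ₁ ρ₂ '' X) ≤ LinearMap.ker τ := by
      rw [Submodule.span_le]
      rintro _ ⟨x, hx, rfl⟩
      exact sub_eq_zero.2 (hXt x hx)
    have h4 : τ (rr ρ₁ ρ₂ g) = 0 := h3 (hle2 (hmemM g))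
    exact sub_eq_zero.1 h4

end core

theorem main : TaskLat := by
  intro p _ E hE n
  refine ⟨p ^ ((n * n + n * n) * finrank ℚ_[p] E), ?_⟩
  intro G _ _ _ _ ρ₁ ρ₂ c1 c2 s1 s2 t1 t2
  exact lat_main E n G ρ₁ ρ₂ c1 c2 s1 s2 t1 t2

end Pool.Agent.W148.FLLat
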