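import Mathlib
import Pool.Agent.Helper201.HypoHam

set_option autoImplicit false

namespace Pool.Agent.W148.Hypo

open SimpleGraph

variable {V : Type*}

/-- `l` lists the vertices of a closed walk without repetition. -/
def Cyc (G : SimpleGraph V) (l : List V) : Prop :=
  l.Nodup ∧ l.IsChain G.Adj ∧ ∀ x ∈ l.getLast?, ∀ y ∈ l.head?, G.Adj x y

/-- `l` lists the vertices of a path from `s` to `t` -/
def Seg (G : SimpleGraph V) (s t : V) (l : List V) : Prop :=
  l.Nodup ∧ l.IsChain G.Adj ∧ l.head? = some s ∧ l.getLast? = some t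

theorem Cyc.rot {G : SimpleGraph V} {l m : List V} (h : Cyc G (l ++ m)) : Cyc G (m ++ l) := by
  obtain ⟨h1, h2, h3⟩ := h
  rcases l with _ | ⟨a, l⟩
  · simpa using ⟨h1, h2, h3⟩
  rcases m with _ | ⟨b, m⟩
  · rw [List.append_nil] at h1 h2 h3
    rw [List.nil_append]
    exact ⟨h1, h2, h3⟩
  rw [List.isChain_append] at h2
  refine ⟨?_, ?_, ?_⟩
  · exact (List.perm_append_comm.nodup_iff).1 h1
  · rw [List.isChain_append]
    refine ⟨h2.2.1, h2.1, ?_⟩
    intro x hx y hy
    apply h3
    · rw [List.getLast?_append, Option.mem_def, Option.or_eq_some_iff]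
      exact Or.inl hx
    · rw [List.head?_append, Option.mem_def, Option.or_eq_some_iff]
      exact Or.inl hy
  · intro x hx y hy
    rw [List.getLast?_append, Option.mem_def, Option.or_eq_some_iff] at hx
    rw [List.head?_append, Option.mem_def, Option.or_eq_some_iff] at hy
    have hx' : x ∈ (a :: l).getLast? := by
      rcases hx with hx | ⟨hx, _⟩
      · exact hx
      · simp at hx
    have hy' : y ∈ (b :: m).head? := by
      rcases hy with hy | ⟨hy, _⟩
      · exact hy
      · simp at hy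
    exact h2.2.2 x hx' y hy'

theorem Cyc.rev {G : SimpleGraph V} {l : List V} (h : Cyc G l) : Cyc G l.reverse := by
  obtain ⟨h1, h2, h3⟩ := h
  refine ⟨List.nodup_reverse.2 h1, ?_, ?_⟩
  · rw [List.isChain_reverse]
    exact h2.imp fun a b h => h.symm
  · intro x hx y hy
    rw [List.getLast?_reverse] at hx
    rw [List.head?_reverse] at hy
    exact (h3 y hy x hx).symm

theorem Seg.rev {G : SimpleGraph V} {s t : V} {l : List V} (h : Seg G s t l) :
    Seg G t s l.reverse := by
  obtain ⟨h1, h2, h3, h4⟩ := h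
  refine ⟨List.nodup_reverse.2 h1, ?_, ?_, ?_⟩
  · rw [List.isChain_reverse]
    exact h2.imp fun a b h => h.symm
  · rw [List.head?_reverse, h4]
  · rw [List.getLast?_reverse, h3]

theorem Seg.ne_nil {G : SimpleGraph V} {s t : V} {l : List V} (h : Seg G s t l) : l ≠ [] := by
  rintro rfl
  have := h.2.2.1
  simp at this

/-- rotate so that a given vertex comes first -/
theorem Cyc.start {G : SimpleGraph V} {l : List V} (h : Cyc G l) {x : V} (hx : x ∈ l) :
    ∃ r, Cyc G (x :: r) ∧ ∀ w, w ∈ x :: r ↔ w ∈ l := by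
  obtain ⟨l1, l2, rfl⟩ := List.append_of_mem hx
  refine ⟨l2 ++ l1, ?_, ?_⟩
  · have := h.rot
    simpa using this
  · intro w
    simp only [List.mem_cons, List.mem_append]
    tauto

/-- two segments closing up -/
theorem Cyc.of_segs {G : SimpleGraph V} {s t u v : V} {l m : List V} (hl : Seg G s t l)
    (hm : Seg G u v m) (hd : ∀ w ∈ l, w ∉ m) (h1 : G.Adj t u) (h2 : G.Adj v s) :
    Cyc G (l ++ m) := by
  obtain ⟨a1, a2, a3, a4⟩ := hl
  obtain ⟨b1, b2, b3, b4⟩ := hm
  refine ⟨?_, ?_, ?_⟩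
  · rw [List.nodup_append]
    exact ⟨a1, b1, fun x hx y hy hxy => hd x hx (hxy ▸ hy)⟩
  · rw [List.isChain_append]
    refine ⟨a2, b2, ?_⟩
    intro x hx y hy
    rw [a4] at hx
    rw [b3] at hy
    cases hx
    cases hy
    exact h1
  · intro x hx y hy
    rw [List.getLast?_append, b4] at hx
    rw [List.head?_append, a3] at hy
    cases hx
    cases hy
    exact h2

/-- joining two segments -/
theorem Seg.append {G : SimpleGraph V} {s t u v : V} {l m : List V} (hl : Seg G s t l)
    (hm : Seg G u v m) (hd : ∀ w ∈ l, w ∉ m) (h1 : G.Adj t u) :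
    Seg G s v (l ++ m) := by
  obtain ⟨a1, a2, a3, a4⟩ := hl
  obtain ⟨b1, b2, b3, b4⟩ := hm
  refine ⟨?_, ?_, ?_, ?_⟩
  · rw [List.nodup_append]
    exact ⟨a1, b1, fun x hx y hy hxy => hd x hx (hxy ▸ hy)⟩
  · rw [List.isChain_append]
    refine ⟨a2, b2, ?_⟩
    intro x hx y hy
    rw [a4] at hx
    rw [b3] at hy
    cases hx
    cases hy
    exact h1
  · rw [List.head?_append, a3]; rfl
  · rw [List.getLast?_append, b4]; rfl

/-- the part of a closed walk after its first vertex -/
theorem Cyc.tail {G : SimpleGraph V} {x : V} {r : List V} (h : Cyc G (x :: r)) (hr : r ≠ []) :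
    ∃ s t, Seg G s t r ∧ G.Adj x s ∧ G.Adj t x ∧ x ∉ r := by
  obtain ⟨h1, h2, h3⟩ := h
  obtain ⟨s, r', rfl⟩ := List.exists_cons_of_ne_nil hr
  have h4 := List.isChain_cons_cons.1 h2
  obtain ⟨t, ht⟩ : ∃ t, (s :: r').getLast? = some t := ⟨_, List.getLast?_eq_getLast_of_ne_nil (by simp)⟩
  refine ⟨s, t, ⟨(List.nodup_cons.1 h1).2, h4.2, rfl, ht⟩, h4.1, ?_, (List.nodup_cons.1 h1).1⟩
  apply h3
  · rw [List.getLast?_cons_cons]
    exact ht
  · rfl

/-- Hamiltonicity from a list -/
theorem ham_of_cyc {α : Type*} [DecidableEq α] [Fintype α] (H : SimpleGraph α) (l : List α)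
    (hl : Cyc H l) (hall : ∀ w, w ∈ l) (hcard : 3 ≤ Fintype.card α) : H.IsHamiltonian := by
  have hlen : l.length = Fintype.card α := by
    rw [← List.toFinset_card_of_nodup hl.1]
    rw [Finset.card_eq_iff_eq_univ]
    ext w
    simp [hall w]
  match l, hl, hlen with
  | [], _, h => simp at h; omega
  | [_], _, h => simp at h; omega
  | [_, _], _, h => simp at h; omega
  | a :: b :: m :: M, hl, h =>
    refine Pool.Agent.Helper201.Hypo.hamCycle_of_list H a b m M ?_ hl.1 h
    have h1 : a :: b :: m :: (M ++ [a]) = (a :: b :: m :: M) ++ [a] := by simp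
    rw [h1, List.isChain_append]
    refine ⟨hl.2.1, List.isChain_singleton _, ?_⟩
    intro x hx y hy
    exact hl.2.2 x hx y (by simpa using hy)

/-- Hamiltonicity of a vertex-deleted graph from a list -/
theorem ham_del_of_cyc {α : Type*} [Fintype α] [DecidableEq α] (H : SimpleGraph α) (v : α)
    (l : List α)
    (hl : Cyc H l) (hall : ∀ w, w ∈ l ↔ w ≠ v) (hcard : 4 ≤ Fintype.card α)
    [Fintype ↥{w : α | w ≠ v}] [DecidableEq ↥{w : α | w ≠ v}] :
    (H.induce {w | w ≠ v}).IsHamiltonian := by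
  have hlift : ∀ w ∈ l, w ∈ {w : α | w ≠ v} := fun w hw => (hall w).1 hw
  obtain ⟨l', rfl⟩ : ∃ l' : List ↥{w : α | w ≠ v}, l'.map Subtype.val = l := by
    refine ⟨l.pmap Subtype.mk hlift, ?_⟩
    rw [List.map_pmap]
    exact (List.pmap_eq_map _).trans (List.map_id _)
  apply ham_of_cyc _ l'
  · obtain ⟨h1, h2, h3⟩ := hl
    refine ⟨List.Nodup.of_map _ h1, ?_, ?_⟩
    · rw [List.isChain_map] at h2
      exact h2.imp fun a b h => h
    · intro x hx y hy
      apply h3
      · rw [List.getLast?_map, Option.mem_def, hx]; rfl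
      · rw [List.head?_map, Option.mem_def, hy]; rfl
  · intro w
    have := (hall w.1).2 w.2
    rw [List.mem_map] at this
    obtain ⟨w', hw', h⟩ := this
    rw [← Subtype.ext h]
    exact hw'
  · have : Fintype.card ↥{w : α | w ≠ v} = Fintype.card α - 1 := Set.card_ne_eq v
    omega

end Pool.Agent.W148.Hypo
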