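import Mathlib
import Pool.Agent.W148.HypoList

set_option autoImplicit false

namespace Pool.Agent.W148.Hypo

open SimpleGraph

variable {V : Type*}

theorem takeWhile_all (X : V → Bool) (l : List V) : ∀ w ∈ l.takeWhile X, X w = true :=
  fun _ hw => List.mem_takeWhile_imp hw

theorem seg_self {G : SimpleGraph V} {s : V} {l : List V} (h : Seg G s s l) : l = [s] := by
  obtain ⟨h1, h2, h3, h4⟩ := h
  rcases l with _ | ⟨a, l⟩
  · simp at h3
  · have ha : a = s := by simpa using h3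
    subst ha
    rcases l with _ | ⟨b, l⟩
    · rfl
    · exfalso
      rw [List.getLast?_cons_cons] at h4
      exact (List.nodup_cons.1 h1).1 (List.mem_of_getLast? h4)

theorem seg_of_ne_nil {G : SimpleGraph V} {l : List V} (h1 : l.Nodup) (h2 : l.IsChain G.Adj)
    (h3 : l ≠ []) : ∃ s t, Seg G s t l := by
  rcases l with _ | ⟨a, l⟩
  · exact absurd rfl h3
  · exact ⟨a, _, h1, h2, rfl, List.getLast?_eq_getLast_of_ne_nil (by simp)⟩

/-- A closed walk meeting both sides of a partition, cut at two crossings. -/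
theorem exists_split {G : SimpleGraph V} {l : List V} (h : Cyc G l) (X : V → Prop) {x y : V}
    (hx : x ∈ l) (hX : X x) (hy : y ∈ l) (hY : ¬ X y) :
    ∃ (s t u v : V) (A B : List V), Seg G s t A ∧ Seg G u v B ∧ (A ++ B).Perm l ∧
      (∀ w ∈ A, ¬ X w) ∧ X u ∧ X v ∧ G.Adj t u ∧ G.Adj v s := by
  classical
  obtain ⟨l1, l2, rfl⟩ := List.append_of_mem hx
  -- rotate so that `x` is last
  have hc1 : Cyc G (l2 ++ (l1 ++ [x])) := by
    have h0 : Cyc G ((l1 ++ [x]) ++ l2) := by simpa using h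
    exact h0.rot
  have hp1 : (l2 ++ (l1 ++ [x])).Perm (l1 ++ x :: l2) := by
    have : (l2 ++ (l1 ++ [x])).Perm ((l1 ++ [x]) ++ l2) := List.perm_append_comm
    simpa using this
  set l' := l2 ++ (l1 ++ [x]) with hl'
  have hlast : l'.getLast? = some x := by
    rw [hl', ← List.append_assoc, List.getLast?_append]
    rfl
  have hy' : y ∈ l' := hp1.mem_iff.2 hy
  have hsp := List.takeWhile_append_dropWhile (p := fun w => decide (X w)) (l := l')
  set D1 := l'.takeWhile (fun w => decide (X w)) with hD1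
  set D2 := l'.dropWhile (fun w => decide (X w)) with hD2
  have hD1X : ∀ w ∈ D1, X w := fun w hw => by
    simpa using takeWhile_all _ _ w hw
  have hD2ne : D2 ≠ [] := by
    intro h0
    rw [h0, List.append_nil] at hsp
    rw [← hsp] at hy'
    exact hY (hD1X y hy')
  have hD2last : D2.getLast? = some x := by
    rw [← hsp, List.getLast?_append] at hlast
    rcases hq : D2.getLast? with _ | z
    · rw [List.getLast?_eq_none_iff] at hq
      exact absurd hq hD2ne
    · rw [hq] at hlast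
      exact hlast
  have hc2 : Cyc G (D2 ++ D1) := by
    have : Cyc G (D1 ++ D2) := by rw [hsp]; exact hc1
    exact this.rot
  have hp2 : (D2 ++ D1).Perm l' := by
    have : (D2 ++ D1).Perm (D1 ++ D2) := List.perm_append_comm
    rwa [hsp] at this
  set m := D2 ++ D1 with hm
  obtain ⟨s, hs⟩ : ∃ s, D2.head? = some s := by
    rcases D2 with _ | ⟨a, D⟩
    · exact absurd rfl hD2ne
    · exact ⟨a, rfl⟩
  have hsX : ¬ X s := by
    have := List.head?_dropWhile_not (fun w => decide (X w)) l'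
    rw [← hD2, hs] at this
    simpa using this
  have hmhead : m.head? = some s := by
    rw [hm, List.head?_append, hs]; rfl
  have hmlast : ∀ z, m.getLast? = some z → X z := by
    intro z hz
    rw [hm, List.getLast?_append] at hz
    rcases hq : D1.getLast? with _ | z'
    · rw [hq, hD2last] at hz
      cases hz
      exact hX
    · rw [hq] at hz
      cases hz
      exact hD1X _ (List.mem_of_getLast? hq)
  have hsp2 := List.takeWhile_append_dropWhile (p := fun w => decide (¬ X w)) (l := m)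
  set A := m.takeWhile (fun w => decide (¬ X w)) with hA
  set B := m.dropWhile (fun w => decide (¬ X w)) with hB
  have hAX : ∀ w ∈ A, ¬ X w := fun w hw => by
    simpa using takeWhile_all _ _ w hw
  have hxm : x ∈ m := hp2.mem_iff.2 (hp1.mem_iff.2 hx)
  have hBne : B ≠ [] := by
    intro h0
    rw [h0, List.append_nil] at hsp2
    rw [← hsp2] at hxm
    exact hAX x hxm hX
  have hAne : A ≠ [] := by
    intro h0
    rw [h0, List.nil_append] at hsp2
    have := List.head?_dropWhile_not (fun w => decide (¬ X w)) m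
    rw [← hB, hsp2, hmhead] at this
    exact hsX (by simpa using this)
  have hc3 : Cyc G (A ++ B) := by rw [hsp2]; exact hc2
  have hc3' := hc3.1
  rw [List.nodup_append] at hc3'
  have hc3'' := hc3.2.1
  rw [List.isChain_append] at hc3''
  obtain ⟨s', t, hsegA⟩ := seg_of_ne_nil hc3'.1 hc3''.1 hAne
  obtain ⟨u, v, hsegB⟩ := seg_of_ne_nil hc3'.2.1 hc3''.2.1 hBne
  have huX : X u := by
    have := List.head?_dropWhile_not (fun w => decide (¬ X w)) m
    rw [← hB, hsegB.2.2.1] at this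
    by_contra hcon
    simp [hcon] at this
  have hvX : X v := by
    apply hmlast
    rw [← hsp2, List.getLast?_append, hsegB.2.2.2]
    rfl
  refine ⟨s', t, u, v, A, B, hsegA, hsegB, ?_, hAX, huX, hvX, ?_, ?_⟩
  · rw [hsp2]
    exact hp2.trans hp1
  · exact hc3''.2.2 t hsegA.2.2.2 u hsegB.2.2.1
  · apply hc3.2.2
    · rw [List.getLast?_append, hsegB.2.2.2]; rfl
    · rw [List.head?_append, hsegA.2.2.1]; rfl

theorem mem_of_head {l : List V} {s : V} (h : l.head? = some s) : s ∈ l :=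
  List.mem_of_head? h

/-- one side of a cut with only two usable edges is spanned by a path -/
theorem half {G : SimpleGraph V} (X : V → Prop) (v x2 y2 x3 y3 : V)
    (hD : ∀ x y, X x → ¬ X y → G.Adj x y → x ≠ v → y ≠ v →
      (x = x2 ∧ y = y2) ∨ (x = x3 ∧ y = y3))
    (l : List V) (hl : Cyc G l) (hall : ∀ w, w ∈ l ↔ w ≠ v)
    (hx : ∃ x, x ≠ v ∧ X x) (hy : ∃ y, y ≠ v ∧ ¬ X y) (hlen : 3 ≤ l.length) :
    ∃ A, Seg G y2 y3 A ∧ ∀ w, w ∈ A ↔ (w ≠ v ∧ ¬ X w) := by
  classical
  obtain ⟨x, hxv, hxX⟩ := hx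
  obtain ⟨y, hyv, hyX⟩ := hy
  obtain ⟨s, t, u, w, A, B, hA, hB, hperm, hAX, huX, hwX, htu, hws⟩ :=
    exists_split hl X ((hall x).2 hxv) hxX ((hall y).2 hyv) hyX
  have hsA : s ∈ A := mem_of_head hA.2.2.1
  have htA : t ∈ A := List.mem_of_getLast? hA.2.2.2
  have huB : u ∈ B := mem_of_head hB.2.2.1
  have hwB : w ∈ B := List.mem_of_getLast? hB.2.2.2
  have hne : ∀ z, z ∈ A ∨ z ∈ B → z ≠ v := by
    intro z hz
    apply (hall z).1
    rw [← hperm.mem_iff, List.mem_append]
    exact hz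
  have hnd : (A ++ B).Nodup := hperm.nodup_iff.2 hl.1
  rw [List.nodup_append] at hnd
  have hdis : ∀ z, z ∈ A → z ∈ B → False := fun z h1 h2 => hnd.2.2 z h1 z h2 rfl
  have p1 := hD w s hwX (hAX s hsA) hws (hne w (Or.inr hwB)) (hne s (Or.inl hsA))
  have p2 := hD u t huX (hAX t htA) htu.symm (hne u (Or.inr huB)) (hne t (Or.inl htA))
  have hBX : ∀ z ∈ B, X z := by
    by_contra hcon
    push Not at hcon
    obtain ⟨z, hzB, hzX⟩ := hcon
    have hsp := List.takeWhile_append_dropWhile (p := fun w => decide (X w)) (l := B)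
    set B1 := B.takeWhile (fun w => decide (X w)) with hB1
    set B2 := B.dropWhile (fun w => decide (X w)) with hB2
    have hB1X : ∀ w ∈ B1, X w := fun w hw => by
      simpa using takeWhile_all _ _ w hw
    have hB2ne : B2 ≠ [] := by
      intro h0
      rw [h0, List.append_nil] at hsp
      rw [← hsp] at hzB
      exact hzX (hB1X z hzB)
    have hB1ne : B1 ≠ [] := by
      intro h0
      rw [h0, List.nil_append] at hsp
      have h5 := List.head?_dropWhile_not (fun w => decide (X w)) B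
      rw [← hB2, hsp, hB.2.2.1] at h5
      simp [huX] at h5
    have hch := hB.2.1
    rw [← hsp, List.isChain_append] at hch
    obtain ⟨q, hq⟩ : ∃ q, B2.head? = some q := by
      rcases B2 with _ | ⟨a, D⟩
      · exact absurd rfl hB2ne
      · exact ⟨a, rfl⟩
    obtain ⟨p, hp⟩ : ∃ p, B1.getLast? = some p :=
      ⟨_, List.getLast?_eq_getLast_of_ne_nil hB1ne⟩
    have hqX : ¬ X q := by
      have h5 := List.head?_dropWhile_not (fun w => decide (X w)) B
      rw [← hB2, hq] at h5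
      simpa using h5
    have hpB1 : p ∈ B1 := List.mem_of_getLast? hp
    have hqB2 : q ∈ B2 := mem_of_head hq
    have hpB : p ∈ B := by rw [← hsp]; exact List.mem_append_left _ hpB1
    have hqB : q ∈ B := by rw [← hsp]; exact List.mem_append_right _ hqB2
    have p3 := hD p q (hB1X p hpB1) hqX (hch.2.2 p hp q hq) (hne p (Or.inr hpB))
      (hne q (Or.inr hqB))
    have hqs : q ≠ s := fun h => hdis s hsA (h ▸ hqB)
    have hqt : q ≠ t := fun h => hdis t htA (h ▸ hqB)
    have huw : u = w := by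
      rcases p1 with ⟨h1, h2⟩ | ⟨h1, h2⟩ <;> rcases p2 with ⟨h3, h4⟩ | ⟨h3, h4⟩ <;>
        rcases p3 with ⟨h5, h6⟩ | ⟨h5, h6⟩
      · rw [h1, h3]
      · rw [h1, h3]
      · exact absurd (h6.trans h2.symm) hqs
      · exact absurd (h6.trans h4.symm) hqt
      · exact absurd (h6.trans h4.symm) hqt
      · exact absurd (h6.trans h2.symm) hqs
      · rw [h1, h3]
      · rw [h1, h3]
    subst huw
    have := seg_self hB
    rw [this] at hzB
    have : z = u := by simpa using hzB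
    exact hzX (this ▸ huX)
  have hmem : ∀ z, z ∈ A ↔ (z ≠ v ∧ ¬ X z) := by
    intro z
    constructor
    · intro hz
      exact ⟨hne z (Or.inl hz), hAX z hz⟩
    · rintro ⟨h1, h2⟩
      have h3 : z ∈ A ++ B := hperm.mem_iff.2 ((hall z).2 h1)
      rcases List.mem_append.1 h3 with h | h
      · exact h
      · exact absurd (hBX z h) h2
  have hsame : ¬ (s = t ∧ u = w) := by
    rintro ⟨rfl, rfl⟩
    have h1 := seg_self hA
    have h2 := seg_self hB
    have h3 := hperm.length_eq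
    rw [h1, h2] at h3
    simp at h3
    omega
  rcases p1 with ⟨h1, h2⟩ | ⟨h1, h2⟩ <;> rcases p2 with ⟨h3, h4⟩ | ⟨h3, h4⟩
  · exact absurd ⟨h2.trans h4.symm, h3.trans h1.symm⟩ hsame
  · subst h2 h4
    exact ⟨A, hA, hmem⟩
  · subst h2 h4
    refine ⟨A.reverse, hA.rev, fun w => ?_⟩
    rw [List.mem_reverse]
    exact hmem w
  · exact absurd ⟨h2.trans h4.symm, h3.trans h1.symm⟩ hsame

/-- two crossings avoiding a vertex -/
theorem two_cross {G : SimpleGraph V} (X : V → Prop) (v : V)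
    (l : List V) (hl : Cyc G l) (hall : ∀ w, w ∈ l ↔ w ≠ v)
    (hx : ∃ x, x ≠ v ∧ X x) (hy : ∃ y, y ≠ v ∧ ¬ X y) (hlen : 3 ≤ l.length) :
    ∃ x y x' y', X x ∧ ¬ X y ∧ G.Adj x y ∧ x ≠ v ∧ y ≠ v ∧ X x' ∧ ¬ X y' ∧ G.Adj x' y' ∧
      x' ≠ v ∧ y' ≠ v ∧ (x, y) ≠ (x', y') := by
  obtain ⟨x, hxv, hxX⟩ := hx
  obtain ⟨y, hyv, hyX⟩ := hy
  obtain ⟨s, t, u, w, A, B, hA, hB, hperm, hAX, huX, hwX, htu, hws⟩ :=
    exists_split hl X ((hall x).2 hxv) hxX ((hall y).2 hyv) hyX
  have hsA : s ∈ A := mem_of_head hA.2.2.1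
  have htA : t ∈ A := List.mem_of_getLast? hA.2.2.2
  have huB : u ∈ B := mem_of_head hB.2.2.1
  have hwB : w ∈ B := List.mem_of_getLast? hB.2.2.2
  have hne : ∀ z, z ∈ A ∨ z ∈ B → z ≠ v := by
    intro z hz
    apply (hall z).1
    rw [← hperm.mem_iff, List.mem_append]
    exact hz
  refine ⟨w, s, u, t, hwX, hAX s hsA, hws, hne w (Or.inr hwB), hne s (Or.inl hsA), huX,
    hAX t htA, htu.symm, hne u (Or.inr huB), hne t (Or.inl htA), ?_⟩
  intro h
  rw [Prod.mk.injEq] at h
  obtain ⟨rfl, rfl⟩ := h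
  have h1 := seg_self hA
  have h2 := seg_self hB
  have h3 := hperm.length_eq
  rw [h1, h2] at h3
  simp at h3
  omega

/-- In a hypohamiltonian graph every cut with at least two vertices on both sides that has at most
three edges is impossible. -/
theorem cut_four [Finite V] (G : SimpleGraph V) (hnh : ¬ ∃ l, Cyc G l ∧ ∀ w, w ∈ l)
    (hd : ∀ v, ∃ l, Cyc G l ∧ 3 ≤ l.length ∧ ∀ w, w ∈ l ↔ w ≠ v) (X : V → Prop)
    (hX : ∀ v, ∃ x, x ≠ v ∧ X x) (hY : ∀ v, ∃ y, y ≠ v ∧ ¬ X y) (v0 : V) :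
    4 ≤ {p : V × V | X p.1 ∧ ¬ X p.2 ∧ G.Adj p.1 p.2}.ncard := by
  by_contra hcon
  push Not at hcon
  set D := {p : V × V | X p.1 ∧ ¬ X p.2 ∧ G.Adj p.1 p.2} with hDdef
  have hfin : D.Finite := Set.toFinite _
  obtain ⟨l0, hl0, hlen0, hall0⟩ := hd v0
  obtain ⟨x1, y1, -, -, a1, a2, a3, -⟩ := two_cross X v0 l0 hl0 hall0 (hX v0) (hY v0) hlen0
  obtain ⟨l1, hl1, hlen1, hall1⟩ := hd x1
  obtain ⟨x2, y2, x3, y3, b1, b2, b3, b4, b5, c1, c2, c3, c4, c5, hne⟩ :=
    two_cross X x1 l1 hl1 hall1 (hX x1) (hY x1) hlen1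
  have hsub : ({(x1, y1), (x2, y2), (x3, y3)} : Set (V × V)) ⊆ D := by
    intro p hp
    simp only [Set.mem_insert_iff, Set.mem_singleton_iff] at hp
    rcases hp with rfl | rfl | rfl
    · exact ⟨a1, a2, a3⟩
    · exact ⟨b1, b2, b3⟩
    · exact ⟨c1, c2, c3⟩
  have hcard : ({(x1, y1), (x2, y2), (x3, y3)} : Set (V × V)).ncard = 3 := by
    rw [Set.ncard_eq_three]
    refine ⟨(x1, y1), (x2, y2), (x3, y3), ?_, ?_, hne, rfl⟩
    · intro h
      exact b4 (congrArg Prod.fst h).symm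
    · intro h
      exact c4 (congrArg Prod.fst h).symm
  have heq : ({(x1, y1), (x2, y2), (x3, y3)} : Set (V × V)) = D :=
    Set.eq_of_subset_of_ncard_le hsub (by rw [hcard]; omega) hfin
  have hDm : ∀ x y, X x → ¬ X y → G.Adj x y →
      (x = x1 ∧ y = y1) ∨ (x = x2 ∧ y = y2) ∨ (x = x3 ∧ y = y3) := by
    intro x y h1 h2 h3
    have h4 : (x, y) ∈ D := ⟨h1, h2, h3⟩
    rw [← heq] at h4
    simpa using h4
  obtain ⟨A, hA, hAm⟩ := half X x1 x2 y2 x3 y3 (by
    intro x y h1 h2 h3 h4 h5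
    rcases hDm x y h1 h2 h3 with h | h | h
    · exact absurd h.1 h4
    · exact Or.inl h
    · exact Or.inr h) l1 hl1 hall1 (hX x1) (hY x1) hlen1
  obtain ⟨l2, hl2, hlen2, hall2⟩ := hd y1
  obtain ⟨B, hB, hBm⟩ := half (fun w => ¬ X w) y1 y2 x2 y3 x3 (by
    intro x y h1 h2 h3 h4 h5
    rw [not_not] at h2
    rcases hDm y x h2 h1 h3.symm with h | h | h
    · exact absurd h.2 h4
    · exact Or.inl h.symm
    · exact Or.inr h.symm) l2 hl2 hall2 (hY y1) (by
      obtain ⟨x, h1, h2⟩ := hX y1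
      exact ⟨x, h1, not_not.2 h2⟩) hlen2
  apply hnh
  refine ⟨A ++ B.reverse, Cyc.of_segs hA hB.rev ?_ c3.symm b3, ?_⟩
  · intro w hw hw'
    rw [List.mem_reverse] at hw'
    exact ((hBm w).1 hw').2 ((hAm w).1 hw).2
  · intro w
    rw [List.mem_append, List.mem_reverse, hAm, hBm]
    by_cases hw : X w
    · right
      refine ⟨?_, not_not.2 hw⟩
      rintro rfl
      exact a2 hw
    · left
      refine ⟨?_, hw⟩
      rintro rfl
      exact hw a1

end Pool.Agent.W148.Hypo
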