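import Mathlib
import Pool.Agent.W148.HypoList
import Pool.Agent.W148.HypoCyc

set_option autoImplicit false

namespace Pool.Agent.W148.Hypo

open SimpleGraph

/-- vertices different from `x` and `y` -/
abbrev Rest {B : Type} (x y : B) : Type := {w : B // w ≠ x ∧ w ≠ y}

/-- the four connecting edges -/
def link {A B : Type} (a b c d : A) (x1 x2 y1 y2 : B) (s : A) (u : B) : Prop :=
  (s = a ∧ u = x1) ∨ (s = b ∧ u = x2) ∨ (s = c ∧ u = y1) ∨ (s = d ∧ u = y2)

/-- dot product: `T'` is the first graph minus the edges `ab`, `cd`; the adjacent vertices `x`, `y`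
are removed from `H` and their other neighbours `x1, x2` and `y1, y2` are joined to `a, b` and
`c, d`. -/
def Dot {A B : Type} (T' : SimpleGraph A) (a b c d : A) (H : SimpleGraph B)
    (x y x1 x2 y1 y2 : B) : SimpleGraph (A ⊕ Rest x y) where
  Adj p q := match p, q with
    | Sum.inl s, Sum.inl t => T'.Adj s t
    | Sum.inl s, Sum.inr u => link a b c d x1 x2 y1 y2 s u.1
    | Sum.inr u, Sum.inl s => link a b c d x1 x2 y1 y2 s u.1
    | Sum.inr u, Sum.inr v => H.Adj u.1 v.1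
  symm := ⟨by
    rintro (s | u) (t | v) h
    · exact h.symm
    · exact h
    · exact h
    · exact h.symm⟩
  loopless := ⟨by
    rintro (s | u) h
    · exact T'.loopless.irrefl _ h
    · exact H.loopless.irrefl _ h⟩

section

variable {A B : Type} (T' : SimpleGraph A) (a b c d : A) (H : SimpleGraph B)
    (x y x1 x2 y1 y2 : B)

theorem segL {s t : A} {P : List A} (h : Seg T' s t P) :
    Seg (Dot T' a b c d H x y x1 x2 y1 y2) (Sum.inl s) (Sum.inl t) (P.map Sum.inl) := by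
  obtain ⟨h1, h2, h3, h4⟩ := h
  refine ⟨h1.map Sum.inl_injective, ?_, ?_, ?_⟩
  · rw [List.isChain_map]
    exact h2.imp fun a b h => h
  · rw [List.head?_map, h3]; rfl
  · rw [List.getLast?_map, h4]; rfl

theorem segR {s t : B} {R : List B} (h : Seg H s t R) (hR : ∀ w ∈ R, w ≠ x ∧ w ≠ y) :
    ∃ (hs : s ≠ x ∧ s ≠ y) (ht : t ≠ x ∧ t ≠ y) (R' : List (A ⊕ Rest x y)),
      Seg (Dot T' a b c d H x y x1 x2 y1 y2) (Sum.inr ⟨s, hs⟩) (Sum.inr ⟨t, ht⟩) R' ∧
      ∀ z, z ∈ R' ↔ ∃ u : Rest x y, z = Sum.inr u ∧ u.1 ∈ R := by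
  obtain ⟨h1, h2, h3, h4⟩ := h
  have hs := hR s (mem_of_head h3)
  have ht := hR t (List.mem_of_getLast? h4)
  obtain ⟨R0, hR0⟩ : ∃ R0 : List (Rest x y), R0.map Subtype.val = R := by
    refine ⟨R.pmap Subtype.mk hR, ?_⟩
    rw [List.map_pmap]
    exact (List.pmap_eq_map _).trans (List.map_id _)
  subst hR0
  refine ⟨hs, ht, R0.map Sum.inr, ⟨?_, ?_, ?_, ?_⟩, ?_⟩
  · exact (List.Nodup.of_map _ h1).map Sum.inr_injective
  · rw [List.isChain_map] at h2 ⊢
    exact h2.imp fun a b h => h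
  · rw [List.head?_map] at h3 ⊢
    rw [Option.map_eq_some_iff] at h3
    obtain ⟨u, hu, rfl⟩ := h3
    rw [hu]; rfl
  · rw [List.getLast?_map] at h4 ⊢
    rw [Option.map_eq_some_iff] at h4
    obtain ⟨u, hu, rfl⟩ := h4
    rw [hu]; rfl
  · intro z
    rw [List.mem_map]
    constructor
    · rintro ⟨u, hu, rfl⟩
      exact ⟨u, rfl, List.mem_map_of_mem hu⟩
    · rintro ⟨u, rfl, hu⟩
      rw [List.mem_map] at hu
      obtain ⟨u', hu', h⟩ := hu
      exact ⟨u', hu', congrArg _ (Subtype.ext h)⟩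

end

/-- pattern (x1 - x2) -/
theorem pat_one {B : Type} (H : SimpleGraph B) (x y x1 x2 : B)
    (hx : ∀ w, H.Adj x w → w = y ∨ w = x1 ∨ w = x2) (hxy : x ≠ y)
    (h12 : x1 ≠ x2) (hx1 : x1 ≠ x) (hx2 : x2 ≠ x) (hy1 : x1 ≠ y) (hy2 : x2 ≠ y)
    (hdel : ∃ l, Cyc H l ∧ ∀ w, w ∈ l ↔ w ≠ y) :
    ∃ r, Seg H x1 x2 r ∧ ∀ w, w ∈ r ↔ (w ≠ x ∧ w ≠ y) := by
  obtain ⟨l, hl, hall⟩ := hdel
  obtain ⟨r, hr, hrm⟩ := hl.start ((hall x).2 hxy)
  have hm1 : x1 ∈ r := by
    have := (hrm x1).2 ((hall x1).2 hy1)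
    rw [List.mem_cons] at this
    rcases this with h | h
    · exact absurd h hx1
    · exact h
  have hm2 : x2 ∈ r := by
    have := (hrm x2).2 ((hall x2).2 hy2)
    rw [List.mem_cons] at this
    rcases this with h | h
    · exact absurd h hx2
    · exact h
  have hne : r ≠ [] := by
    rintro rfl
    simp at hm1
  obtain ⟨s, t, hseg, hxs, htx, hxr⟩ := hr.tail hne
  have hmem : ∀ w, w ∈ r ↔ (w ≠ x ∧ w ≠ y) := by
    intro w
    constructor
    · intro hw
      refine ⟨?_, ?_⟩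
      · rintro rfl
        exact hxr hw
      · exact (hall w).1 ((hrm w).1 (List.mem_cons_of_mem _ hw))
    · rintro ⟨h1, h2⟩
      have := (hrm w).2 ((hall w).2 h2)
      rw [List.mem_cons] at this
      rcases this with h | h
      · exact absurd h h1
      · exact h
  have hs : s = x1 ∨ s = x2 := by
    rcases hx s hxs with h | h | h
    · exact absurd h ((hmem s).1 (mem_of_head hseg.2.2.1)).2
    · exact Or.inl h
    · exact Or.inr h
  have ht : t = x1 ∨ t = x2 := by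
    rcases hx t htx.symm with h | h | h
    · exact absurd h ((hmem t).1 (List.mem_of_getLast? hseg.2.2.2)).2
    · exact Or.inl h
    · exact Or.inr h
  have hst : s ≠ t := by
    rintro rfl
    have := seg_self hseg
    rw [this] at hm1 hm2
    rw [List.mem_singleton] at hm1 hm2
    exact h12 (hm1.trans hm2.symm)
  rcases hs with rfl | rfl <;> rcases ht with rfl | rfl
  · exact absurd rfl hst
  · exact ⟨r, hseg, hmem⟩
  · exact ⟨r.reverse, hseg.rev, fun w => by rw [List.mem_reverse]; exact hmem w⟩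
  · exact absurd rfl hst

/-- the two possible traces of a Hamilton cycle of `H - v` -/
theorem pat_two {B : Type} (H : SimpleGraph B) (x y x1 x2 y1 y2 v : B)
    (hx : ∀ w, H.Adj x w → w = y ∨ w = x1 ∨ w = x2)
    (hy : ∀ w, H.Adj y w → w = x ∨ w = y1 ∨ w = y2) (hxy : x ≠ y)
    (hvx : v ≠ x) (hvy : v ≠ y) (hbig : ∃ z, z ≠ x ∧ z ≠ y ∧ z ≠ v)
    (hdel : ∃ l, Cyc H l ∧ ∀ w, w ∈ l ↔ w ≠ v) :
    (∃ p q r, (p = x1 ∨ p = x2) ∧ (q = y1 ∨ q = y2) ∧ Seg H q p r ∧
      ∀ w, w ∈ r ↔ (w ≠ x ∧ w ≠ y ∧ w ≠ v)) ∨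
    (∃ p p' q q' r1 r2, ((p = x1 ∧ p' = x2) ∨ (p = x2 ∧ p' = x1)) ∧
      ((q = y1 ∧ q' = y2) ∨ (q = y2 ∧ q' = y1)) ∧ Seg H p' q r1 ∧ Seg H q' p r2 ∧
      (∀ w ∈ r1, w ∉ r2) ∧ ∀ w, (w ∈ r1 ∨ w ∈ r2) ↔ (w ≠ x ∧ w ≠ y ∧ w ≠ v)) := by
  obtain ⟨l, hl, hall⟩ := hdel
  obtain ⟨r, hr, hrm⟩ := hl.start ((hall x).2 hvx.symm)
  have hyr : y ∈ r := by
    have := (hrm y).2 ((hall y).2 hvy.symm)
    rw [List.mem_cons] at this
    rcases this with h | h
    · exact absurd h hxy.symm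
    · exact h
  obtain ⟨r1, r2, rfl⟩ := List.append_of_mem hyr
  have hmem : ∀ w, w ∈ x :: (r1 ++ y :: r2) ↔ w ≠ v := fun w => (hrm w).trans (hall w)
  -- the case where the edge `xy` is used
  have key : ∀ r2 : List B, Cyc H (x :: y :: r2) → (∀ w, w ∈ x :: y :: r2 ↔ w ≠ v) →
      (∃ p q r, (p = x1 ∨ p = x2) ∧ (q = y1 ∨ q = y2) ∧ Seg H q p r ∧
      ∀ w, w ∈ r ↔ (w ≠ x ∧ w ≠ y ∧ w ≠ v)) := by
    intro r2 hc hm
    have hnd := hc.1
    rw [List.nodup_cons, List.nodup_cons, List.mem_cons, not_or] at hnd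
    obtain ⟨⟨-, hxr2⟩, hyr2, -⟩ := hnd
    obtain ⟨z, hz1, hz2, hz3⟩ := hbig
    have hzr : z ∈ r2 := by
      have := (hm z).2 hz3
      rw [List.mem_cons, List.mem_cons] at this
      rcases this with h | h | h
      · exact absurd h hz1
      · exact absurd h hz2
      · exact h
    have hne : r2 ≠ [] := by
      rintro rfl
      simp at hzr
    have hc' : Cyc H (y :: (r2 ++ [x])) := by
      have : Cyc H ([x] ++ (y :: r2)) := by simpa using hc
      simpa using this.rot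
    have hch := hc.2.1
    rw [List.isChain_cons_cons] at hch
    obtain ⟨hxy', hch2⟩ := hch
    obtain ⟨q, p, hseg⟩ := seg_of_ne_nil (G := H) (l := r2)
      (List.nodup_cons.1 (List.nodup_cons.1 hc.1).2).2 hch2.tail hne
    have hyq : H.Adj y q := by
      obtain ⟨q', r3, rfl⟩ := List.exists_cons_of_ne_nil hne
      have hq : q' = q := by simpa using hseg.2.2.1
      subst hq
      exact (List.isChain_cons_cons.1 hch2).1
    have hpx : H.Adj p x := by
      apply hc.2.2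
      · obtain ⟨q', r3, rfl⟩ := List.exists_cons_of_ne_nil hne
        rw [List.getLast?_cons_cons, List.getLast?_cons_cons]
        exact hseg.2.2.2
      · rfl
    have hpm : p ∈ r2 := List.mem_of_getLast? hseg.2.2.2
    have hqm : q ∈ r2 := mem_of_head hseg.2.2.1
    refine ⟨p, q, r2, ?_, ?_, hseg, ?_⟩
    · rcases hx p hpx.symm with h | h | h
      · exact absurd (h ▸ hpm) hyr2
      · exact Or.inl h
      · exact Or.inr h
    · rcases hy q hyq with h | h | h
      · exact absurd (h ▸ hqm) hxr2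
      · exact Or.inl h
      · exact Or.inr h
    · intro w
      constructor
      · intro hw
        refine ⟨?_, ?_, ?_⟩
        · rintro rfl
          exact hxr2 hw
        · rintro rfl
          exact hyr2 hw
        · exact (hm w).1 (List.mem_cons_of_mem _ (List.mem_cons_of_mem _ hw))
      · rintro ⟨h1, h2, h3⟩
        have := (hm w).2 h3
        rw [List.mem_cons, List.mem_cons] at this
        rcases this with h | h | h
        · exact absurd h h1
        · exact absurd h h2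
        · exact h
  by_cases h1 : r1 = []
  · subst h1
    exact Or.inl (key r2 hr hmem)
  by_cases h2 : r2 = []
  · subst h2
    left
    apply key r1.reverse
    · have h3 := hr.rev
      have h4 : Cyc H ((y :: r1.reverse) ++ [x]) := by simpa using h3
      simpa using h4.rot
    · intro w
      rw [← hmem w]
      simp only [List.mem_cons, List.mem_append, List.mem_reverse, List.not_mem_nil, or_false]
      tauto
  right
  have hnd := hr.1
  rw [List.nodup_cons, List.nodup_append, List.nodup_cons] at hnd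
  obtain ⟨hx0, hn1, ⟨hyr2, hn2⟩, hn3⟩ := hnd
  have hch := hr.2.1
  have hch1 : (r1 ++ y :: r2).IsChain H.Adj := hch.tail
  rw [List.isChain_append] at hch1
  obtain ⟨s1, t1, hs1⟩ := seg_of_ne_nil hn1 hch1.1 h1
  obtain ⟨s2, t2, hs2⟩ := seg_of_ne_nil hn2 hch1.2.1.tail h2
  have hs1m : s1 ∈ r1 := mem_of_head hs1.2.2.1
  have ht1m : t1 ∈ r1 := List.mem_of_getLast? hs1.2.2.2
  have hs2m : s2 ∈ r2 := mem_of_head hs2.2.2.1
  have ht2m : t2 ∈ r2 := List.mem_of_getLast? hs2.2.2.2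
  have e1 : H.Adj x s1 := by
    obtain ⟨q', r3, rfl⟩ := List.exists_cons_of_ne_nil h1
    have hq : q' = s1 := by simpa using hs1.2.2.1
    subst hq
    exact (List.isChain_cons_cons.1 hch).1
  have e2 : H.Adj t1 y := hch1.2.2 t1 hs1.2.2.2 y rfl
  have e3 : H.Adj y s2 := by
    obtain ⟨q', r3, rfl⟩ := List.exists_cons_of_ne_nil h2
    have hq : q' = s2 := by simpa using hs2.2.2.1
    subst hq
    exact (List.isChain_cons_cons.1 hch1.2.1).1
  have e4 : H.Adj t2 x := by
    apply hr.2.2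
    · have : x :: (r1 ++ y :: r2) = (x :: (r1 ++ [y])) ++ r2 := by simp
      rw [this, List.getLast?_append, hs2.2.2.2]
      rfl
    · rfl
  have hxr1 : x ∉ r1 := fun h => hx0 (List.mem_append_left _ h)
  have hxr2 : x ∉ r2 := fun h => hx0 (List.mem_append_right _ (List.mem_cons_of_mem _ h))
  have hyr1 : y ∉ r1 := fun h => hn3 y h y (List.mem_cons_self ..) rfl
  have hdis : ∀ w ∈ r1, w ∉ r2 := fun w h1 h2 => hn3 w h1 w (List.mem_cons_of_mem _ h2) rfl
  have f1 : s1 = x1 ∨ s1 = x2 := by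
    rcases hx s1 e1 with h | h | h
    · exact absurd (h ▸ hs1m) hyr1
    · exact Or.inl h
    · exact Or.inr h
  have f2 : t1 = y1 ∨ t1 = y2 := by
    rcases hy t1 e2.symm with h | h | h
    · exact absurd (h ▸ ht1m) hxr1
    · exact Or.inl h
    · exact Or.inr h
  have f3 : s2 = y1 ∨ s2 = y2 := by
    rcases hy s2 e3 with h | h | h
    · exact absurd (h ▸ hs2m) hxr2
    · exact Or.inl h
    · exact Or.inr h
  have f4 : t2 = x1 ∨ t2 = x2 := by
    rcases hx t2 e4.symm with h | h | h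
    · exact absurd (h ▸ ht2m) hyr2
    · exact Or.inl h
    · exact Or.inr h
  have g1 : s1 ≠ t2 := fun h => hdis s1 hs1m (h ▸ ht2m)
  have g2 : t1 ≠ s2 := fun h => hdis t1 ht1m (h ▸ hs2m)
  refine ⟨t2, s1, t1, s2, r1, r2, ?_, ?_, hs1, hs2, hdis, ?_⟩
  · rcases f1 with h | h <;> rcases f4 with h' | h'
    · exact absurd (h.trans h'.symm) g1
    · exact Or.inr ⟨h', h⟩
    · exact Or.inl ⟨h', h⟩
    · exact absurd (h.trans h'.symm) g1
  · rcases f2 with h | h <;> rcases f3 with h' | h'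
    · exact absurd (h.trans h'.symm) g2
    · exact Or.inl ⟨h, h'⟩
    · exact Or.inr ⟨h, h'⟩
    · exact absurd (h.trans h'.symm) g2
  · intro w
    constructor
    · intro hw
      refine ⟨?_, ?_, ?_⟩
      · rintro rfl
        rcases hw with hw | hw
        · exact hxr1 hw
        · exact hxr2 hw
      · rintro rfl
        rcases hw with hw | hw
        · exact hyr1 hw
        · exact hyr2 hw
      · apply (hmem w).1
        simp only [List.mem_cons, List.mem_append]
        tauto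
    · rintro ⟨h1, h2, h3⟩
      have := (hmem w).2 h3
      simp only [List.mem_cons, List.mem_append] at this
      tauto

/-- The dot product of a suitable graph with a hypohamiltonian graph: vertex deletions are
Hamiltonian. -/
theorem dot_hyp {A B : Type} (T' : SimpleGraph A) (a b c d : A) (H : SimpleGraph B)
    (x y x1 x2 y1 y2 : B)
    (hx : ∀ w, H.Adj x w → w = y ∨ w = x1 ∨ w = x2)
    (hy : ∀ w, H.Adj y w → w = x ∨ w = y1 ∨ w = y2) (hxy : x ≠ y)
    (h12 : x1 ≠ x2) (hx1 : x1 ≠ x) (hx2 : x2 ≠ x) (hx1y : x1 ≠ y) (hx2y : x2 ≠ y)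
    (h34 : y1 ≠ y2) (hy1 : y1 ≠ x) (hy2 : y2 ≠ x) (hy1y : y1 ≠ y) (hy2y : y2 ≠ y)
    (hdel : ∀ v, ∃ l, Cyc H l ∧ ∀ w, w ∈ l ↔ w ≠ v)
    (S1ac : ∃ P, Seg T' a c P ∧ ∀ w, w ∈ P) (S1ad : ∃ P, Seg T' a d P ∧ ∀ w, w ∈ P)
    (S1bc : ∃ P, Seg T' b c P ∧ ∀ w, w ∈ P) (S1bd : ∃ P, Seg T' b d P ∧ ∀ w, w ∈ P)
    (S2 : ∃ P Q, Seg T' a b P ∧ Seg T' c d Q ∧ (∀ w ∈ P, w ∉ Q) ∧ ∀ w, w ∈ P ∨ w ∈ Q)
    (S3 : ∀ v, (∃ P, Seg T' a b P ∧ ∀ w, w ∈ P ↔ w ≠ v) ∨
      (∃ P, Seg T' c d P ∧ ∀ w, w ∈ P ↔ w ≠ v)) :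
    ∀ v, ∃ l, Cyc (Dot T' a b c d H x y x1 x2 y1 y2) l ∧ ∀ w, w ∈ l ↔ w ≠ v := by
  rintro (s | u)
  · -- deleted vertex in the first part
    rcases S3 s with ⟨P, hP, hPm⟩ | ⟨P, hP, hPm⟩
    · obtain ⟨r, hr, hrm⟩ := pat_one H x y x1 x2 hx hxy h12 hx1 hx2 hx1y hx2y (hdel y)
      obtain ⟨hs, ht, R', hR', hR'm⟩ := segR T' a b c d H x y x1 x2 y1 y2 hr
        (fun w hw => (hrm w).1 hw)
      refine ⟨P.map Sum.inl ++ R'.reverse, Cyc.of_segs (segL T' a b c d H x y x1 x2 y1 y2 hP)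
        hR'.rev ?_ ?_ ?_, ?_⟩
      · intro w hw hw'
        rw [List.mem_reverse, hR'm] at hw'
        rw [List.mem_map] at hw
        obtain ⟨w1, -, rfl⟩ := hw
        obtain ⟨u, h, -⟩ := hw'
        cases h
      · exact Or.inr (Or.inl ⟨rfl, rfl⟩)
      · exact Or.inl ⟨rfl, rfl⟩
      · rintro (w | w)
        · rw [List.mem_append, List.mem_reverse, hR'm, List.mem_map]
          constructor
          · rintro (⟨w1, h1, h2⟩ | ⟨u, h, -⟩)
            · cases h2
              intro h3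
              cases h3
              exact (hPm _).1 h1 rfl
            · cases h
          · intro h
            exact Or.inl ⟨w, (hPm w).2 (fun h' => h (congrArg _ h')), rfl⟩
        · rw [List.mem_append, List.mem_reverse, hR'm]
          constructor
          · intro _ h
            cases h
          · intro _
            exact Or.inr ⟨w, rfl, (hrm _).2 w.2⟩
    · obtain ⟨r, hr, hrm⟩ := pat_one H y x y1 y2 hy hxy.symm h34 hy1y hy2y hy1 hy2 (hdel x)
      obtain ⟨hs, ht, R', hR', hR'm⟩ := segR T' a b c d H x y x1 x2 y1 y2 hr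
        (fun w hw => ((hrm w).1 hw).symm)
      refine ⟨P.map Sum.inl ++ R'.reverse, Cyc.of_segs (segL T' a b c d H x y x1 x2 y1 y2 hP)
        hR'.rev ?_ ?_ ?_, ?_⟩
      · intro w hw hw'
        rw [List.mem_reverse, hR'm] at hw'
        rw [List.mem_map] at hw
        obtain ⟨w1, -, rfl⟩ := hw
        obtain ⟨u, h, -⟩ := hw'
        cases h
      · exact Or.inr (Or.inr (Or.inr ⟨rfl, rfl⟩))
      · exact Or.inr (Or.inr (Or.inl ⟨rfl, rfl⟩))
      · rintro (w | w)
        · rw [List.mem_append, List.mem_reverse, hR'm, List.mem_map]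
          constructor
          · rintro (⟨w1, h1, h2⟩ | ⟨u, h, -⟩)
            · cases h2
              intro h3
              cases h3
              exact (hPm _).1 h1 rfl
            · cases h
          · intro h
            exact Or.inl ⟨w, (hPm w).2 (fun h' => h (congrArg _ h')), rfl⟩
        · rw [List.mem_append, List.mem_reverse, hR'm]
          constructor
          · intro _ h
            cases h
          · intro _
            exact Or.inr ⟨w, rfl, (hrm _).2 w.2.symm⟩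
  · -- deleted vertex in the second part
    have hbig : ∃ z, z ≠ x ∧ z ≠ y ∧ z ≠ u.1 := by
      by_cases h : x1 = u.1
      · exact ⟨x2, hx2, hx2y, fun h' => h12 (h.trans h'.symm)⟩
      · exact ⟨x1, hx1, hx1y, h⟩
    rcases pat_two H x y x1 x2 y1 y2 u.1 hx hy hxy u.2.1 u.2.2 hbig (hdel u.1) with
      ⟨p, q, r, hp, hq, hr, hrm⟩ | ⟨p, p', q, q', r1, r2, hp, hq, hr1, hr2, hdis, hrm⟩
    · -- one segment
      obtain ⟨s, s', P, hP, hPm, l1, l2⟩ : ∃ s s' P, Seg T' s s' P ∧ (∀ w, w ∈ P) ∧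
          link a b c d x1 x2 y1 y2 s p ∧ link a b c d x1 x2 y1 y2 s' q := by
        rcases hp with rfl | rfl <;> rcases hq with rfl | rfl
        · obtain ⟨P, h1, h2⟩ := S1ac
          exact ⟨a, c, P, h1, h2, Or.inl ⟨rfl, rfl⟩, Or.inr (Or.inr (Or.inl ⟨rfl, rfl⟩))⟩
        · obtain ⟨P, h1, h2⟩ := S1ad
          exact ⟨a, d, P, h1, h2, Or.inl ⟨rfl, rfl⟩, Or.inr (Or.inr (Or.inr ⟨rfl, rfl⟩))⟩
        · obtain ⟨P, h1, h2⟩ := S1bc
          exact ⟨b, c, P, h1, h2, Or.inr (Or.inl ⟨rfl, rfl⟩),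
            Or.inr (Or.inr (Or.inl ⟨rfl, rfl⟩))⟩
        · obtain ⟨P, h1, h2⟩ := S1bd
          exact ⟨b, d, P, h1, h2, Or.inr (Or.inl ⟨rfl, rfl⟩),
            Or.inr (Or.inr (Or.inr ⟨rfl, rfl⟩))⟩
      obtain ⟨hs, ht, R', hR', hR'm⟩ := segR T' a b c d H x y x1 x2 y1 y2 hr
        (fun w hw => ⟨((hrm w).1 hw).1, ((hrm w).1 hw).2.1⟩)
      refine ⟨P.map Sum.inl ++ R', Cyc.of_segs (segL T' a b c d H x y x1 x2 y1 y2 hP)
        hR' ?_ l2 l1, ?_⟩
      · intro w hw hw'
        rw [hR'm] at hw'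
        rw [List.mem_map] at hw
        obtain ⟨w1, -, rfl⟩ := hw
        obtain ⟨u, h, -⟩ := hw'
        cases h
      · rintro (w | w)
        · rw [List.mem_append, hR'm, List.mem_map]
          constructor
          · intro _ h
            cases h
          · intro _
            exact Or.inl ⟨w, hPm w, rfl⟩
        · rw [List.mem_append, hR'm, List.mem_map]
          constructor
          · rintro (⟨w1, h1, h2⟩ | ⟨u', h, h'⟩)
            · cases h2
            · cases h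
              intro h3
              cases h3
              exact ((hrm _).1 h').2.2 rfl
          · intro h
            refine Or.inr ⟨w, rfl, (hrm _).2 ⟨w.2.1, w.2.2, ?_⟩⟩
            intro h'
            exact h (congrArg _ (Subtype.ext h'))
    · -- two segments
      obtain ⟨P, Q, hP, hQ, hPQ, hcov⟩ := S2
      obtain ⟨s, s', P0, hP0, hP0m, l1, l2⟩ : ∃ s s' P0, Seg T' s s' P0 ∧ (∀ w, w ∈ P0 ↔ w ∈ P) ∧
          link a b c d x1 x2 y1 y2 s p ∧ link a b c d x1 x2 y1 y2 s' p' := by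
        rcases hp with ⟨rfl, rfl⟩ | ⟨rfl, rfl⟩
        · exact ⟨a, b, P, hP, fun w => Iff.rfl, Or.inl ⟨rfl, rfl⟩, Or.inr (Or.inl ⟨rfl, rfl⟩)⟩
        · exact ⟨b, a, P.reverse, hP.rev, fun w => List.mem_reverse,
            Or.inr (Or.inl ⟨rfl, rfl⟩), Or.inl ⟨rfl, rfl⟩⟩
      obtain ⟨t, t', Q0, hQ0, hQ0m, l3, l4⟩ : ∃ t t' Q0, Seg T' t t' Q0 ∧ (∀ w, w ∈ Q0 ↔ w ∈ Q) ∧
          link a b c d x1 x2 y1 y2 t q ∧ link a b c d x1 x2 y1 y2 t' q' := by
        rcases hq with ⟨rfl, rfl⟩ | ⟨rfl, rfl⟩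
        · exact ⟨c, d, Q, hQ, fun w => Iff.rfl, Or.inr (Or.inr (Or.inl ⟨rfl, rfl⟩)),
            Or.inr (Or.inr (Or.inr ⟨rfl, rfl⟩))⟩
        · exact ⟨d, c, Q.reverse, hQ.rev, fun w => List.mem_reverse,
            Or.inr (Or.inr (Or.inr ⟨rfl, rfl⟩)), Or.inr (Or.inr (Or.inl ⟨rfl, rfl⟩))⟩
      have hh1 : ∀ w ∈ r1, w ≠ x ∧ w ≠ y := fun w hw =>
        ⟨((hrm w).1 (Or.inl hw)).1, ((hrm w).1 (Or.inl hw)).2.1⟩
      have hh2 : ∀ w ∈ r2, w ≠ x ∧ w ≠ y := fun w hw =>
        ⟨((hrm w).1 (Or.inr hw)).1, ((hrm w).1 (Or.inr hw)).2.1⟩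
      obtain ⟨hs1, ht1, R1, hR1, hR1m⟩ := segR T' a b c d H x y x1 x2 y1 y2 hr1 hh1
      obtain ⟨hs2, ht2, R2, hR2, hR2m⟩ := segR T' a b c d H x y x1 x2 y1 y2 hr2 hh2
      have hsegA : Seg (Dot T' a b c d H x y x1 x2 y1 y2) (Sum.inl s) (Sum.inr ⟨q, ht1⟩)
          (P0.map Sum.inl ++ R1) := by
        refine (segL T' a b c d H x y x1 x2 y1 y2 hP0).append hR1 ?_ l2
        intro w hw hw'
        rw [hR1m] at hw'
        rw [List.mem_map] at hw
        obtain ⟨w1, -, rfl⟩ := hw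
        obtain ⟨u, h, -⟩ := hw'
        cases h
      have hsegB : Seg (Dot T' a b c d H x y x1 x2 y1 y2) (Sum.inl t) (Sum.inr ⟨p, ht2⟩)
          (Q0.map Sum.inl ++ R2) := by
        refine (segL T' a b c d H x y x1 x2 y1 y2 hQ0).append hR2 ?_ l4
        intro w hw hw'
        rw [hR2m] at hw'
        rw [List.mem_map] at hw
        obtain ⟨w1, -, rfl⟩ := hw
        obtain ⟨u, h, -⟩ := hw'
        cases h
      refine ⟨(P0.map Sum.inl ++ R1) ++ (Q0.map Sum.inl ++ R2), Cyc.of_segs hsegA hsegB ?_ l3 l1,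
        ?_⟩
      · intro w hw hw'
        rw [List.mem_append, hR1m, List.mem_map] at hw
        rw [List.mem_append, hR2m, List.mem_map] at hw'
        rcases hw with ⟨w1, h1, rfl⟩ | ⟨u1, rfl, h1⟩ <;>
          rcases hw' with ⟨w2, h2, h3⟩ | ⟨u2, h3, h2⟩
        · cases h3
          exact hPQ _ ((hP0m _).1 h1) ((hQ0m _).1 h2)
        · cases h3
        · cases h3
        · cases h3
          exact hdis _ h1 h2
      · rintro (w | w)
        · rw [List.mem_append, List.mem_append, List.mem_append, hR1m, hR2m, List.mem_map,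
            List.mem_map]
          constructor
          · intro _ h
            cases h
          · intro _
            rcases hcov w with h | h
            · exact Or.inl (Or.inl ⟨w, (hP0m w).2 h, rfl⟩)
            · exact Or.inr (Or.inl ⟨w, (hQ0m w).2 h, rfl⟩)
        · rw [List.mem_append, List.mem_append, List.mem_append, hR1m, hR2m, List.mem_map,
            List.mem_map]
          constructor
          · rintro ((⟨w1, h1, h2⟩ | ⟨u', h, h'⟩) | (⟨w1, h1, h2⟩ | ⟨u', h, h'⟩))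
            · cases h2
            · cases h
              intro h3
              cases h3
              exact ((hrm _).1 (Or.inl h')).2.2 rfl
            · cases h2
            · cases h
              intro h3
              cases h3
              exact ((hrm _).1 (Or.inr h')).2.2 rfl
          · intro h
            have h5 : (w.1 ∈ r1 ∨ w.1 ∈ r2) := by
              rw [hrm]
              refine ⟨w.2.1, w.2.2, ?_⟩
              intro h'
              exact h (congrArg _ (Subtype.ext h'))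
            rcases h5 with h5 | h5
            · exact Or.inl (Or.inr ⟨w, rfl, h5⟩)
            · exact Or.inr (Or.inr ⟨w, rfl, h5⟩)

end Pool.Agent.W148.Hypo
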