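import Mathlib
import Pool.Agent.W148.HypoDot

set_option autoImplicit false

namespace Pool.Agent.W148.Hypo

open SimpleGraph

/-- `n` enumerates the three neighbours of every vertex -/
def NbF {V : Type} (G : SimpleGraph V) (n : V → Fin 3 → V) : Prop :=
  (∀ v w, G.Adj v w ↔ ∃ i, w = n v i) ∧ ∀ v, Function.Injective (n v)

/-- no closed walk of length `k` without turning back -/
def CW (k : ℕ) [NeZero k] {V : Type} (G : SimpleGraph V) : Prop :=
  ∀ w : Fin k → V, (∀ i, G.Adj (w i) (w (i + 1))) → (∀ i, w i ≠ w (i + 2)) → False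

/-- no proper edge colouring with three colours -/
def NoCol {V : Type} (G : SimpleGraph V) : Prop :=
  ∀ f : V → V → Fin 3, (∀ v w, G.Adj v w → f v w = f w v) →
    (∀ v w x, G.Adj v w → G.Adj v x → w ≠ x → f v w ≠ f v x) → False

/-- `T` minus the edges `ab` and `cd` -/
def cutE {A : Type} (T : SimpleGraph A) (a b c d : A) : SimpleGraph A where
  Adj s t := T.Adj s t ∧ ¬ (s = a ∧ t = b) ∧ ¬ (s = b ∧ t = a) ∧ ¬ (s = c ∧ t = d) ∧
    ¬ (s = d ∧ t = c)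
  symm := ⟨by
    rintro s t ⟨h1, h2, h3, h4, h5⟩
    exact ⟨h1.symm, fun h => h3 h.symm, fun h => h2 h.symm, fun h => h5 h.symm,
      fun h => h4 h.symm⟩⟩
  loopless := ⟨fun s h => T.loopless.irrefl s h.1⟩

open Classical in
/-- image of the edge `s t` of `T` at `s` in the dot product -/
noncomputable def qT {A B : Type} (a b c d : A) {x y : B} (x1 x2 y1 y2 : Rest x y) (s t : A) :
    A ⊕ Rest x y :=
  if s = a ∧ t = b then Sum.inr x1 else if s = b ∧ t = a then Sum.inr x2 else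
  if s = c ∧ t = d then Sum.inr y1 else if s = d ∧ t = c then Sum.inr y2 else Sum.inl t

open Classical in
/-- image of the edge `u w` of `H` at `u` in the dot product -/
noncomputable def qH {A B : Type} (a b c d : A) {x y : B} (x1 y1 : B) (u w : B) :
    A ⊕ Rest x y :=
  if h1 : w = x then (if u = x1 then Sum.inl a else Sum.inl b) else
  if h2 : w = y then (if u = y1 then Sum.inl c else Sum.inl d) else Sum.inr ⟨w, h1, h2⟩

section

variable {A B : Type} (T : SimpleGraph A) (a b c d : A) (H : SimpleGraph B)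
    (x y x1 x2 y1 y2 : B)
    (hTab : T.Adj a b) (hTcd : T.Adj c d)
    (hac : a ≠ c) (had : a ≠ d) (hbc : b ≠ c) (hbd : b ≠ d)
    (hHx : ∀ w, H.Adj x w ↔ (w = y ∨ w = x1 ∨ w = x2))
    (hHy : ∀ w, H.Adj y w ↔ (w = x ∨ w = y1 ∨ w = y2))
    (h12 : x1 ≠ x2) (h34 : y1 ≠ y2) (h13 : x1 ≠ y1) (h14 : x1 ≠ y2) (h23 : x2 ≠ y1)
    (h24 : x2 ≠ y2)
    (hx1 : x1 ≠ x ∧ x1 ≠ y) (hx2 : x2 ≠ x ∧ x2 ≠ y) (hy1 : y1 ≠ x ∧ y1 ≠ y)
    (hy2 : y2 ≠ x ∧ y2 ≠ y)

include hTab hTcd hac had hbc hbd in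
theorem qT_inj {s t t' : A} (h : qT (B := B) a b c d (x := x) (y := y) ⟨x1, hx1⟩ ⟨x2, hx2⟩
    ⟨y1, hy1⟩ ⟨y2, hy2⟩ s t = qT a b c d ⟨x1, hx1⟩ ⟨x2, hx2⟩
    ⟨y1, hy1⟩ ⟨y2, hy2⟩ s t') : t = t' := by
  have hab := hTab.ne
  have hcd := hTcd.ne
  unfold qT at h
  split_ifs at h with g1 g2 g3 g4 g5 g6 g7 g8 g9 g10 g11 g12 g13 g14 g15 g16 g17 g18 g19 g20
  all_goals first
    | (cases h; done)
    | (injection h)
    | (exact (g1.2.trans g2.2.symm))
    | skip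
  all_goals first
    | (simp_all; done)
    | skip
  all_goals grind

include hTab hTcd hac had hbc hbd in
theorem qT_adj {s t : A} (h : T.Adj s t) : (Dot (cutE T a b c d) a b c d H x y x1 x2 y1 y2).Adj
    (Sum.inl s) (qT a b c d ⟨x1, hx1⟩ ⟨x2, hx2⟩ ⟨y1, hy1⟩ ⟨y2, hy2⟩ s t) := by
  unfold qT
  split_ifs with g1 g2 g3 g4
  · exact Or.inl ⟨g1.1, rfl⟩
  · exact Or.inr (Or.inl ⟨g2.1, rfl⟩)
  · exact Or.inr (Or.inr (Or.inl ⟨g3.1, rfl⟩))
  · exact Or.inr (Or.inr (Or.inr ⟨g4.1, rfl⟩))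
  · exact ⟨h, g1, g2, g3, g4⟩

include hTab hTcd hac had hbc hbd in
theorem qT_surj {s : A} {p : A ⊕ Rest x y}
    (h : (Dot (cutE T a b c d) a b c d H x y x1 x2 y1 y2).Adj (Sum.inl s) p) :
    ∃ t, T.Adj s t ∧ p = qT a b c d ⟨x1, hx1⟩ ⟨x2, hx2⟩ ⟨y1, hy1⟩ ⟨y2, hy2⟩ s t := by
  have hab := hTab.ne
  have hcd := hTcd.ne
  rcases p with t | u
  · obtain ⟨h1, h2, h3, h4, h5⟩ := h
    refine ⟨t, h1, ?_⟩
    unfold qT
    rw [if_neg h2, if_neg h3, if_neg h4, if_neg h5]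
  · rcases h with ⟨rfl, h⟩ | ⟨rfl, h⟩ | ⟨rfl, h⟩ | ⟨rfl, h⟩
    · refine ⟨b, hTab, ?_⟩
      unfold qT
      rw [if_pos ⟨rfl, rfl⟩]
      exact congrArg _ (Subtype.ext h)
    · refine ⟨a, hTab.symm, ?_⟩
      unfold qT
      rw [if_neg (fun h => hab h.1.symm), if_pos ⟨rfl, rfl⟩]
      exact congrArg _ (Subtype.ext h)
    · refine ⟨d, hTcd, ?_⟩
      unfold qT
      rw [if_neg (fun h => hac h.1.symm), if_neg (fun h => hbc h.1.symm), if_pos ⟨rfl, rfl⟩]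
      exact congrArg _ (Subtype.ext h)
    · refine ⟨c, hTcd.symm, ?_⟩
      unfold qT
      rw [if_neg (fun h => had h.1.symm), if_neg (fun h => hbd h.1.symm),
        if_neg (fun h => hcd h.1.symm), if_pos ⟨rfl, rfl⟩]
      exact congrArg _ (Subtype.ext h)

include hac had hbc hbd hHx hHy in
theorem qH_inj {u w w' : B} (hu : u ≠ x ∧ u ≠ y)
    (h : qH (x := x) (y := y) a b c d x1 y1 u w = qH a b c d x1 y1 u w') : w = w' := by
  unfold qH at h
  split_ifs at h <;> first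
    | (cases h; done)
    | (injection h; done)
    | skip
  all_goals first
    | (simp_all; done)
    | skip
  all_goals grind

include hHx hHy in
theorem qH_adj {u w : B} (hu : u ≠ x ∧ u ≠ y) (h : H.Adj u w) :
    (Dot (cutE T a b c d) a b c d H x y x1 x2 y1 y2).Adj
    (Sum.inr ⟨u, hu⟩) (qH a b c d x1 y1 u w) := by
  unfold qH
  split_ifs with g1 g2 g3 g4
  · exact Or.inl ⟨rfl, g2⟩
  · subst g1
    rcases (hHx u).1 h.symm with h1 | h1 | h1
    · exact absurd h1 hu.2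
    · exact absurd h1 g2
    · exact Or.inr (Or.inl ⟨rfl, h1⟩)
  · exact Or.inr (Or.inr (Or.inl ⟨rfl, g4⟩))
  · subst g3
    rcases (hHy u).1 h.symm with h1 | h1 | h1
    · exact absurd h1 hu.1
    · exact absurd h1 g4
    · exact Or.inr (Or.inr (Or.inr ⟨rfl, h1⟩))
  · exact h

include hHx hHy h12 h34 in
theorem qH_surj (hxy : x ≠ y) {u : B} (hu : u ≠ x ∧ u ≠ y) {p : A ⊕ Rest x y}
    (h : (Dot (cutE T a b c d) a b c d H x y x1 x2 y1 y2).Adj (Sum.inr ⟨u, hu⟩) p) :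
    ∃ w, H.Adj u w ∧ p = qH a b c d x1 y1 u w := by
  rcases p with s | v
  · rcases h with ⟨rfl, h⟩ | ⟨rfl, h⟩ | ⟨rfl, h⟩ | ⟨rfl, h⟩
    · refine ⟨x, ((hHx u).2 (Or.inr (Or.inl h))).symm, ?_⟩
      unfold qH
      rw [dif_pos rfl, if_pos h]
    · refine ⟨x, ((hHx u).2 (Or.inr (Or.inr h))).symm, ?_⟩
      unfold qH
      rw [dif_pos rfl, if_neg]
      intro h'
      exact h12 (h'.symm.trans h)
    · refine ⟨y, ((hHy u).2 (Or.inr (Or.inl h))).symm, ?_⟩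
      unfold qH
      rw [dif_neg hxy.symm, dif_pos rfl, if_pos h]
    · refine ⟨y, ((hHy u).2 (Or.inr (Or.inr h))).symm, ?_⟩
      unfold qH
      rw [dif_neg hxy.symm, dif_pos rfl, if_neg]
      intro h'
      exact h34 (h'.symm.trans h)
  · refine ⟨v.1, h, ?_⟩
    unfold qH
    rw [dif_neg v.2.1, dif_neg v.2.2]

end

end Pool.Agent.W148.Hypo
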