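import Mathlib
import Pool.Agent.W148.HypoInv

set_option autoImplicit false
set_option linter.unusedSectionVars false
set_option linter.unusedVariables false

namespace Pool.Agent.W148.Hypo

open SimpleGraph

section

variable {A B : Type} (T : SimpleGraph A) (a b c d : A) (H : SimpleGraph B)
    (x y x1 x2 y1 y2 : B)
    (hTab : T.Adj a b) (hTcd : T.Adj c d)
    (hac : a ≠ c) (had : a ≠ d) (hbc : b ≠ c) (hbd : b ≠ d)
    (hHx : ∀ w, H.Adj x w ↔ (w = y ∨ w = x1 ∨ w = x2))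
    (hHy : ∀ w, H.Adj y w ↔ (w = x ∨ w = y1 ∨ w = y2))
    (h12 : x1 ≠ x2) (h34 : y1 ≠ y2) (h13 : x1 ≠ y1) (h14 : x1 ≠ y2) (h23 : x2 ≠ y1)
    (h24 : x2 ≠ y2)
    (hx1 : x1 ≠ x ∧ x1 ≠ y) (hx2 : x2 ≠ x ∧ x2 ≠ y) (hy1 : y1 ≠ x ∧ y1 ≠ y)
    (hy2 : y2 ≠ x ∧ y2 ≠ y)

/-- neighbour function of the dot product -/
noncomputable def nD (nT : A → Fin 3 → A) (nH : B → Fin 3 → B) :
    A ⊕ Rest x y → Fin 3 → A ⊕ Rest x y
  | Sum.inl s, i => qT a b c d ⟨x1, hx1⟩ ⟨x2, hx2⟩ ⟨y1, hy1⟩ ⟨y2, hy2⟩ s (nT s i)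
  | Sum.inr u, i => qH a b c d x1 y1 u.1 (nH u.1 i)

include hTab hTcd hac had hbc hbd hHx hHy h12 h34 in
theorem dot_nbf (hxy : x ≠ y) {nT : A → Fin 3 → A} {nH : B → Fin 3 → B} (hT : NbF T nT)
    (hH : NbF H nH) :
    NbF (Dot (cutE T a b c d) a b c d H x y x1 x2 y1 y2)
      (nD a b c d x y x1 x2 y1 y2 hx1 hx2 hy1 hy2 nT nH) := by
  constructor
  · rintro (s | ⟨u, hu⟩) p
    · constructor
      · intro h
        obtain ⟨t, ht, rfl⟩ := qT_surj T a b c d H x y x1 x2 y1 y2 hTab hTcd hac had hbc hbd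
          hx1 hx2 hy1 hy2 h
        obtain ⟨i, rfl⟩ := (hT.1 s t).1 ht
        exact ⟨i, rfl⟩
      · rintro ⟨i, rfl⟩
        exact qT_adj T a b c d H x y x1 x2 y1 y2 hTab hTcd hac had hbc hbd
          hx1 hx2 hy1 hy2 ((hT.1 _ _).2 ⟨i, rfl⟩)
    · constructor
      · intro h
        obtain ⟨w, hw, rfl⟩ := qH_surj T a b c d H x y x1 x2 y1 y2 hHx hHy h12 h34 hxy hu h
        obtain ⟨i, rfl⟩ := (hH.1 u w).1 hw
        exact ⟨i, rfl⟩
      · rintro ⟨i, rfl⟩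
        exact qH_adj T a b c d H x y x1 x2 y1 y2 hHx hHy hu ((hH.1 _ _).2 ⟨i, rfl⟩)
  · rintro (s | ⟨u, hu⟩) i j hij
    · exact hT.2 s (qT_inj T a b c d x y x1 x2 y1 y2 hTab hTcd hac had hbc hbd
        hx1 hx2 hy1 hy2 hij)
    · exact hH.2 u (qH_inj a b c d H x y x1 x2 y1 y2 hac had hbc hbd hHx hHy hu hij)

/-! closed walks -/

theorem link_left (hab : a ≠ b) (hcd : c ≠ d) (hac : a ≠ c) (had : a ≠ d) (hbc : b ≠ c)
    (hbd : b ≠ d) {s : A} {u u' : B} (h : link a b c d x1 x2 y1 y2 s u)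
    (h' : link a b c d x1 x2 y1 y2 s u') : u = u' := by
  unfold link at h h'
  grind

theorem link_right (h12 : x1 ≠ x2) (h34 : y1 ≠ y2) (h13 : x1 ≠ y1) (h14 : x1 ≠ y2)
    (h23 : x2 ≠ y1) (h24 : x2 ≠ y2) {s s' : A} {u : B}
    (h : link a b c d x1 x2 y1 y2 s u)
    (h' : link a b c d x1 x2 y1 y2 s' u) : s = s' := by
  unfold link at h h'
  grind

/-- shape of a cyclic 0-1 word -/
def Pat (k : ℕ) [NeZero k] (β : Fin k → Bool) : Prop :=
  (∀ i, β i = true) ∨ (∀ i, β i = false) ∨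
  (∃ i, β i = false ∧ β (i + 1) = true ∧ β (i + 2) = false) ∨
  (∃ i, β i = true ∧ β (i + 1) = false ∧ β (i + 2) = true) ∨
  (∃ i, β i = false ∧ β (i + 1) = true ∧ β (i + 2) = true ∧ β (i + 3) = false) ∨
  (∃ i, β i = true ∧ β (i + 1) = false ∧ β (i + 2) = false ∧ β (i + 3) = true) ∨
  (∃ i, β i = false ∧ β (i + 1) = true ∧ β (i + 2) = true ∧ β (i + 3) = true ∧
    β (i + 4) = false)

instance (k : ℕ) [NeZero k] (β : Fin k → Bool) : Decidable (Pat k β) := by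
  unfold Pat
  infer_instance

theorem pat3 : ∀ β : Fin 3 → Bool, Pat 3 β := by decide +kernel

theorem pat4 : ∀ β : Fin 4 → Bool, Pat 4 β := by decide +kernel

theorem pat6 : ∀ β : Fin 6 → Bool, Pat 6 β := by decide +kernel

theorem isL {X Y : Type} {p : X ⊕ Y} (h : p.isLeft = true) : ∃ s, p = Sum.inl s := by
  rcases p with s | s
  · exact ⟨s, rfl⟩
  · cases h

theorem isR {X Y : Type} {p : X ⊕ Y} (h : p.isLeft = false) : ∃ s, p = Sum.inr s := by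
  rcases p with s | s
  · cases h
  · exact ⟨s, rfl⟩

include hTab hTcd hac had hbc hbd h12 h34 h13 h14 h23 h24 in
theorem dot_cw (k : ℕ) [NeZero k] (hpat : ∀ β : Fin k → Bool, Pat k β)
    (he : ∀ i : Fin k, i + 1 + 1 = i + 2 ∧ i + 2 + 1 = i + 3 ∧ i + 3 + 1 = i + 4 ∧
      i + 1 + 2 = i + 3)
    (hT : CW k (cutE T a b c d))
    (hH : ∀ w : Fin k → B, (∀ i, H.Adj (w i) (w (i + 1))) → (∀ i, w i ≠ w (i + 2)) →
      (∀ i, w i ≠ x ∧ w i ≠ y) → False)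
    (F3 : ∀ s s', (s = a ∨ s = b ∨ s = c ∨ s = d) → (s' = a ∨ s' = b ∨ s' = c ∨ s' = d) →
      ¬ (cutE T a b c d).Adj s s')
    (F4 : ∀ u u', (u = x1 ∨ u = x2 ∨ u = y1 ∨ u = y2) → (u' = x1 ∨ u' = x2 ∨ u' = y1 ∨ u' = y2) →
      ¬ H.Adj u u')
    (F5 : ∀ s m s', (s = a ∨ s = b ∨ s = c ∨ s = d) → (s' = a ∨ s' = b ∨ s' = c ∨ s' = d) →
      (cutE T a b c d).Adj s m → (cutE T a b c d).Adj m s' → s = s') :
    CW k (Dot (cutE T a b c d) a b c d H x y x1 x2 y1 y2) := by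
  intro w hadj hne
  have hl : ∀ s u, link a b c d x1 x2 y1 y2 s u → (s = a ∨ s = b ∨ s = c ∨ s = d) := by
    intro s u h
    unfold link at h
    tauto
  have hr : ∀ s u, link a b c d x1 x2 y1 y2 s u → (u = x1 ∨ u = x2 ∨ u = y1 ∨ u = y2) := by
    intro s u h
    unfold link at h
    tauto
  have e2 : ∀ i : Fin k, i + 1 + 1 = i + 2 := fun i => (he i).1
  have e3 : ∀ i : Fin k, i + 2 + 1 = i + 3 := fun i => (he i).2.1
  have e4 : ∀ i : Fin k, i + 3 + 1 = i + 4 := fun i => (he i).2.2.1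
  have e5 : ∀ i : Fin k, i + 1 + 2 = i + 3 := fun i => (he i).2.2.2
  rcases hpat (fun i => (w i).isLeft) with h | h | ⟨i, h1, h2, h3⟩ | ⟨i, h1, h2, h3⟩ |
    ⟨i, h1, h2, h3, h4⟩ | ⟨i, h1, h2, h3, h4⟩ | ⟨i, h1, h2, h3, h4, h5⟩
  · choose s hs using fun i => isL (h i)
    apply hT s
    · intro i
      have := hadj i
      rw [hs i, hs (i + 1)] at this
      exact this
    · intro i h'
      apply hne i
      rw [hs i, hs (i + 2), h']
  · choose s hs using fun i => isR (h i)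
    apply hH (fun i => (s i).1)
    · intro i
      have := hadj i
      rw [hs i, hs (i + 1)] at this
      exact this
    · intro i h'
      apply hne i
      rw [hs i, hs (i + 2)]
      exact congrArg _ (Subtype.ext h')
    · intro i
      exact (s i).2
  · obtain ⟨u, hu⟩ := isR h1
    obtain ⟨s, hs⟩ := isL h2
    obtain ⟨v, hv⟩ := isR h3
    have a1 := hadj i
    have a2 := hadj (i + 1)
    rw [e2] at a2
    rw [hu, hs] at a1
    rw [hs, hv] at a2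
    apply hne i
    rw [hu, hv]
    exact congrArg _ (Subtype.ext (link_left a b c d x1 x2 y1 y2 hTab.ne hTcd.ne hac had hbc hbd
      a1 a2))
  · obtain ⟨s, hs⟩ := isL h1
    obtain ⟨u, hu⟩ := isR h2
    obtain ⟨t, ht⟩ := isL h3
    have a1 := hadj i
    have a2 := hadj (i + 1)
    rw [e2] at a2
    rw [hs, hu] at a1
    rw [hu, ht] at a2
    apply hne i
    rw [hs, ht]
    exact congrArg _ (link_right a b c d x1 x2 y1 y2 h12 h34 h13 h14 h23 h24 a1 a2)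
  · obtain ⟨u, hu⟩ := isR h1
    obtain ⟨s, hs⟩ := isL h2
    obtain ⟨t, ht⟩ := isL h3
    obtain ⟨v, hv⟩ := isR h4
    have a1 := hadj i
    have a2 := hadj (i + 1)
    have a3 := hadj (i + 2)
    rw [e2] at a2
    rw [e3] at a3
    rw [hu, hs] at a1
    rw [hs, ht] at a2
    rw [ht, hv] at a3
    exact F3 s t (hl _ _ a1) (hl _ _ a3) a2
  · obtain ⟨s, hs⟩ := isL h1
    obtain ⟨u, hu⟩ := isR h2
    obtain ⟨v, hv⟩ := isR h3
    obtain ⟨t, ht⟩ := isL h4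
    have a1 := hadj i
    have a2 := hadj (i + 1)
    have a3 := hadj (i + 2)
    rw [e2] at a2
    rw [e3] at a3
    rw [hs, hu] at a1
    rw [hu, hv] at a2
    rw [hv, ht] at a3
    exact F4 u v (hr _ _ a1) (hr _ _ a3) a2
  · obtain ⟨u, hu⟩ := isR h1
    obtain ⟨s, hs⟩ := isL h2
    obtain ⟨m, hm⟩ := isL h3
    obtain ⟨t, ht⟩ := isL h4
    obtain ⟨v, hv⟩ := isR h5
    have a1 := hadj i
    have a2 := hadj (i + 1)
    have a3 := hadj (i + 2)
    have a4 := hadj (i + 3)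
    rw [e2] at a2
    rw [e3] at a3
    rw [e4] at a4
    rw [hu, hs] at a1
    rw [hs, hm] at a2
    rw [hm, ht] at a3
    rw [ht, hv] at a4
    have h6 := F5 s m t (hl _ _ a1) (hl _ _ a4) a2 a3
    apply hne (i + 1)
    rw [e5, hs, ht, h6]

end

end Pool.Agent.W148.Hypo
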