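import Mathlib
import Pool.Agent.W148.HypoInv2

set_option autoImplicit false
set_option linter.unusedSectionVars false
set_option linter.unusedVariables false

namespace Pool.Agent.W148.Hypo

open SimpleGraph

/-- colours as non-zero elements of the Klein four-group -/
def kap (i : Fin 3) : ZMod 2 × ZMod 2 := if i = 0 then (1, 0) else if i = 1 then (0, 1) else (1, 1)

theorem kap_sum : ∀ i j k : Fin 3, i ≠ j → i ≠ k → j ≠ k → kap i + kap j + kap k = 0 := by
  decide

theorem kap_four : ∀ p q r s : Fin 3, kap p + kap q + kap r + kap s = 0 →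
    (p = q ∧ r = s) ∨ (p ≠ q ∧ r ≠ s ∧ ∃ t, t ≠ p ∧ t ≠ q ∧ t ≠ r ∧ t ≠ s) := by
  decide

theorem add_self2 (u : ZMod 2 × ZMod 2) : u + u = 0 := by
  revert u
  decide

/-- a symmetric sum vanishes in characteristic two -/
theorem sum_symm {A : Type} [Fintype A] (g : A → A → ZMod 2 × ZMod 2)
    (hs : ∀ s t, g s t = g t s) (h0 : ∀ s, g s s = 0) : ∑ s, ∑ t, g s t = 0 := by
  classical
  rw [← Finset.sum_product']
  apply Finset.sum_involution (fun p _ => (p.2, p.1))
  · intro p _
    show g p.1 p.2 + g p.2 p.1 = 0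
    rw [hs p.2 p.1]
    exact add_self2 _
  · intro p _ hp h
    apply hp
    have : p.2 = p.1 := congrArg Prod.fst h
    show g p.1 p.2 = 0
    rw [this]
    exact h0 _
  · intro p _
    simp
  · intro p _
    rfl

section

variable {A B : Type} (T : SimpleGraph A) (a b c d : A) (H : SimpleGraph B)
    (x y x1 x2 y1 y2 : B)
    (hTab : T.Adj a b) (hTcd : T.Adj c d)
    (hac : a ≠ c) (had : a ≠ d) (hbc : b ≠ c) (hbd : b ≠ d)
    (hHx : ∀ w, H.Adj x w ↔ (w = y ∨ w = x1 ∨ w = x2))
    (hHy : ∀ w, H.Adj y w ↔ (w = x ∨ w = y1 ∨ w = y2))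
    (h12 : x1 ≠ x2) (h34 : y1 ≠ y2) (h13 : x1 ≠ y1) (h14 : x1 ≠ y2) (h23 : x2 ≠ y1)
    (h24 : x2 ≠ y2)
    (hx1 : x1 ≠ x ∧ x1 ≠ y) (hx2 : x2 ≠ x ∧ x2 ≠ y) (hy1 : y1 ≠ x ∧ y1 ≠ y)
    (hy2 : y2 ≠ x ∧ y2 ≠ y)

/-- The parity lemma for the four connecting edges. -/
theorem parity [Fintype A] [Fintype B] (hab : a ≠ b) (hcd : c ≠ d) (hac : a ≠ c) (had : a ≠ d)
    (hbc : b ≠ c) (hbd : b ≠ d) (T' : SimpleGraph A)
    (n : A ⊕ Rest x y → Fin 3 → A ⊕ Rest x y)
    (hn : NbF (Dot T' a b c d H x y x1 x2 y1 y2) n)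
    (f : A ⊕ Rest x y → A ⊕ Rest x y → Fin 3)
    (hf1 : ∀ v w, (Dot T' a b c d H x y x1 x2 y1 y2).Adj v w → f v w = f w v)
    (hf2 : ∀ v w z, (Dot T' a b c d H x y x1 x2 y1 y2).Adj v w →
      (Dot T' a b c d H x y x1 x2 y1 y2).Adj v z → w ≠ z → f v w ≠ f v z) :
    kap (f (Sum.inl a) (Sum.inr ⟨x1, hx1⟩)) + kap (f (Sum.inl b) (Sum.inr ⟨x2, hx2⟩)) +
      kap (f (Sum.inl c) (Sum.inr ⟨y1, hy1⟩)) + kap (f (Sum.inl d) (Sum.inr ⟨y2, hy2⟩)) = 0 := by
  classical
  set G := Dot T' a b c d H x y x1 x2 y1 y2 with hG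
  -- sum over the neighbours of one vertex
  have h1 : ∀ v, ∑ q, (if G.Adj v q then kap (f v q) else 0) = 0 := by
    intro v
    rw [← Finset.sum_filter]
    have himg : (Finset.univ.filter fun q => G.Adj v q) = Finset.univ.image (n v) := by
      ext q
      rw [Finset.mem_filter, Finset.mem_image, hn.1]
      constructor
      · rintro ⟨_, i, hi⟩
        exact ⟨i, Finset.mem_univ _, hi.symm⟩
      · rintro ⟨i, _, hi⟩
        exact ⟨Finset.mem_univ _, i, hi.symm⟩
    rw [himg, Finset.sum_image (fun i _ j _ h => hn.2 v h), Fin.sum_univ_three]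
    have hadj : ∀ i, G.Adj v (n v i) := fun i => (hn.1 _ _).2 ⟨i, rfl⟩
    apply kap_sum
    · exact hf2 v _ _ (hadj 0) (hadj 1) (fun h => absurd (hn.2 v h) (by decide))
    · exact hf2 v _ _ (hadj 0) (hadj 2) (fun h => absurd (hn.2 v h) (by decide))
    · exact hf2 v _ _ (hadj 1) (hadj 2) (fun h => absurd (hn.2 v h) (by decide))
  have h2 : ∑ s : A, ∑ q, (if G.Adj (Sum.inl s) q then kap (f (Sum.inl s) q) else 0) = 0 :=
    Finset.sum_eq_zero fun s _ => h1 _
  have h3 : ∀ s : A, ∑ q, (if G.Adj (Sum.inl s) q then kap (f (Sum.inl s) q) else 0) =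
      (∑ t : A, (if T'.Adj s t then kap (f (Sum.inl s) (Sum.inl t)) else 0)) +
      ∑ u : Rest x y, (if link a b c d x1 x2 y1 y2 s u.1 then
        kap (f (Sum.inl s) (Sum.inr u)) else 0) := by
    intro s
    rw [Fintype.sum_sum_type]
    rfl
  simp only [h3] at h2
  rw [Finset.sum_add_distrib] at h2
  rw [sum_symm (fun s t => if T'.Adj s t then kap (f (Sum.inl s) (Sum.inl t)) else 0)] at h2
  · rw [zero_add] at h2
    have h4 : ∀ (s : A) (u : Rest x y), (if link a b c d x1 x2 y1 y2 s u.1 then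
        kap (f (Sum.inl s) (Sum.inr u)) else 0) =
        (if s = a then (if u = ⟨x1, hx1⟩ then kap (f (Sum.inl s) (Sum.inr u)) else 0) else 0) +
        (if s = b then (if u = ⟨x2, hx2⟩ then kap (f (Sum.inl s) (Sum.inr u)) else 0) else 0) +
        (if s = c then (if u = ⟨y1, hy1⟩ then kap (f (Sum.inl s) (Sum.inr u)) else 0) else 0) +
        (if s = d then (if u = ⟨y2, hy2⟩ then kap (f (Sum.inl s) (Sum.inr u)) else 0) else 0) := by
      intro s u
      have e : ∀ (z : B) (hz : z ≠ x ∧ z ≠ y), u = ⟨z, hz⟩ ↔ u.1 = z := fun z hz =>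
        ⟨fun h => by rw [h], fun h => Subtype.ext h⟩
      simp only [e]
      unfold link
      by_cases ha : s = a
      · subst ha
        simp [hab, hac, had]
      · by_cases hb : s = b
        · subst hb
          simp [hab.symm, hbc, hbd]
        · by_cases hc : s = c
          · subst hc
            simp [hac.symm, hbc.symm, hcd]
          · by_cases hd : s = d
            · subst hd
              simp [had.symm, hbd.symm, hcd.symm]
            · simp [ha, hb, hc, hd]
    simp only [h4, Finset.sum_add_distrib] at h2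
    simpa using h2
  · intro s t
    by_cases h : T'.Adj s t
    · rw [if_pos h, if_pos h.symm, hf1 (Sum.inl s) (Sum.inl t) h]
    · rw [if_neg h, if_neg (fun h' => h h'.symm)]
  · intro s
    rw [if_neg (fun h => T'.loopless.irrefl s h)]

include hTab hTcd hac had hbc hbd hHx hHy h12 h34 h13 h14 h23 h24 hx1 hx2 hy1 hy2 in
/-- The dot product of two class 2 graphs is class 2. -/
theorem dot_nocol [Fintype A] [Fintype B] (hxy : x ≠ y) {nT : A → Fin 3 → A}
    {nH : B → Fin 3 → B} (hT : NbF T nT) (hH : NbF H nH) (cT : NoCol T) (cH : NoCol H) :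
    NoCol (Dot (cutE T a b c d) a b c d H x y x1 x2 y1 y2) := by
  classical
  intro f hf1 hf2
  have hn := dot_nbf T a b c d H x y x1 x2 y1 y2 hTab hTcd hac had hbc hbd hHx hHy h12 h34
    hx1 hx2 hy1 hy2 hxy hT hH
  have hpar := parity a b c d H x y x1 x2 y1 y2 hx1 hx2 hy1 hy2 hTab.ne hTcd.ne hac had hbc hbd
    (cutE T a b c d) _ hn f hf1 hf2
  set G := Dot (cutE T a b c d) a b c d H x y x1 x2 y1 y2 with hG
  have la : G.Adj (Sum.inl a) (Sum.inr ⟨x1, hx1⟩) := Or.inl ⟨rfl, rfl⟩
  have lb : G.Adj (Sum.inl b) (Sum.inr ⟨x2, hx2⟩) := Or.inr (Or.inl ⟨rfl, rfl⟩)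
  have lc : G.Adj (Sum.inl c) (Sum.inr ⟨y1, hy1⟩) := Or.inr (Or.inr (Or.inl ⟨rfl, rfl⟩))
  have ld : G.Adj (Sum.inl d) (Sum.inr ⟨y2, hy2⟩) := Or.inr (Or.inr (Or.inr ⟨rfl, rfl⟩))
  rcases kap_four _ _ _ _ hpar with ⟨hpq, hrs⟩ | ⟨hpq, hrs, t, ht1, ht2, ht3, ht4⟩
  · -- colour `T`
    apply cT (fun s t => f (Sum.inl s)
      (qT a b c d ⟨x1, hx1⟩ ⟨x2, hx2⟩ ⟨y1, hy1⟩ ⟨y2, hy2⟩ s t))
    · intro s t hst
      have hab := hTab.ne
      have hcd := hTcd.ne
      unfold qT
      by_cases g1 : s = a ∧ t = b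
      · obtain ⟨rfl, rfl⟩ := g1
        rw [if_pos ⟨rfl, rfl⟩, if_neg (fun h => hab h.1.symm), if_pos ⟨rfl, rfl⟩]
        exact hpq
      · by_cases g2 : s = b ∧ t = a
        · obtain ⟨rfl, rfl⟩ := g2
          rw [if_neg (fun h => hab h.1.symm), if_pos ⟨rfl, rfl⟩, if_pos ⟨rfl, rfl⟩]
          exact hpq.symm
        · by_cases g3 : s = c ∧ t = d
          · obtain ⟨rfl, rfl⟩ := g3
            rw [if_neg g1, if_neg g2, if_pos ⟨rfl, rfl⟩, if_neg (fun h => had h.1.symm),
              if_neg (fun h => hbd h.1.symm), if_neg (fun h => hcd h.1.symm), if_pos ⟨rfl, rfl⟩]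
            exact hrs
          · by_cases g4 : s = d ∧ t = c
            · obtain ⟨rfl, rfl⟩ := g4
              rw [if_neg g1, if_neg g2, if_neg g3, if_pos ⟨rfl, rfl⟩,
                if_neg (fun h => hac h.1.symm), if_neg (fun h => hbc h.1.symm),
                if_pos ⟨rfl, rfl⟩]
              exact hrs.symm
            · rw [if_neg g1, if_neg g2, if_neg g3, if_neg g4, if_neg (fun h => g2 h.symm),
                if_neg (fun h => g1 h.symm), if_neg (fun h => g4 h.symm),
                if_neg (fun h => g3 h.symm)]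
              exact hf1 _ _ ⟨hst, g1, g2, g3, g4⟩
    · intro s t t' h1 h2 hne
      apply hf2
      · exact qT_adj T a b c d H x y x1 x2 y1 y2 hTab hTcd hac had hbc hbd hx1 hx2 hy1 hy2 h1
      · exact qT_adj T a b c d H x y x1 x2 y1 y2 hTab hTcd hac had hbc hbd hx1 hx2 hy1 hy2 h2
      · intro h
        exact hne (qT_inj T a b c d x y x1 x2 y1 y2 hTab hTcd hac had hbc hbd
          hx1 hx2 hy1 hy2 h)
  · -- colour `H`
    set p := f (Sum.inl a) (Sum.inr ⟨x1, hx1⟩) with hp
    set q := f (Sum.inl b) (Sum.inr ⟨x2, hx2⟩) with hq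
    set r := f (Sum.inl c) (Sum.inr ⟨y1, hy1⟩) with hr
    set s := f (Sum.inl d) (Sum.inr ⟨y2, hy2⟩) with hs
    let F : B → B → Fin 3 := fun u w =>
      if u = x then (if w = y then t else if w = x1 then p else q)
      else if u = y then (if w = x then t else if w = y1 then r else s)
      else if hu : u ≠ x ∧ u ≠ y then f (Sum.inr ⟨u, hu⟩) (qH a b c d x1 y1 u w) else 0
    have Fx : ∀ w, F x w = (if w = y then t else if w = x1 then p else q) := fun w => if_pos rfl
    have Fy : ∀ w, F y w = (if w = x then t else if w = y1 then r else s) := fun w => by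
      show (if y = x then _ else if y = y then _ else _) = _
      rw [if_neg hxy.symm, if_pos rfl]
    have Fu : ∀ u w (hu : u ≠ x ∧ u ≠ y), F u w =
        f (Sum.inr ⟨u, hu⟩) (qH a b c d x1 y1 u w) := fun u w hu => by
      show (if u = x then _ else if u = y then _ else _) = _
      rw [if_neg hu.1, if_neg hu.2, dif_pos hu]
    -- symmetry at `x`
    have Fxs : ∀ w, H.Adj x w → F x w = F w x := by
      intro w hw
      rcases (hHx w).1 hw with rfl | rfl | rfl
      · rw [Fx, Fy, if_pos rfl, if_pos rfl]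
      · rw [Fx, Fu _ _ hx1, if_neg hx1.2, if_pos rfl]
        unfold qH
        rw [dif_pos rfl, if_pos rfl]
        exact hf1 _ _ la
      · rw [Fx, Fu _ _ hx2, if_neg hx2.2, if_neg h12.symm]
        unfold qH
        rw [dif_pos rfl, if_neg h12.symm]
        exact hf1 _ _ lb
    have Fys : ∀ w, H.Adj y w → F y w = F w y := by
      intro w hw
      rcases (hHy w).1 hw with rfl | rfl | rfl
      · rw [Fy, Fx, if_pos rfl, if_pos rfl]
      · rw [Fy, Fu _ _ hy1, if_neg hy1.1, if_pos rfl]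
        unfold qH
        rw [dif_neg hxy.symm, dif_pos rfl, if_pos rfl]
        exact hf1 _ _ lc
      · rw [Fy, Fu _ _ hy2, if_neg hy2.1, if_neg h34.symm]
        unfold qH
        rw [dif_neg hxy.symm, dif_pos rfl, if_neg h34.symm]
        exact hf1 _ _ ld
    apply cH F
    · intro u w huw
      by_cases hux : u = x
      · subst hux
        exact Fxs w huw
      by_cases huy : u = y
      · subst huy
        exact Fys w huw
      by_cases hwx : w = x
      · subst hwx
        exact (Fxs u huw.symm).symm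
      by_cases hwy : w = y
      · subst hwy
        exact (Fys u huw.symm).symm
      rw [Fu u w ⟨hux, huy⟩, Fu w u ⟨hwx, hwy⟩]
      unfold qH
      rw [dif_neg hwx, dif_neg hwy, dif_neg hux, dif_neg huy]
      exact hf1 _ _ huw
    · intro u w z h1 h2 hne
      by_cases hux : u = x
      · subst hux
        rw [Fx, Fx]
        rcases (hHx w).1 h1 with rfl | rfl | rfl <;> rcases (hHx z).1 h2 with rfl | rfl | rfl
        · exact absurd rfl hne
        · rw [if_pos rfl, if_neg hx1.2, if_pos rfl]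
          exact ht1
        · rw [if_pos rfl, if_neg hx2.2, if_neg h12.symm]
          exact ht2
        · rw [if_pos rfl, if_neg hx1.2, if_pos rfl]
          exact ht1.symm
        · exact absurd rfl hne
        · rw [if_neg hx1.2, if_pos rfl, if_neg hx2.2, if_neg h12.symm]
          exact hpq
        · rw [if_pos rfl, if_neg hx2.2, if_neg h12.symm]
          exact ht2.symm
        · rw [if_neg hx1.2, if_pos rfl, if_neg hx2.2, if_neg h12.symm]
          exact hpq.symm
        · exact absurd rfl hne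
      by_cases huy : u = y
      · subst huy
        rw [Fy, Fy]
        rcases (hHy w).1 h1 with rfl | rfl | rfl <;> rcases (hHy z).1 h2 with rfl | rfl | rfl
        · exact absurd rfl hne
        · rw [if_pos rfl, if_neg hy1.1, if_pos rfl]
          exact ht3
        · rw [if_pos rfl, if_neg hy2.1, if_neg h34.symm]
          exact ht4
        · rw [if_pos rfl, if_neg hy1.1, if_pos rfl]
          exact ht3.symm
        · exact absurd rfl hne
        · rw [if_neg hy1.1, if_pos rfl, if_neg hy2.1, if_neg h34.symm]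
          exact hrs
        · rw [if_pos rfl, if_neg hy2.1, if_neg h34.symm]
          exact ht4.symm
        · rw [if_neg hy1.1, if_pos rfl, if_neg hy2.1, if_neg h34.symm]
          exact hrs.symm
        · exact absurd rfl hne
      rw [Fu u w ⟨hux, huy⟩, Fu u z ⟨hux, huy⟩]
      apply hf2
      · exact qH_adj T a b c d H x y x1 x2 y1 y2 hHx hHy ⟨hux, huy⟩ h1
      · exact qH_adj T a b c d H x y x1 x2 y1 y2 hHx hHy ⟨hux, huy⟩ h2
      · intro h
        exact hne (qH_inj a b c d H x y x1 x2 y1 y2 hac had hbc hbd hHx hHy ⟨hux, huy⟩ h)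

end

end Pool.Agent.W148.Hypo
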