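import Mathlib
import Pool.Agent.W148.HypoT34
import Pool.Agent.W148.HypoCol

set_option autoImplicit false

namespace Pool.Agent.W148.Hypo

open SimpleGraph

/-- search procedure; `true` means that no colouring exists -/
def srch (N : ℕ → ℕ) : ℕ → ℕ → ℕ → ℕ → ℕ → Bool
  | 0, _, _, _, _ => false
  | fuel + 1, A0, A1, A2, U =>
    if ((A0 ||| A1 ||| A2) &&& U) ≠ U then true
    else
      let all := A0 &&& A1 &&& A2
      let x := (A0 ^^^ A1) ^^^ A2
      let one := (x ^^^ (x &&& all)) &&& U
      let y := (A0 &&& A1) ||| (A0 &&& A2) ||| (A1 &&& A2)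
      let two := (y ^^^ (y &&& all)) &&& U
      let v := Nat.log2 (if one ≠ 0 then one else if two ≠ 0 then two else U)
      let m := N v
      let U' := U ^^^ (2 ^ v)
      U.testBit v &&
      (!(A0.testBit v) || srch N fuel (A0 ^^^ (A0 &&& m)) A1 A2 U') &&
      (!(A1.testBit v) || srch N fuel A0 (A1 ^^^ (A1 &&& m)) A2 U') &&
      (!(A2.testBit v) || srch N fuel A0 A1 (A2 ^^^ (A2 &&& m)) U')

theorem srch_sound (N : ℕ → ℕ) (f : ℕ → Fin 3) : ∀ (fuel A0 A1 A2 U : ℕ),
    (∀ v, U.testBit v = true → f v = 0 → A0.testBit v = true) →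
    (∀ v, U.testBit v = true → f v = 1 → A1.testBit v = true) →
    (∀ v, U.testBit v = true → f v = 2 → A2.testBit v = true) →
    (∀ v w, U.testBit v = true → U.testBit w = true → (N v).testBit w = true → f v ≠ f w) →
    srch N fuel A0 A1 A2 U = false := by
  intro fuel
  induction fuel with
  | zero => intros; rfl
  | succ k ih =>
    intro A0 A1 A2 U h0 h1 h2 hN
    rw [srch]
    have hU : ((A0 ||| A1 ||| A2) &&& U) = U := by
      apply Nat.eq_of_testBit_eq
      intro i
      rw [Nat.testBit_and, Nat.testBit_or, Nat.testBit_or]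
      rcases hb : U.testBit i with _ | _
      · simp
      · have : f i = 0 ∨ f i = 1 ∨ f i = 2 := by
          generalize f i = z
          revert z
          decide
        rcases this with h | h | h
        · simp [h0 i hb h]
        · simp [h1 i hb h]
        · simp [h2 i hb h]
    rw [if_neg (by simpa using hU)]
    dsimp only
    generalize Nat.log2 _ = v
    rcases hv : U.testBit v with _ | _
    · simp
    · have hm : ∀ w, (U ^^^ 2 ^ v).testBit w = true → U.testBit w = true ∧ w ≠ v := by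
        intro w hw
        rw [Nat.testBit_xor, Nat.testBit_two_pow] at hw
        by_cases h : v = w
        · subst h
          simp [hv] at hw
        · refine ⟨by simpa [h] using hw, fun h' => h h'.symm⟩
      have hA : ∀ (A : ℕ) (c : Fin 3), f v = c →
          (∀ w, U.testBit w = true → f w = c → A.testBit w = true) →
          ∀ w, (U ^^^ 2 ^ v).testBit w = true → f w = c →
            (A ^^^ (A &&& N v)).testBit w = true := by
        intro A c hc hA w hw hwc
        obtain ⟨hw1, hw2⟩ := hm w hw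
        have h3 := hA w hw1 hwc
        have h4 : (N v).testBit w = false := by
          by_contra hcon
          rw [Bool.not_eq_false] at hcon
          exact hN v w hv hw1 hcon (by rw [hc, hwc])
        rw [Nat.testBit_xor, Nat.testBit_and, h3, h4]
        rfl
      have : f v = 0 ∨ f v = 1 ∨ f v = 2 := by
        generalize f v = z
        revert z
        decide
      rcases this with h | h | h
      · have := ih (A0 ^^^ (A0 &&& N v)) A1 A2 (U ^^^ 2 ^ v) (hA A0 0 h h0)
          (fun w hw => h1 w (hm w hw).1) (fun w hw => h2 w (hm w hw).1)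
          (fun x y hx hy => hN x y (hm x hx).1 (hm y hy).1)
        rw [this, h0 v hv h]
        simp
      · have := ih A0 (A1 ^^^ (A1 &&& N v)) A2 (U ^^^ 2 ^ v)
          (fun w hw => h0 w (hm w hw).1) (hA A1 1 h h1) (fun w hw => h2 w (hm w hw).1)
          (fun x y hx hy => hN x y (hm x hx).1 (hm y hy).1)
        rw [this, h1 v hv h]
        simp
      · have := ih A0 A1 (A2 ^^^ (A2 &&& N v)) (U ^^^ 2 ^ v)
          (fun w hw => h0 w (hm w hw).1) (fun w hw => h1 w (hm w hw).1) (hA A2 2 h h2)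
          (fun x y hx hy => hN x y (hm x hx).1 (hm y hy).1)
        rw [this, h2 v hv h]
        simp

/-- no colouring when the search succeeds -/
theorem srch_full (N : ℕ → ℕ) (f : ℕ → Fin 3) (fuel m : ℕ)
    (hs : srch N fuel (2 ^ m - 1) (2 ^ m - 1) (2 ^ m - 1) (2 ^ m - 1) = true)
    (h : ∀ v w, v < m → w < m → (N v).testBit w = true → f v ≠ f w) : False := by
  have hU : ∀ v, (2 ^ m - 1).testBit v = true → v < m := by
    intro v hv
    rw [Nat.testBit_two_pow_sub_one] at hv
    simpa using hv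
  have := srch_sound N f fuel (2 ^ m - 1) (2 ^ m - 1) (2 ^ m - 1) (2 ^ m - 1)
    (fun v hv _ => hv) (fun v hv _ => hv) (fun v hv _ => hv)
    (fun v w hv hw hvw => h v w (hU v hv) (hU w hw) hvw)
  rw [this] at hs
  cases hs

/-- `T` is not 3-edge-colourable (search) -/
theorem chkT34 : srch nt34 60 (2 ^ 51 - 1) (2 ^ 51 - 1) (2 ^ 51 - 1) (2 ^ 51 - 1) = true := by
  decide +kernel

/-- neighbour function of `T` -/
def nT (v : Fin 34) (i : Fin 3) : Fin 34 := Fin.ofNat 34 (nb34 v i)

/-- adjacency test of `T` -/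
def adjT (v w : Fin 34) : Bool := nT v 0 == w || nT v 1 == w || nT v 2 == w

theorem adjT_symm : ∀ v w : Fin 34, adjT v w = true → adjT w v = true := by decide +kernel

theorem adjT_irr : ∀ v : Fin 34, adjT v v = false := by decide +kernel

theorem nT_inj : ∀ v : Fin 34, ∀ i j : Fin 3, nT v i = nT v j → i = j := by decide +kernel

/-- the snark `T` -/
def T34 : SimpleGraph (Fin 34) where
  Adj v w := adjT v w = true
  symm := ⟨adjT_symm⟩
  loopless := ⟨fun v h => by rw [adjT_irr v] at h; cases h⟩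

instance : DecidableRel T34.Adj := fun v w => inferInstanceAs (Decidable (adjT v w = true))

theorem nbfT : NbF T34 nT := by
  constructor
  · intro v w
    show adjT v w = true ↔ _
    unfold adjT
    simp only [Bool.or_eq_true, beq_iff_eq]
    constructor
    · rintro ((h | h) | h)
      · exact ⟨0, h.symm⟩
      · exact ⟨1, h.symm⟩
      · exact ⟨2, h.symm⟩
    · rintro ⟨i, rfl⟩
      fin_cases i
      · exact Or.inl (Or.inl rfl)
      · exact Or.inl (Or.inr rfl)
      · exact Or.inr rfl
  · intro v i j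
    exact nT_inj v i j

instance : DecidableRel (cutE T34 0 5 27 32).Adj := fun v w =>
  inferInstanceAs (Decidable (T34.Adj v w ∧ ¬ (v = 0 ∧ w = 5) ∧ ¬ (v = 5 ∧ w = 0) ∧
    ¬ (v = 27 ∧ w = 32) ∧ ¬ (v = 32 ∧ w = 27)))

/-- `T` minus two edges -/
abbrev T34' : SimpleGraph (Fin 34) := cutE T34 0 5 27 32

/-- two ends of an edge match -/
def share (a b c d : ℕ) : Bool :=
  (a == c && b != d) || (a == d && b != c) || (b == c && a != d) || (b == d && a != c)

theorem chkShare34 : (List.range 51).all (fun e => (List.range 51).all (fun e' =>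
    !((nt34 e).testBit e') || share (ex34 e) (ey34 e) (ex34 e') (ey34 e'))) = true := by
  decide +kernel

theorem chkEdge34 : (List.range 51).all (fun e => decide (ex34 e < 34) && decide (ey34 e < 34) &&
    adjT (Fin.ofNat 34 (ex34 e)) (Fin.ofNat 34 (ey34 e))) = true := by
  decide +kernel

theorem nocolT : NoCol T34 := by
  intro f h1 h2
  let g : ℕ → Fin 3 := fun e => f (Fin.ofNat 34 (ex34 e)) (Fin.ofNat 34 (ey34 e))
  apply srch_full nt34 g 60 51 chkT34
  intro e e' he he' hb
  have c1 := chkShare34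
  rw [List.all_eq_true] at c1
  have c2 := c1 e (List.mem_range.2 he)
  rw [List.all_eq_true] at c2
  have c3 := c2 e' (List.mem_range.2 he')
  rw [hb] at c3
  have d1 := chkEdge34
  rw [List.all_eq_true] at d1
  have d2 := d1 e (List.mem_range.2 he)
  have d3 := d1 e' (List.mem_range.2 he')
  simp only [Bool.and_eq_true, decide_eq_true_eq] at d2 d3
  obtain ⟨⟨d4, d5⟩, d6⟩ := d2
  obtain ⟨⟨d7, d8⟩, d9⟩ := d3
  have inj : ∀ p q : ℕ, p < 34 → q < 34 → p ≠ q → Fin.ofNat 34 p ≠ Fin.ofNat 34 q := by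
    intro p q hp hq hpq h
    apply hpq
    have := congrArg Fin.val h
    simpa [Fin.ofNat, Nat.mod_eq_of_lt hp, Nat.mod_eq_of_lt hq] using this
  have a1 : T34.Adj (Fin.ofNat 34 (ex34 e)) (Fin.ofNat 34 (ey34 e)) := d6
  have a2 : T34.Adj (Fin.ofNat 34 (ex34 e')) (Fin.ofNat 34 (ey34 e')) := d9
  unfold share at c3
  simp only [Bool.not_true, Bool.false_or, Bool.or_eq_true, Bool.and_eq_true, beq_iff_eq,
    bne_iff_ne] at c3
  show f _ _ ≠ f _ _
  rcases c3 with ((⟨u1, u2⟩ | ⟨u1, u2⟩) | ⟨u1, u2⟩) | ⟨u1, u2⟩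
  · rw [u1] at a1 ⊢
    exact h2 _ _ _ a1 a2 (inj _ _ d5 d8 u2)
  · rw [h1 _ _ a2]
    rw [u1] at a1 ⊢
    exact h2 _ _ _ a1 a2.symm (inj _ _ d5 d7 u2)
  · rw [h1 _ _ a1]
    rw [u1] at a1 ⊢
    exact h2 _ _ _ a1.symm a2 (inj _ _ d4 d8 u2)
  · rw [h1 _ _ a1, h1 _ _ a2]
    rw [u1] at a1 ⊢
    exact h2 _ _ _ a1.symm a2.symm (inj _ _ d4 d7 u2)

end Pool.Agent.W148.Hypo
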