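import Mathlib
import Pool.Agent.W148.HypoT

set_option autoImplicit false

namespace Pool.Agent.W148.Hypo

open SimpleGraph

/-- cyclic test for closed walks -/
def tst3 (P : Fin 34 → Fin 34 → Bool) (a b c : Fin 34) : Bool :=
  !(adjT c a) || P a b || P b c || P c a

/-- cyclic test for closed walks -/
def tst4 (P : Fin 34 → Fin 34 → Bool) (a b c d : Fin 34) : Bool :=
  a == c || b == d || !(adjT d a) || P a b || P b c || P c d || P d a

/-- cyclic test for closed walks -/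
def tst6 (P : Fin 34 → Fin 34 → Bool) (a b c d e f : Fin 34) : Bool :=
  a == c || b == d || c == e || d == f || e == a || f == b || !(adjT f a) ||
    P a b || P b c || P c d || P d e || P e f || P f a

theorem tst3_all : ∀ v : Fin 34, ∀ i j : Fin 3,
    tst3 (fun _ _ => false) v (nT v i) (nT (nT v i) j) = true := by decide +kernel

theorem tst4_all : ∀ v : Fin 34, ∀ i j k : Fin 3,
    tst4 (fun _ _ => false) v (nT v i) (nT (nT v i) j) (nT (nT (nT v i) j) k) = true := by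
  decide +kernel

/-- removed edges -/
def P1 (s t : Fin 34) : Bool :=
  (s == 0 && t == 5) || (s == 5 && t == 0) || (s == 27 && t == 32) || (s == 32 && t == 27)

/-- removed vertices -/
def P2 (s _t : Fin 34) : Bool := s == 27 || s == 32

theorem tst6_P1 : ∀ v : Fin 34, ∀ i j k l m : Fin 3,
    tst6 P1 v (nT v i) (nT (nT v i) j) (nT (nT (nT v i) j) k) (nT (nT (nT (nT v i) j) k) l)
      (nT (nT (nT (nT (nT v i) j) k) l) m) = true := by
  decide +kernel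

theorem tst6_P2 : ∀ v : Fin 34, ∀ i j k l m : Fin 3,
    tst6 P2 v (nT v i) (nT (nT v i) j) (nT (nT (nT v i) j) k) (nT (nT (nT (nT v i) j) k) l)
      (nT (nT (nT (nT (nT v i) j) k) l) m) = true := by
  decide +kernel

theorem adjT_idx {v w : Fin 34} (h : T34.Adj v w) : ∃ i, w = nT v i := (nbfT.1 v w).1 h

theorem cwT3 : CW 3 T34 := by
  intro w hadj hne
  obtain ⟨i, hi⟩ := adjT_idx (hadj 0)
  obtain ⟨j, hj⟩ := adjT_idx (hadj 1)
  have h := tst3_all (w 0) i j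
  rw [← hi] at h
  change tst3 _ (w 0) (w 1) (nT (w 1) j) = true at h
  rw [← hj] at h
  change tst3 _ (w 0) (w 1) (w 2) = true at h
  have h3 : adjT (w 2) (w 0) = true := hadj 2
  unfold tst3 at h
  rw [h3] at h
  simp at h

theorem cwT4 : CW 4 T34 := by
  intro w hadj hne
  obtain ⟨i, hi⟩ := adjT_idx (hadj 0)
  obtain ⟨j, hj⟩ := adjT_idx (hadj 1)
  obtain ⟨k, hk⟩ := adjT_idx (hadj 2)
  have h := tst4_all (w 0) i j k
  rw [← hi] at h
  change tst4 _ (w 0) (w 1) (nT (w 1) j) (nT (nT (w 1) j) k) = true at h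
  rw [← hj] at h
  change tst4 _ (w 0) (w 1) (w 2) (nT (w 2) k) = true at h
  rw [← hk] at h
  change tst4 _ (w 0) (w 1) (w 2) (w 3) = true at h
  have h3 : adjT (w 3) (w 0) = true := hadj 3
  have h4 : w 0 ≠ w 2 := hne 0
  have h5 : w 1 ≠ w 3 := hne 1
  unfold tst4 at h
  rw [h3] at h
  simp [h4, h5] at h

theorem cwT6 (P : Fin 34 → Fin 34 → Bool)
    (hP : ∀ v : Fin 34, ∀ i j k l m : Fin 3,
    tst6 P v (nT v i) (nT (nT v i) j) (nT (nT (nT v i) j) k) (nT (nT (nT (nT v i) j) k) l)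
      (nT (nT (nT (nT (nT v i) j) k) l) m) = true)
    (w : Fin 6 → Fin 34) (hadj : ∀ i, T34.Adj (w i) (w (i + 1))) (hne : ∀ i, w i ≠ w (i + 2))
    (hw : ∀ i, P (w i) (w (i + 1)) = false) : False := by
  obtain ⟨i, hi⟩ := adjT_idx (hadj 0)
  obtain ⟨j, hj⟩ := adjT_idx (hadj 1)
  obtain ⟨k, hk⟩ := adjT_idx (hadj 2)
  obtain ⟨l, hl⟩ := adjT_idx (hadj 3)
  obtain ⟨m, hm⟩ := adjT_idx (hadj 4)
  have h := hP (w 0) i j k l m
  rw [← hi] at h
  change tst6 _ (w 0) (w 1) (nT (w 1) j) (nT (nT (w 1) j) k) (nT (nT (nT (w 1) j) k) l)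
    (nT (nT (nT (nT (w 1) j) k) l) m) = true at h
  rw [← hj] at h
  change tst6 _ (w 0) (w 1) (w 2) (nT (w 2) k) (nT (nT (w 2) k) l)
    (nT (nT (nT (w 2) k) l) m) = true at h
  rw [← hk] at h
  change tst6 _ (w 0) (w 1) (w 2) (w 3) (nT (w 3) l) (nT (nT (w 3) l) m) = true at h
  rw [← hl] at h
  change tst6 _ (w 0) (w 1) (w 2) (w 3) (w 4) (nT (w 4) m) = true at h
  rw [← hm] at h
  change tst6 _ (w 0) (w 1) (w 2) (w 3) (w 4) (w 5) = true at h
  have h3 : adjT (w 5) (w 0) = true := hadj 5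
  have n0 : w 0 ≠ w 2 := hne 0
  have n1 : w 1 ≠ w 3 := hne 1
  have n2 : w 2 ≠ w 4 := hne 2
  have n3 : w 3 ≠ w 5 := hne 3
  have n4 : w 4 ≠ w 0 := hne 4
  have n5 : w 5 ≠ w 1 := hne 5
  have p0 : P (w 0) (w 1) = false := hw 0
  have p1 : P (w 1) (w 2) = false := hw 1
  have p2 : P (w 2) (w 3) = false := hw 2
  have p3 : P (w 3) (w 4) = false := hw 3
  have p4 : P (w 4) (w 5) = false := hw 4
  have p5 : P (w 5) (w 0) = false := hw 5
  unfold tst6 at h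
  rw [h3, p0, p1, p2, p3, p4, p5] at h
  simp [n0, n1, n2, n3, n4, n5] at h

theorem cutE_le {A : Type} {T : SimpleGraph A} {a b c d : A} {s t : A}
    (h : (cutE T a b c d).Adj s t) : T.Adj s t := h.1

theorem cwT3' : CW 3 T34' := fun w hadj hne => cwT3 w (fun i => (hadj i).1) hne

theorem cwT4' : CW 4 T34' := fun w hadj hne => cwT4 w (fun i => (hadj i).1) hne

theorem cwT6' : CW 6 T34' := by
  intro w hadj hne
  apply cwT6 P1 tst6_P1 w (fun i => (hadj i).1) hne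
  intro i
  obtain ⟨-, h1, h2, h3, h4⟩ := hadj i
  unfold P1
  simp only [Bool.or_eq_false_iff, Bool.and_eq_false_iff, beq_eq_false_iff_ne]
  refine ⟨⟨⟨?_, ?_⟩, ?_⟩, ?_⟩
  · tauto
  · tauto
  · tauto
  · tauto

theorem cwT6x (w : Fin 6 → Fin 34) (hadj : ∀ i, T34.Adj (w i) (w (i + 1)))
    (hne : ∀ i, w i ≠ w (i + 2)) (hw : ∀ i, w i ≠ 27 ∧ w i ≠ 32) : False := by
  apply cwT6 P2 tst6_P2 w hadj hne
  intro i
  unfold P2
  simp only [Bool.or_eq_false_iff, beq_eq_false_iff_ne]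
  exact hw i

theorem F3T : ∀ s s' : Fin 34, (s = 0 ∨ s = 5 ∨ s = 27 ∨ s = 32) →
    (s' = 0 ∨ s' = 5 ∨ s' = 27 ∨ s' = 32) → ¬ T34'.Adj s s' := by
  decide +kernel

theorem F5T : ∀ s m s' : Fin 34, (s = 0 ∨ s = 5 ∨ s = 27 ∨ s = 32) →
    (s' = 0 ∨ s' = 5 ∨ s' = 27 ∨ s' = 32) → T34'.Adj s m → T34'.Adj m s' → s = s' := by
  intro s m s' h1 h2 h3 h4
  have key : ∀ s, (s = 0 ∨ s = 5 ∨ s = 27 ∨ s = 32) → ∀ s',
    (s' = 0 ∨ s' = 5 ∨ s' = 27 ∨ s' = 32) → ∀ m : Fin 34, T34'.Adj s m → T34'.Adj m s' →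
      s = s' := by decide +kernel
  exact key s h1 s' h2 m h3 h4

/-! path checks -/

instance (s t : Fin 34) (l : List (Fin 34)) : Decidable (Seg T34' s t l) := by
  unfold Seg
  infer_instance

theorem segAC : Seg T34' 0 27 Lac ∧ ∀ w, w ∈ Lac := by decide +kernel

theorem segAD : Seg T34' 0 32 Lad ∧ ∀ w, w ∈ Lad := by decide +kernel

theorem segBC : Seg T34' 5 27 Lbc ∧ ∀ w, w ∈ Lbc := by decide +kernel

theorem segBD : Seg T34' 5 32 Lbd ∧ ∀ w, w ∈ Lbd := by decide +kernel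

theorem segPQ : Seg T34' 0 5 Lp ∧ Seg T34' 27 32 Lq ∧ (∀ w ∈ Lp, w ∉ Lq) ∧
    ∀ w, w ∈ Lp ∨ w ∈ Lq := by decide +kernel

theorem segDel : ∀ v : Fin 34,
    (Seg T34' 0 5 (Ldel.getD v []) ∧ ∀ w, w ∈ Ldel.getD v [] ↔ w ≠ v) ∨
    (Seg T34' 27 32 (Ldel.getD v []) ∧ ∀ w, w ∈ Ldel.getD v [] ↔ w ≠ v) := by
  decide +kernel

/-- matching of `T` avoiding the two removed edges -/
def mT (v : Fin 34) : Fin 34 := LmT.getD v 0

theorem mT_inv : ∀ v, mT (mT v) = v := by decide +kernel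

theorem mT_adj : ∀ v, T34'.Adj v (mT v) := by decide +kernel

/-- matching of `T` containing `27 32` -/
def mH (v : Fin 34) : Fin 34 := LmH.getD v 0

theorem mH_inv : ∀ v, mH (mH v) = v := by decide +kernel

theorem mH_adj : ∀ v, T34.Adj v (mH v) := by decide +kernel

theorem mH_27 : mH 27 = 32 := by decide +kernel

theorem delT : ∀ v, ∃ l, Cyc T34 l ∧ ∀ w, w ∈ l ↔ w ≠ v := by
  intro v
  have h05 : T34.Adj 0 5 := by decide +kernel
  have h27 : T34.Adj 27 32 := by decide +kernel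
  rcases segDel v with ⟨⟨h1, h2, h3, h4⟩, h5⟩ | ⟨⟨h1, h2, h3, h4⟩, h5⟩
  · refine ⟨_, ⟨h1, h2.imp fun a b h => h.1, ?_⟩, h5⟩
    intro x hx y hy
    rw [h4] at hx
    rw [h3] at hy
    cases hx
    cases hy
    exact h05.symm
  · refine ⟨_, ⟨h1, h2.imp fun a b h => h.1, ?_⟩, h5⟩
    intro x hx y hy
    rw [h4] at hx
    rw [h3] at hy
    cases hx
    cases hy
    exact h27.symm

end Pool.Agent.W148.Hypo
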