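import Mathlib
import Pool.Agent.W148.HypoTC

set_option autoImplicit false

namespace Pool.Agent.W148.Hypo

open SimpleGraph

theorem two_others {B : Type} {H : SimpleGraph B} {n : B → Fin 3 → B} (hn : NbF H n) {x y : B}
    (hxy : H.Adj x y) : ∃ x1 x2, (∀ w, H.Adj x w ↔ (w = y ∨ w = x1 ∨ w = x2)) ∧ x1 ≠ x2 ∧
      x1 ≠ y ∧ x2 ≠ y ∧ x1 ≠ x ∧ x2 ≠ x := by
  obtain ⟨i0, hi⟩ := (hn.1 x y).1 hxy
  have key : ∀ i0 : Fin 3, ∃ i1 i2 : Fin 3, i1 ≠ i2 ∧ i1 ≠ i0 ∧ i2 ≠ i0 ∧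
      ∀ i, i = i0 ∨ i = i1 ∨ i = i2 := by decide
  obtain ⟨i1, i2, h12, h10, h20, hall⟩ := key i0
  have inj := hn.2 x
  refine ⟨n x i1, n x i2, ?_, inj.ne h12, ?_, ?_, ?_, ?_⟩
  · intro w
    rw [hn.1 x w]
    constructor
    · rintro ⟨i, rfl⟩
      rcases hall i with h | h | h
      · left; rw [hi, h]
      · right; left; rw [h]
      · right; right; rw [h]
    · rintro (h | h | h)
      · exact ⟨i0, h.trans hi⟩
      · exact ⟨i1, h⟩
      · exact ⟨i2, h⟩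
  · rw [hi]; exact inj.ne h10
  · rw [hi]; exact inj.ne h20
  · exact ((hn.1 x _).2 ⟨i1, rfl⟩).ne'
  · exact ((hn.1 x _).2 ⟨i2, rfl⟩).ne'

theorem no_tri {B : Type} {H : SimpleGraph B} (h : CW 3 H) {p q r : B} (h1 : H.Adj p q)
    (h2 : H.Adj q r) (h3 : H.Adj r p) : False := by
  apply h ![p, q, r]
  · intro i
    fin_cases i
    · exact h1
    · exact h2
    · exact h3
  · intro i
    fin_cases i
    · exact h3.ne'
    · exact h1.ne'
    · exact h2.ne'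

theorem no_quad {B : Type} {H : SimpleGraph B} (h : CW 4 H) {p q r s : B} (h1 : H.Adj p q)
    (h2 : H.Adj q r) (h3 : H.Adj r s) (h4 : H.Adj s p) (h5 : p ≠ r) (h6 : q ≠ s) : False := by
  apply h ![p, q, r, s]
  · intro i
    fin_cases i
    · exact h1
    · exact h2
    · exact h3
    · exact h4
  · intro i
    fin_cases i
    · exact h5
    · exact h6
    · exact h5.symm
    · exact h6.symm

/-- all the properties carried through the induction -/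
structure Inv {V : Type} (G : SimpleGraph V) : Prop where
  nb : ∃ n, NbF G n
  c3 : CW 3 G
  c4 : CW 4 G
  c6 : CW 6 G
  col : NoCol G
  del : ∀ v, ∃ l, Cyc G l ∧ ∀ w, w ∈ l ↔ w ≠ v
  pm : ∃ m : V → V, (∀ v, m (m v) = v) ∧ ∀ v, G.Adj v (m v)

theorem step {B : Type} [Fintype B] (H : SimpleGraph B) (n : B → Fin 3 → B) (hn : NbF H n)
    (c3 : CW 3 H) (c4 : CW 4 H) (col : NoCol H)
    (del : ∀ v, ∃ l, Cyc H l ∧ ∀ w, w ∈ l ↔ w ≠ v)
    (m : B → B) (hm1 : ∀ v, m (m v) = v) (hm2 : ∀ v, H.Adj v (m v)) (x : B)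
    (c6 : ∀ w : Fin 6 → B, (∀ i, H.Adj (w i) (w (i + 1))) → (∀ i, w i ≠ w (i + 2)) →
      (∀ i, w i ≠ x ∧ w i ≠ m x) → False) :
    ∃ (V : Type) (_ : Fintype V) (G : SimpleGraph V), Inv G ∧
      Fintype.card V = 32 + Fintype.card B := by
  classical
  obtain ⟨x1, x2, hHx, h12, a1, a2, a3, a4⟩ := two_others hn (hm2 x)
  obtain ⟨y1, y2, hHy, h34, b1, b2, b3, b4⟩ := two_others hn (hm2 x).symm
  set y := m x with hy
  have hxy : x ≠ y := (hm2 x).ne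
  have ex1 : H.Adj x x1 := (hHx x1).2 (Or.inr (Or.inl rfl))
  have ex2 : H.Adj x x2 := (hHx x2).2 (Or.inr (Or.inr rfl))
  have ey1 : H.Adj y y1 := (hHy y1).2 (Or.inr (Or.inl rfl))
  have ey2 : H.Adj y y2 := (hHy y2).2 (Or.inr (Or.inr rfl))
  have exy : H.Adj x y := hm2 x
  have hne : ∀ u v, H.Adj x u → H.Adj y v → u ≠ v := by
    rintro u v h1 h2 rfl
    exact no_tri c3 h1 h2.symm exy.symm
  have h13 := hne _ _ ex1 ey1
  have h14 := hne _ _ ex1 ey2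
  have h23 := hne _ _ ex2 ey1
  have h24 := hne _ _ ex2 ey2
  have tab : T34.Adj 0 5 := by decide +kernel
  have tcd : T34.Adj 27 32 := by decide +kernel
  have n1 : (0 : Fin 34) ≠ 27 := by decide
  have n2 : (0 : Fin 34) ≠ 32 := by decide
  have n3 : (5 : Fin 34) ≠ 27 := by decide
  have n4 : (5 : Fin 34) ≠ 32 := by decide
  have F4 : ∀ u u', (u = x1 ∨ u = x2 ∨ u = y1 ∨ u = y2) →
      (u' = x1 ∨ u' = x2 ∨ u' = y1 ∨ u' = y2) → ¬ H.Adj u u' := by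
    -- both at `x`, both at `y`, or one at each
    have fx : ∀ u u', H.Adj x u → H.Adj x u' → ¬ H.Adj u u' := fun u u' h1 h2 h3 =>
      no_tri c3 h1 h3 h2.symm
    have fy : ∀ u u', H.Adj y u → H.Adj y u' → ¬ H.Adj u u' := fun u u' h1 h2 h3 =>
      no_tri c3 h1 h3 h2.symm
    have fxy : ∀ u u', H.Adj x u → u ≠ y → H.Adj y u' → u' ≠ x → ¬ H.Adj u u' :=
      fun u u' h1 h1' h2 h2' h3 =>
        no_quad c4 h1 h3 h2.symm exy.symm h2'.symm h1'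
    intro u u' hu hu' hadj
    rcases hu with rfl | rfl | rfl | rfl <;> rcases hu' with rfl | rfl | rfl | rfl
    · exact fx _ _ ex1 ex1 hadj
    · exact fx _ _ ex1 ex2 hadj
    · exact fxy _ _ ex1 a1 ey1 b1 hadj
    · exact fxy _ _ ex1 a1 ey2 b2 hadj
    · exact fx _ _ ex2 ex1 hadj
    · exact fx _ _ ex2 ex2 hadj
    · exact fxy _ _ ex2 a2 ey1 b1 hadj
    · exact fxy _ _ ex2 a2 ey2 b2 hadj
    · exact fxy _ _ ex1 a1 ey1 b1 hadj.symm
    · exact fxy _ _ ex2 a2 ey1 b1 hadj.symm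
    · exact fy _ _ ey1 ey1 hadj
    · exact fy _ _ ey1 ey2 hadj
    · exact fxy _ _ ex1 a1 ey2 b2 hadj.symm
    · exact fxy _ _ ex2 a2 ey2 b2 hadj.symm
    · exact fy _ _ ey2 ey1 hadj
    · exact fy _ _ ey2 ey2 hadj
  refine ⟨Fin 34 ⊕ Rest x y, inferInstance,
    Dot (cutE T34 0 5 27 32) 0 5 27 32 H x y x1 x2 y1 y2, ⟨?_, ?_, ?_, ?_, ?_, ?_, ?_⟩, ?_⟩
  · exact ⟨_, dot_nbf T34 0 5 27 32 H x y x1 x2 y1 y2 tab tcd n1 n2 n3 n4 hHx hHy h12 h34
      ⟨a3, a1⟩ ⟨a4, a2⟩ ⟨b1, b3⟩ ⟨b2, b4⟩ hxy nbfT hn⟩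
  · exact dot_cw T34 0 5 27 32 H x y x1 x2 y1 y2 tab tcd n1 n2 n3 n4 h12 h34 h13 h14 h23 h24
      3 pat3 (by decide) cwT3' (fun w h1 h2 _ => c3 w h1 h2) F3T F4 F5T
  · exact dot_cw T34 0 5 27 32 H x y x1 x2 y1 y2 tab tcd n1 n2 n3 n4 h12 h34 h13 h14 h23 h24
      4 pat4 (by decide) cwT4' (fun w h1 h2 _ => c4 w h1 h2) F3T F4 F5T
  · exact dot_cw T34 0 5 27 32 H x y x1 x2 y1 y2 tab tcd n1 n2 n3 n4 h12 h34 h13 h14 h23 h24
      6 pat6 (by decide) cwT6' c6 F3T F4 F5T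
  · exact dot_nocol T34 0 5 27 32 H x y x1 x2 y1 y2 tab tcd n1 n2 n3 n4 hHx hHy h12 h34 h13 h14
      h23 h24 ⟨a3, a1⟩ ⟨a4, a2⟩ ⟨b1, b3⟩ ⟨b2, b4⟩ hxy nbfT hn nocolT col
  · exact dot_hyp T34' 0 5 27 32 H x y x1 x2 y1 y2 (fun w h => (hHx w).1 h)
      (fun w h => (hHy w).1 h) hxy h12 a3 a4 a1 a2 h34 b1 b2 b3 b4 del
      ⟨_, segAC⟩ ⟨_, segAD⟩ ⟨_, segBC⟩ ⟨_, segBD⟩ ⟨_, _, segPQ⟩
      (fun v => (segDel v).imp (fun h => ⟨_, h⟩) (fun h => ⟨_, h⟩))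
  · have g1 : ∀ v, m v = x → v = y := fun v h => by
      have h' := congrArg m h
      rw [hm1] at h'
      exact h'
    have g2 : ∀ v, m v = y → v = x := fun v h => by
      have h' := congrArg m h
      rw [hm1] at h'
      exact h'.trans (hm1 x)
    have hmx : ∀ u : Rest x y, m u.1 ≠ x ∧ m u.1 ≠ y := fun u =>
      ⟨fun h => u.2.2 (g1 _ h), fun h => u.2.1 (g2 _ h)⟩
    refine ⟨fun p => match p with
      | Sum.inl s => Sum.inl (mT s)
      | Sum.inr u => Sum.inr ⟨m u.1, hmx u⟩, ?_, ?_⟩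
    · rintro (s | u)
      · exact congrArg _ (mT_inv s)
      · exact congrArg _ (Subtype.ext (hm1 u.1))
    · rintro (s | u)
      · exact mT_adj s
      · exact hm2 u.1
  · rw [Fintype.card_sum, Fintype.card_fin]
    have h1 : Fintype.card (Rest x y) = Fintype.card B - 2 := by
      rw [Fintype.card_subtype]
      have : (Finset.univ.filter fun w : B => w ≠ x ∧ w ≠ y) = Finset.univ \ {x, y} := by
        ext w
        simp
      rw [this, Finset.card_sdiff_of_subset (Finset.subset_univ _), Finset.card_univ,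
        Finset.card_pair hxy]
    have h2 : 2 ≤ Fintype.card B := by
      have := Finset.card_le_univ ({x, y} : Finset B)
      rw [Finset.card_pair hxy] at this
      exact this
    rw [h1]
    omega

theorem base : ∃ (V : Type) (_ : Fintype V) (G : SimpleGraph V), Inv G ∧
    Fintype.card V = 66 := by
  obtain ⟨V, i, G, h1, h2⟩ := step T34 nT nbfT cwT3 cwT4 nocolT delT mH mH_inv mH_adj 27 (by
    intro w h1 h2 h3
    rw [mH_27] at h3
    exact cwT6x w h1 h2 h3)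
  exact ⟨V, i, G, h1, by rw [h2, Fintype.card_fin]⟩

theorem family (k : ℕ) : ∃ (V : Type) (_ : Fintype V) (G : SimpleGraph V), Inv G ∧
    Fintype.card V = 66 + 32 * k := by
  induction k with
  | zero => exact base
  | succ k ih =>
    obtain ⟨V, i, G, h1, h2⟩ := ih
    obtain ⟨n, hn⟩ := h1.nb
    obtain ⟨m, hm1, hm2⟩ := h1.pm
    have hne : Nonempty V := Fintype.card_pos_iff.1 (by omega)
    obtain ⟨x⟩ := hne
    obtain ⟨V', i', G', h3, h4⟩ := step G n hn h1.c3 h1.c4 h1.col h1.del m hm1 hm2 x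
      (fun w g1 g2 _ => h1.c6 w g1 g2)
    exact ⟨V', i', G', h3, by rw [h4, h2]; ring⟩

end Pool.Agent.W148.Hypo
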