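import Pool.Agent.W148.BondMat

set_option autoImplicit false

namespace Pool.Agent.W148.BondCover

open Pool.Agent.W148.BM H211.MC

variable {n m : ℕ}

theorem exists_st (ends : Fin m → Sym2 (Fin n)) :
    ∃ s t : Fin m → Fin n, ∀ e, ends e = s(s e, t e) := by
  have h : ∀ e, ∃ p : Fin n × Fin n, ends e = s(p.1, p.2) := by
    intro e
    induction ends e using Sym2.ind with
    | _ a b => exact ⟨(a, b), rfl⟩
  choose p hp using h
  exact ⟨fun e => (p e).1, fun e => (p e).2, hp⟩

theorem cross_iff {ends : Fin m → Sym2 (Fin n)} {s t : Fin m → Fin n}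
    (h : ∀ e, ends e = s(s e, t e)) (S : Set (Fin n)) (e : Fin m) :
    cross s t S e ↔ ∃ a ∈ S, ∃ b ∉ S, ends e = s(a, b) := by
  unfold cross
  constructor
  · intro hc
    by_cases h1 : s e ∈ S
    · have h2 : t e ∉ S := fun h2 => hc ⟨fun _ => h2, fun _ => h1⟩
      exact ⟨_, h1, _, h2, h e⟩
    · have h2 : t e ∈ S := by
        by_contra h2
        exact hc ⟨fun h3 => absurd h3 h1, fun h3 => absurd h3 h2⟩
      exact ⟨_, h2, _, h1, by rw [h e, Sym2.eq_swap]⟩
  · rintro ⟨a, ha, b, hb, hab⟩ hc
    rw [h e, Sym2.eq_iff] at hab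
    rcases hab with ⟨rfl, rfl⟩ | ⟨rfl, rfl⟩
    · exact hb (hc.1 ha)
    · exact hb (hc.2 ha)

/-- Every 2-connected loopless multigraph whose largest bond has c edges has c cycles, repetitions allowed, such that every edge lies in at least two of them. -/
theorem bond_cover :
  ∀ (n m : ℕ) (ends : Fin m → Sym2 (Fin n)),
    (∀ e, ¬ (ends e).IsDiag) →
    ((3 ≤ n ∧
      (SimpleGraph.fromRel (fun u v : Fin n => ∃ e : Fin m, ends e = s(u, v))).Connected ∧
      (∀ v : Fin n,
        ((SimpleGraph.fromRel (fun u w : Fin n => ∃ e : Fin m, ends e = s(u, w))).induce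
          ({v}ᶜ : Set (Fin n))).Connected)) ∨
     (n = 2 ∧ 2 ≤ m)) →
    ∀ (isCycle isCut isBond : Finset (Fin m) → Prop),
      (∀ C, isCycle C ↔
        (C.Nonempty ∧ (∀ v : Fin n, Even (C.filter (fun e => v ∈ ends e)).card) ∧
          ∀ D ⊆ C, D.Nonempty → (∀ v : Fin n, Even (D.filter (fun e => v ∈ ends e)).card) →
            D = C)) →
      (∀ D, isCut D ↔
        ∃ S : Finset (Fin n), ∀ e : Fin m, e ∈ D ↔ ∃ a ∈ S, ∃ b ∉ S, ends e = s(a, b)) →
      (∀ D, isBond D ↔
        (isCut D ∧ D.Nonempty ∧ ∀ D' ⊆ D, D'.Nonempty → isCut D' → D' = D)) →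
      ∀ c : ℕ, (∃ B, isBond B ∧ B.card = c) → (∀ B, isBond B → B.card ≤ c) →
        ∃ F : Fin c → Finset (Fin m), (∀ i, isCycle (F i)) ∧
          ∀ e : Fin m, 2 ≤ (Finset.univ.filter (fun i => e ∈ F i)).card := by
  classical
  intro n m ends hdiag hconn isCycle isCut isBond hcycle hcut hbond c _ hc
  obtain ⟨s, t, hst⟩ := exists_st ends
  have hl : ∀ e, s e ≠ t e := by
    intro e h
    apply hdiag e
    rw [hst e, h]
    simp
  have hmem : ∀ (x : Fin n) e, x ∈ ends e ↔ (s e = x ∨ t e = x) := by
    intro x e
    rw [hst e, Sym2.mem_iff]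
    constructor
    · rintro (h | h)
      · exact Or.inl h.symm
      · exact Or.inr h.symm
    · rintro (h | h)
      · exact Or.inl h.symm
      · exact Or.inr h.symm
  -- vertices other than `x` are linked outside `x`
  have hH2 : ∀ (x : Fin n) (S : Set (Fin n)), (∀ e, s e ≠ x → t e ≠ x → ¬ cross s t S e) →
      ∀ y z, y ≠ x → z ≠ x → (y ∈ S ↔ z ∈ S) := by
    intro x S hS y z hy hz
    rcases hconn with ⟨_, _, h3⟩ | ⟨h2, _⟩
    · obtain ⟨p⟩ := (h3 x).preconnected ⟨y, hy⟩ ⟨z, hz⟩
      have key : ∀ (a b : ({x}ᶜ : Set (Fin n))),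
          ((SimpleGraph.fromRel (fun u w : Fin n => ∃ e : Fin m, ends e = s(u, w))).induce
          ({x}ᶜ : Set (Fin n))).Walk a b → (a.1 ∈ S ↔ b.1 ∈ S) := by
        intro a b p
        induction p with
        | nil => exact Iff.rfl
        | @cons u v w hadj _ ih =>
          refine Iff.trans ?_ ih
          have h4 : (SimpleGraph.fromRel (fun u w : Fin n => ∃ e : Fin m, ends e = s(u, w))).Adj
            u.1 v.1 := hadj
          rw [SimpleGraph.fromRel_adj] at h4
          have hu : u.1 ≠ x := u.2
          have hv : v.1 ≠ x := v.2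
          have key2 : ∀ a b : Fin n, a ≠ x → b ≠ x → (∃ e, ends e = s(a, b)) →
              (a ∈ S ↔ b ∈ S) := by
            rintro a b ha hb ⟨e, he⟩
            by_contra hcon
            rw [hst e, Sym2.eq_iff] at he
            rcases he with ⟨h5, h6⟩ | ⟨h5, h6⟩
            · exact hS e (h5 ▸ ha) (h6 ▸ hb) (by unfold cross; rw [h5, h6]; exact hcon)
            · exact hS e (h5 ▸ hb) (h6 ▸ ha) (by
                unfold cross; rw [h5, h6]; exact fun h7 => hcon h7.symm)
          rcases h4.2 with h5 | h5
          · exact key2 _ _ hu hv h5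
          · exact (key2 _ _ hv hu h5).symm
      exact key _ _ p
    · subst h2
      have : y = z := by omega
      rw [this]
  have hH1 : ∀ S : Set (Fin n), (∀ e, ¬ cross s t S e) → S = ∅ ∨ S = Set.univ := by
    intro S hS
    by_cases hne : ∃ y, y ∈ S
    · right
      obtain ⟨y, hy⟩ := hne
      rcases hconn with ⟨_, h3, _⟩ | ⟨h2, hm⟩
      · ext z
        simp only [Set.mem_univ, iff_true]
        obtain ⟨p⟩ := h3.preconnected y z
        have key : ∀ (a b : Fin n),
            (SimpleGraph.fromRel (fun u w : Fin n => ∃ e : Fin m, ends e = s(u, w))).Walk a b →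
            (a ∈ S ↔ b ∈ S) := by
          intro a b p
          induction p with
          | nil => exact Iff.rfl
          | @cons u v w hadj _ ih =>
            refine Iff.trans ?_ ih
            rw [SimpleGraph.fromRel_adj] at hadj
            have key2 : ∀ a b : Fin n, (∃ e, ends e = s(a, b)) → (a ∈ S ↔ b ∈ S) := by
              rintro a b ⟨e, he⟩
              by_contra hcon
              rw [hst e, Sym2.eq_iff] at he
              rcases he with ⟨h5, h6⟩ | ⟨h5, h6⟩
              · exact hS e (by unfold cross; rw [h5, h6]; exact hcon)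
              · exact hS e (by unfold cross; rw [h5, h6]; exact fun h7 => hcon h7.symm)
            rcases hadj.2 with h5 | h5
            · exact key2 _ _ h5
            · exact (key2 _ _ h5).symm
        exact (key _ _ p).1 hy
      · subst h2
        ext z
        simp only [Set.mem_univ, iff_true]
        by_contra hz
        have he0 := hl ⟨0, by omega⟩
        have := hS ⟨0, by omega⟩
        apply this
        unfold cross
        intro h4
        have hyz : y ≠ z := fun h => hz (h ▸ hy)
        rcases (by omega : (s ⟨0, by omega⟩ = y ∧ t ⟨0, by omega⟩ = z) ∨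
          (s ⟨0, by omega⟩ = z ∧ t ⟨0, by omega⟩ = y)) with ⟨h5, h6⟩ | ⟨h5, h6⟩
        · rw [h5, h6] at h4; exact hz (h4.1 hy)
        · rw [h5, h6] at h4; exact hz (h4.2 hy)
    · left
      push Not at hne
      exact Set.eq_empty_iff_forall_notMem.2 hne
  have hdeg : ∀ x : Fin n, 2 ≤ (star s t x).ncard := by
    intro x
    rcases hconn with ⟨h3n, h3, h4⟩ | ⟨h2, hm⟩
    · -- two neighbours or a contradiction
      by_contra hcon
      push Not at hcon
      -- there is an edge at x
      have hex : ∃ e, e ∈ star s t x := by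
        by_contra hno
        push Not at hno
        have := hH1 {x} (by
          intro e he
          apply hno e
          unfold cross at he
          unfold W148.BM.star
          simp only [Set.mem_singleton_iff] at he
          by_contra hcon2
          rw [Set.mem_ofPred_eq] at hcon2
          push Not at hcon2
          exact he ⟨fun h => absurd h hcon2.1, fun h => absurd h hcon2.2⟩)
        rcases this with h | h
        · exact absurd h (Set.singleton_ne_empty x)
        · obtain ⟨z, hz⟩ : ∃ z : Fin n, z ≠ x := by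
            by_cases hx0 : x = ⟨0, by omega⟩
            · exact ⟨⟨1, by omega⟩, by rw [hx0]; simp⟩
            · exact ⟨⟨0, by omega⟩, fun h => hx0 h.symm⟩
          have : z ∈ ({x} : Set (Fin n)) := by rw [h]; trivial
          exact hz this
      obtain ⟨e, he⟩ := hex
      have honly : ∀ f, f ∈ star s t x → f = e := by
        intro f hf
        by_contra hfe
        have h5 : 1 < (star s t x).ncard := by
          rw [Set.one_lt_ncard_iff (Set.toFinite _)]
          exact ⟨f, e, hf, he, hfe⟩
        omega
      -- the other end of e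
      obtain ⟨y, hyx, hy⟩ : ∃ y, y ≠ x ∧ (∀ f, f ∈ star s t x → (s f = y ∨ t f = y)) := by
        rcases he with h | h
        · exact ⟨t e, fun h5 => hl e (h.trans h5.symm), fun f hf => by rw [honly f hf]; exact Or.inr rfl⟩
        · exact ⟨s e, fun h5 => hl e (h5.trans h.symm), fun f hf => by rw [honly f hf]; exact Or.inl rfl⟩
      obtain ⟨z, hzx, hzy⟩ : ∃ z : Fin n, z ≠ x ∧ z ≠ y := by
        by_contra hno
        push Not at hno
        have h6 : (Finset.univ : Finset (Fin n)) ⊆ {x, y} := by
          intro z _
          simp only [Finset.mem_insert, Finset.mem_singleton]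
          by_cases h7 : z = x
          · exact Or.inl h7
          · exact Or.inr (hno z h7)
        have h7 := Finset.card_le_card h6
        rw [Finset.card_univ, Fintype.card_fin] at h7
        have h8 : ({x, y} : Finset (Fin n)).card ≤ 2 := Finset.card_le_two
        omega
      have h5 := hH2 y {x} (by
        intro f hf1 hf2 hf3
        have hfx : f ∈ star s t x := by
          unfold cross at hf3
          unfold W148.BM.star
          simp only [Set.mem_singleton_iff] at hf3
          by_contra hcon2
          rw [Set.mem_ofPred_eq] at hcon2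
          push Not at hcon2
          exact hf3 ⟨fun h => absurd h hcon2.1, fun h => absurd h hcon2.2⟩
        rcases hy f hfx with h | h
        · exact hf1 h
        · exact hf2 h) x z hyx.symm hzy
      have h6 : z = x := h5.1 rfl
      exact hzx h6
    · subst h2
      have : star s t x = Set.univ := by
        ext e
        simp only [Set.mem_univ, iff_true]
        have := hl e
        unfold W148.BM.star
        rw [Set.mem_ofPred_eq]
        omega
      rw [this, Set.ncard_univ, Nat.card_eq_fintype_card, Fintype.card_fin]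
      exact hm
  have hn : 0 < n := by
    rcases hconn with ⟨h, _, _⟩ | ⟨h, _⟩ <;> omega
  have hm : 0 < m := by
    have h1 := hdeg ⟨0, hn⟩
    by_contra hcon
    have : m = 0 := by omega
    subst this
    have : star s t ⟨0, hn⟩ = ∅ := by
      ext e
      exact e.elim0
    rw [this, Set.ncard_empty] at h1
    omega
  have hG := good_B s t hH1 hH2 hdeg hl hm
  have hfin := hG.fin
  -- circuits are bonds
  have hcutS : ∀ (D : Finset (Fin m)), isCut D ↔ ∃ S : Set (Fin n), ∀ e, e ∈ D ↔ cross s t S e := by
    intro D
    rw [hcut]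
    constructor
    · rintro ⟨S, hS⟩
      refine ⟨(S : Set (Fin n)), fun e => ?_⟩
      rw [hS, cross_iff hst]
      rfl
    · rintro ⟨S, hS⟩
      refine ⟨(Set.toFinite S).toFinset, fun e => ?_⟩
      rw [hS, cross_iff hst]
      constructor
      · rintro ⟨a, ha, b, hb, hab⟩
        exact ⟨a, (Set.Finite.mem_toFinset _).2 ha, b,
          fun h => hb ((Set.Finite.mem_toFinset _).1 h), hab⟩
      · rintro ⟨a, ha, b, hb, hab⟩
        exact ⟨a, (Set.Finite.mem_toFinset _).1 ha, b,
          fun h => hb ((Set.Finite.mem_toFinset _).2 h), hab⟩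
  have hcirc : ∀ C : Set (Fin m), (BMat s t).IsCircuit C → C.ncard ≤ c := by
    intro C hC
    have h1 := hC.dep
    rw [dep_B] at h1
    obtain ⟨S, ⟨e0, he0⟩, hS⟩ := h1
    have h2 : {e | cross s t S e} = C := by
      apply hC.eq_of_dep_subset
      · rw [dep_B]
        exact ⟨S, ⟨e0, he0⟩, fun e he => he⟩
      · exact fun e he => hS e he
    have h3 : isBond (Set.toFinite C).toFinset := by
      rw [hbond]
      refine ⟨?_, ?_, ?_⟩
      · rw [hcutS]
        refine ⟨S, fun e => ?_⟩
        rw [Set.Finite.mem_toFinset, ← h2]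
        rfl
      · exact ⟨e0, by rw [Set.Finite.mem_toFinset]; exact hS e0 he0⟩
      · intro D' hD' hne hD'c
        rw [hcutS] at hD'c
        obtain ⟨S', hS'⟩ := hD'c
        obtain ⟨e1, he1⟩ := hne
        have h4 : (D' : Set (Fin m)) = C := by
          apply hC.eq_of_dep_subset
          · rw [dep_B]
            exact ⟨S', ⟨e1, (hS' e1).1 he1⟩, fun e he => (hS' e).2 he⟩
          · intro e he
            have := hD' he
            rwa [Set.Finite.mem_toFinset] at this
        ext e
        rw [Set.Finite.mem_toFinset, ← h4]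
        rfl
    have h5 := hc _ h3
    rwa [← Set.ncard_eq_toFinset_card C (Set.toFinite C)] at h5
  have hc2 : 2 ≤ c := (hdeg ⟨0, hn⟩).trans (hcirc _ (star_circuit s t hH2 hdeg ⟨0, hn⟩ hl))
  obtain ⟨D, hD, hcov⟩ := cover _ (BMat s t) hG (noSeven_B s t) (fun _ => 2) c rfl
    (fun _ _ => hc2) (by
      intro C hC
      unfold W
      have hCf : C.Finite := Set.toFinite C
      rw [finsum_mem_eq_finite_toFinset_sum _ hCf, Finset.sum_const, smul_eq_mul,
        ← Set.ncard_eq_toFinset_card C hCf, mul_comm]
      exact Nat.mul_le_mul_left 2 (hcirc C hC))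
  have hfil : ∀ (D : Finset (Fin m)) (x : Fin n), (D.filter (fun e => x ∈ ends e)).card =
      ({e | e ∈ (D : Set (Fin m)) ∧ (s e = x ∨ t e = x)} : Set (Fin m)).ncard := by
    intro D x
    rw [← Set.ncard_coe_finset]
    congr 1
    ext e
    simp [hmem]
  refine ⟨fun i => (Set.toFinite (D i)).toFinset, ?_, ?_⟩
  · intro i
    rw [hcycle]
    obtain ⟨h1, h2⟩ := dual_of_cocircuit s t hl (hD i)
    refine ⟨?_, ?_, ?_⟩
    · obtain ⟨e, he⟩ := h1
      exact ⟨e, by rw [Set.Finite.mem_toFinset]; exact he⟩
    · intro v
      rw [hfil, Set.Finite.coe_toFinset]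
      exact h2 v
    · intro D' hD' hne hev
      have h3 : (D' : Set (Fin m)) = D i := by
        apply cocircuit_min s t hl (hD i)
        · intro e he
          have := hD' he
          rwa [Set.Finite.mem_toFinset] at this
        · obtain ⟨e, he⟩ := hne
          exact ⟨e, he⟩
        · intro x
          rw [← hfil]
          exact hev x
      ext e
      rw [Set.Finite.mem_toFinset, ← h3]
      rfl
  · intro e
    have h1 := hcov e (by rw [BMat_E]; trivial)
    unfold cnt at h1
    have h2 : {i : Fin c | e ∈ D i}.ncard =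
        (Finset.univ.filter (fun i => e ∈ (Set.toFinite (D i)).toFinset)).card := by
      rw [← Set.ncard_coe_finset]
      congr 1
      ext i
      rw [Finset.mem_coe, Finset.mem_filter, Set.Finite.mem_toFinset]
      exact ⟨fun h => ⟨Finset.mem_univ _, h⟩, fun h => h.2⟩
    rw [h2] at h1
    exact h1

end Pool.Agent.W148.BondCover
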