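import Pool.Agent.H211R2.MC.Rep
import Pool.Agent.Helper998.VecMatroid

set_option autoImplicit false

/-! The bond matroid of a multigraph as a vector matroid, over every field. -/

namespace Pool.Agent.W148.BM

open Set Matroid H211.MC Pool.Agent.Helper998.VecMatroid

variable {n m : ℕ} (s t : Fin m → Fin n)

/-- the edge `e` crosses `S` -/
def cross (S : Set (Fin n)) (e : Fin m) : Prop := ¬ (s e ∈ S ↔ t e ∈ S)

/-- coboundary -/
def cob (F : Type*) [Field F] : (Fin n → F) →ₗ[F] (Fin m → F) where
  toFun φ := fun e => φ (s e) - φ (t e)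
  map_add' := by intro a b; funext e; simp; ring
  map_smul' := by intro c a; funext e; simp; ring

/-- the vectors -/
def vec (F : Type*) [Field F] : Fin m → ((Fin m → F) ⧸ LinearMap.range (cob s t F)) :=
  fun e => (LinearMap.range (cob s t F)).mkQ (Pi.single e 1)

theorem isRel_iff {F : Type*} [Field F] (c : Fin m → F) :
    IsRel (vec s t F) c ↔ ∃ φ, cob s t F φ = c := by
  unfold IsRel vec
  have h : ∑ i, c i • (LinearMap.range (cob s t F)).mkQ (Pi.single i 1) =
      (LinearMap.range (cob s t F)).mkQ c := by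
    simp_rw [← map_smul]
    rw [← map_sum]
    congr 1
    funext i
    simp [Finset.sum_apply, Pi.single_apply]
  rw [h, Submodule.mkQ_apply, Submodule.Quotient.mk_eq_zero, LinearMap.mem_range]

theorem dep_vec {F : Type*} [Field F] (I : Set (Fin m)) :
    (vecMatroid F (vec s t F)).Dep I ↔
      ∃ S : Set (Fin n), (∃ e, cross s t S e) ∧ ∀ e, cross s t S e → e ∈ I := by
  classical
  rw [Pool.Agent.Helper998.VecMatroid.dep_iff]
  constructor
  · rintro ⟨c, hc, hrel, hs⟩
    obtain ⟨φ, rfl⟩ := (isRel_iff s t c).1 hrel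
    obtain ⟨e, he⟩ := Function.ne_iff.1 hc
    have he' : φ (s e) ≠ φ (t e) := by
      intro h
      apply he
      show φ (s e) - φ (t e) = 0
      rw [h, sub_self]
    refine ⟨{x | φ x = φ (s e)}, ⟨e, ?_⟩, ?_⟩
    · unfold cross
      simp only [Set.mem_ofPred_eq, true_iff]
      exact he'.symm
    · intro f hf
      apply hs
      show φ (s f) - φ (t f) ≠ 0
      intro h
      apply hf
      have h2 : φ (s f) = φ (t f) := sub_eq_zero.1 h
      simp [h2]
  · rintro ⟨S, ⟨e, he⟩, hS⟩
    have key : ∀ f, cob s t F (fun x => if x ∈ S then 1 else 0) f ≠ 0 ↔ cross s t S f := by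
      intro f
      unfold cross
      show ((if s f ∈ S then (1 : F) else 0) - (if t f ∈ S then (1 : F) else 0)) ≠ 0 ↔ _
      by_cases h1 : s f ∈ S <;> by_cases h2 : t f ∈ S <;> simp [h1, h2]
    refine ⟨cob s t F (fun x => if x ∈ S then 1 else 0), ?_, (isRel_iff s t _).2 ⟨_, rfl⟩, ?_⟩
    · intro h
      exact (key e).2 he (congrFun h e)
    · intro f hf
      exact hS f ((key f).1 hf)

/-- the bond matroid -/
def BMat : Matroid (Fin m) := vecMatroid (ZMod 2) (vec s t (ZMod 2))

theorem BMat_E : (BMat s t).E = univ := rfl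

theorem dep_B (I : Set (Fin m)) :
    (BMat s t).Dep I ↔ ∃ S : Set (Fin n), (∃ e, cross s t S e) ∧ ∀ e, cross s t S e → e ∈ I :=
  dep_vec s t I

theorem indep_iff_vec {F : Type*} [Field F] (I : Set (Fin m)) :
    (BMat s t).Indep I ↔ LinearIndepOn F (vec s t F) I := by
  rw [← vecMatroid_indep (F := F), ← not_dep_iff (M := BMat s t) (by rw [BMat_E]; exact subset_univ _),
    ← not_dep_iff (M := vecMatroid F (vec s t F)) (by rw [vecMatroid_E]; exact subset_univ _),
    dep_B, dep_vec]

theorem rep_B {F : Type*} [Field F] : Representable F (BMat s t) := by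
  classical
  let b := Module.finBasis F ((Fin m → F) ⧸ LinearMap.range (cob s t F))
  refine ⟨Module.finrank F ((Fin m → F) ⧸ LinearMap.range (cob s t F)),
    fun e => b.equivFun (vec s t F e), ?_⟩
  intro I _
  rw [indep_iff_vec s t (F := F)]
  have h1 : Function.Injective (b.equivFun.toLinearMap) := b.equivFun.injective
  have := LinearMap.linearIndepOn_iff_of_injOn (v := vec s t F) (s := I) b.equivFun.toLinearMap
    h1.injOn
  exact this.symm

theorem noSeven_B : NoSeven (BMat s t) := by
  intro X hX hs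
  obtain ⟨V, _, _, u, hu⟩ := rep_contract (rep_B s t (F := ZMod 2)) hX
  have hF := seven_fano hu hs
  obtain ⟨V', _, _, u', hu'⟩ := rep_contract (rep_B s t (F := ℚ)) hX
  exact no_fano (two_ne_zero) hu' hF


/-- the star of a vertex -/
def star (x : Fin n) : Set (Fin m) := {e | s e = x ∨ t e = x}

theorem dual_of_cocircuit (hl : ∀ e, s e ≠ t e) {K : Set (Fin m)} (hK : (BMat s t).IsCocircuit K) :
    K.Nonempty ∧ ∀ x : Fin n, Even ({e | e ∈ K ∧ (s e = x ∨ t e = x)} : Set (Fin m)).ncard := by
  classical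
  refine ⟨hK.nonempty, ?_⟩
  obtain ⟨f, _, hf⟩ := exists_of_isCocircuit (vec s t (ZMod 2)) hK
  intro x
  have h1 : f ((LinearMap.range (cob s t (ZMod 2))).mkQ (cob s t (ZMod 2) (Pi.single x 1))) = 0 := by
    have : (LinearMap.range (cob s t (ZMod 2))).mkQ (cob s t (ZMod 2) (Pi.single x 1)) = 0 := by
      rw [Submodule.mkQ_apply, Submodule.Quotient.mk_eq_zero]
      exact ⟨_, rfl⟩
    rw [this, map_zero]
  have h2 : cob s t (ZMod 2) (Pi.single x 1) = ∑ e, (if s e = x ∨ t e = x then (1 : ZMod 2) else 0) •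
      (Pi.single e 1 : Fin m → ZMod 2) := by
    funext e
    rw [Finset.sum_apply]
    simp only [Pi.smul_apply, Pi.single_apply, smul_eq_mul, mul_ite, mul_one, mul_zero]
    rw [Finset.sum_ite_eq]
    simp only [Finset.mem_univ, if_true]
    show (Pi.single x 1 : Fin n → ZMod 2) (s e) - (Pi.single x 1 : Fin n → ZMod 2) (t e) = _
    simp only [Pi.single_apply]
    have := hl e
    by_cases h3 : s e = x
    · have h4 : ¬ t e = x := fun h => this (h3.trans h.symm)
      simp [h3, h4]
    · by_cases h4 : t e = x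
      · simp [h3, h4]
      · simp [h3, h4]
  rw [h2, map_sum, map_sum] at h1
  have h3 : ∑ e, f ((LinearMap.range (cob s t (ZMod 2))).mkQ
      ((if s e = x ∨ t e = x then (1 : ZMod 2) else 0) • (Pi.single e 1 : Fin m → ZMod 2))) =
      ((({e | e ∈ K ∧ (s e = x ∨ t e = x)} : Finset (Fin m)).card : ℕ) : ZMod 2) := by
    rw [Finset.card_filter]
    push_cast
    apply Finset.sum_congr rfl
    intro e _
    rw [map_smul, map_smul]
    have hfe : f (vec s t (ZMod 2) e) ≠ 0 ↔ e ∈ K := by
      rw [← hf]; rfl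
    have h5 : ∀ z : ZMod 2, z = if z ≠ 0 then 1 else 0 := by decide
    have h6 : f ((LinearMap.range (cob s t (ZMod 2))).mkQ (Pi.single e 1)) =
        if e ∈ K then 1 else 0 := by
      have h7 := h5 (f (vec s t (ZMod 2) e))
      rw [show (f ((LinearMap.range (cob s t (ZMod 2))).mkQ (Pi.single e 1))) =
        f (vec s t (ZMod 2) e) from rfl, h7]
      by_cases h8 : e ∈ K
      · rw [if_pos (hfe.2 h8), if_pos h8]
      · rw [if_neg (fun h => h8 (hfe.1 h)), if_neg h8]
    rw [h6]
    by_cases h7 : e ∈ K <;> by_cases h8 : (s e = x ∨ t e = x) <;> simp [h7, h8]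
  rw [h3] at h1
  have h4 : ({e | e ∈ K ∧ (s e = x ∨ t e = x)} : Set (Fin m)).ncard =
      ({e | e ∈ K ∧ (s e = x ∨ t e = x)} : Finset (Fin m)).card := by
    rw [← Set.ncard_coe_finset]
    congr 1
    ext e
    simp
  rw [h4]
  exact (ZMod.natCast_eq_zero_iff_even).1 h1

theorem cocircuit_min (hl : ∀ e, s e ≠ t e) {K D : Set (Fin m)} (hK : (BMat s t).IsCocircuit K)
    (hDK : D ⊆ K) (hD : D.Nonempty)
    (hev : ∀ x : Fin n, Even ({e | e ∈ D ∧ (s e = x ∨ t e = x)} : Set (Fin m)).ncard) : D = K := by
  classical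
  -- the functional
  let g0 : (Fin m → ZMod 2) →ₗ[ZMod 2] ZMod 2 :=
    { toFun := fun c => ∑ e, if e ∈ D then c e else 0
      map_add' := by
        intro a b
        rw [← Finset.sum_add_distrib]
        apply Finset.sum_congr rfl
        intro e _
        split_ifs <;> simp
      map_smul' := by
        intro r a
        simp only [Pi.smul_apply, smul_eq_mul, RingHom.id_apply]
        rw [Finset.mul_sum]
        apply Finset.sum_congr rfl
        intro e _
        split_ifs <;> simp }
  have hg0 : ∀ φ : Fin n → ZMod 2, g0 (cob s t (ZMod 2) φ) = 0 := by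
    intro φ
    have h1 : ∀ e, (if e ∈ D then (cob s t (ZMod 2) φ) e else 0) =
        ∑ x, φ x * (if e ∈ D ∧ (s e = x ∨ t e = x) then 1 else 0) := by
      intro e
      by_cases h : e ∈ D
      · rw [if_pos h]
        have h2 : ∀ x, φ x * (if e ∈ D ∧ (s e = x ∨ t e = x) then (1 : ZMod 2) else 0) =
            (if s e = x then φ x else 0) + (if t e = x then φ x else 0) := by
          intro x
          have := hl e
          by_cases h3 : s e = x
          · have h4 : ¬ t e = x := fun h => this (h3.trans h.symm)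
            simp [h, h3, h4]
          · by_cases h4 : t e = x <;> simp [h, h3, h4]
        simp_rw [h2]
        rw [Finset.sum_add_distrib, Finset.sum_ite_eq, Finset.sum_ite_eq]
        simp only [Finset.mem_univ, if_true]
        show φ (s e) - φ (t e) = _
        rw [CharTwo.sub_eq_add]
      · rw [if_neg h]
        symm
        apply Finset.sum_eq_zero
        intro x _
        simp [h]
    show ∑ e, (if e ∈ D then (cob s t (ZMod 2) φ) e else 0) = 0
    simp_rw [h1]
    rw [Finset.sum_comm]
    apply Finset.sum_eq_zero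
    intro x _
    rw [← Finset.mul_sum]
    have h2 : ∑ e, (if e ∈ D ∧ (s e = x ∨ t e = x) then (1 : ZMod 2) else 0) =
        ((({e | e ∈ D ∧ (s e = x ∨ t e = x)} : Finset (Fin m)).card : ℕ) : ZMod 2) := by
      rw [Finset.card_filter]
      push_cast
      rfl
    have h4 : ({e | e ∈ D ∧ (s e = x ∨ t e = x)} : Set (Fin m)).ncard =
        ({e | e ∈ D ∧ (s e = x ∨ t e = x)} : Finset (Fin m)).card := by
      rw [← Set.ncard_coe_finset]
      congr 1
      ext e
      simp
    have h5 := hev x
    rw [h4] at h5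
    rw [h2, (ZMod.natCast_eq_zero_iff_even).2 h5, mul_zero]
  let g : Module.Dual (ZMod 2) ((Fin m → ZMod 2) ⧸ LinearMap.range (cob s t (ZMod 2))) :=
    (LinearMap.range (cob s t (ZMod 2))).liftQ g0 (by
      rintro _ ⟨φ, rfl⟩
      exact hg0 φ)
  have hgv : ∀ e, g (vec s t (ZMod 2) e) = if e ∈ D then 1 else 0 := by
    intro e
    show g0 (Pi.single e 1) = _
    show ∑ i, (if i ∈ D then (Pi.single e 1 : Fin m → ZMod 2) i else 0) = _
    rw [Finset.sum_eq_single e]
    · simp
    · intro b _ hb
      simp [hb]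
    · intro h
      exact absurd (Finset.mem_univ e) h
  have hsup : {i | g (vec s t (ZMod 2) i) ≠ 0} = D := by
    ext e
    rw [Set.mem_ofPred_eq, hgv]
    by_cases h : e ∈ D <;> simp [h]
  have hK2 := hK
  rw [Matroid.isCocircuit_iff_minimal_compl_nonspanning] at hK2
  apply hK2.eq_of_subset ?_ hDK
  rw [BMat_E, ← Set.compl_eq_univ_sdiff]
  show ¬ (vecMatroid (ZMod 2) (vec s t (ZMod 2))).Spanning (Dᶜ)
  rw [not_spanning_compl_iff]
  obtain ⟨e, he⟩ := hD
  refine ⟨g, ⟨e, ?_⟩, ?_⟩
  · rw [hgv, if_pos he]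
    exact one_ne_zero
  · rw [hsup]

section graph

variable (hH1 : ∀ S : Set (Fin n), (∀ e, ¬ cross s t S e) → S = ∅ ∨ S = univ)
  (hH2 : ∀ (x : Fin n) (S : Set (Fin n)), (∀ e, s e ≠ x → t e ≠ x → ¬ cross s t S e) →
    ∀ y z, y ≠ x → z ≠ x → (y ∈ S ↔ z ∈ S))
  (hdeg : ∀ x : Fin n, 2 ≤ (star s t x).ncard)

include hH2 hdeg

theorem star_circuit (x : Fin n) (hl : ∀ e, s e ≠ t e) : (BMat s t).IsCircuit (star s t x) := by
  rw [Matroid.isCircuit_iff]
  have hcr : ∀ e, cross s t {x} e ↔ e ∈ star s t x := by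
    intro e
    unfold cross star
    have := hl e
    simp only [Set.mem_singleton_iff, Set.mem_ofPred_eq]
    constructor
    · intro h
      by_contra hcon
      push Not at hcon
      exact h ⟨fun h1 => absurd h1 hcon.1, fun h1 => absurd h1 hcon.2⟩
    · rintro (h1 | h1) h2
      · exact this (h1.trans (h2.1 h1).symm)
      · exact this ((h2.2 h1).trans h1.symm)
  refine ⟨?_, ?_⟩
  · rw [dep_B]
    have hne : (star s t x).Nonempty := by
      rw [← Set.ncard_pos]
      have := hdeg x
      omega
    obtain ⟨e, he⟩ := hne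
    exact ⟨{x}, ⟨e, (hcr e).2 he⟩, fun f hf => (hcr f).1 hf⟩
  · intro I hI hIs
    rw [dep_B] at hI
    obtain ⟨S, ⟨e, he⟩, hS⟩ := hI
    apply subset_antisymm hIs
    intro f hf
    apply hS
    have h1 := hH2 x S (fun g hg1 hg2 hg3 => by
      have := hIs (hS g hg3)
      rcases this with h | h
      · exact hg1 h
      · exact hg2 h)
    -- all vertices other than `x` are on the same side
    have he' := hIs (hS e he)
    have hls := hl e
    have hlf := hl f
    unfold cross at he ⊢
    -- a vertex different from x at e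
    obtain ⟨y, hy, hyS⟩ : ∃ y, y ≠ x ∧ ¬ (y ∈ S ↔ x ∈ S) := by
      rcases he' with h | h
      · refine ⟨t e, fun h2 => hls (h.trans h2.symm), ?_⟩
        rw [← h]
        intro h3
        exact he h3.symm
      · refine ⟨s e, fun h2 => hls (h2.trans h.symm), ?_⟩
        rw [← h]
        exact he
    rcases hf with h | h
    · have h2 : t f ≠ x := fun h2 => hlf (h.trans h2.symm)
      have h3 := h1 (t f) y h2 hy
      rw [h]
      intro h4
      exact hyS (h3.symm.trans h4.symm)
    · have h2 : s f ≠ x := fun h2 => hlf (h2.trans h.symm)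
      have h3 := h1 (s f) y h2 hy
      rw [h]
      intro h4
      exact hyS (h3.symm.trans h4)

include hH1

theorem good_B (hl : ∀ e, s e ≠ t e) (hm : 0 < m) : Good (BMat s t) := by
  have hfin : (BMat s t).Finite := vecMatroid_finite _
  refine ⟨hfin, ?_, ?_, ?_⟩
  · rw [BMat_E]
    exact ⟨⟨0, hm⟩, trivial⟩
  · intro e _
    have hI : (BMat s t).Indep {e} := by
      have hC := star_circuit s t hH2 hdeg (s e) hl
      have he : e ∈ star s t (s e) := Or.inl rfl
      obtain ⟨f, hf, hfe⟩ := Set.exists_ne_of_one_lt_ncard (s := star s t (s e))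
        (by have := hdeg (s e); omega) e
      apply (hC.sdiff_singleton_indep hf).subset
      intro z hz
      rw [Set.mem_singleton_iff.1 hz]
      exact ⟨he, fun h => hfe h.symm⟩
    rw [rk_indep (BMat s t) hI, Set.ncard_singleton]
  · intro A hA hAne hBne
    by_contra hcon
    push Not at hcon
    have hEq : A ∪ ((BMat s t).E \ A) = (BMat s t).E := Set.union_sdiff_cancel hA
    have hsk : ∀ x, star s t x ⊆ A ∨ star s t x ⊆ (BMat s t).E \ A := by
      intro x
      apply skew_circuit (BMat s t) (A := A) (B := (BMat s t).E \ A) (by rw [hEq]; exact hcon)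
        (star_circuit s t hH2 hdeg x hl)
      rw [hEq]
      exact Set.subset_univ _
    have h1 := hH1 {x | star s t x ⊆ A} (by
      intro e he
      apply he
      have hA' : ∀ x y, e ∈ star s t x → e ∈ star s t y → star s t x ⊆ A → star s t y ⊆ A := by
        intro x y hx hy hxA
        rcases hsk y with h | h
        · exact h
        · exact absurd (hxA hx) (h hy).2
      have hs : e ∈ star s t (s e) := Or.inl rfl
      have ht : e ∈ star s t (t e) := Or.inr rfl
      exact ⟨fun h => hA' _ _ hs ht h, fun h => hA' _ _ ht hs h⟩)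
    obtain ⟨a, ha⟩ := hAne
    obtain ⟨b, hb⟩ := hBne
    have ha2 : star s t (s a) ⊆ A := by
      rcases hsk (s a) with h | h
      · exact h
      · exact absurd ha (h (Or.inl rfl : a ∈ star s t (s a))).2
    rcases h1 with h1 | h1
    · have : s a ∈ ({x | star s t x ⊆ A} : Set (Fin n)) := ha2
      rw [h1] at this
      exact this
    · have : s b ∈ ({x | star s t x ⊆ A} : Set (Fin n)) := by rw [h1]; trivial
      exact hb.2 (this (Or.inl rfl : b ∈ star s t (s b)))

end graph

end Pool.Agent.W148.BM
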