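import Pool.Agent.W275.US.Stm

/-!
# KLS for unconditional sums: the angular part of the variance, all blocks
-/

set_option autoImplicit false

namespace Pool.Agent.W148.USAngAll

open MeasureTheory Set Pool.Agent.W275.US
open scoped ENNReal InnerProductSpace

variable {b d : ℕ}

theorem p_dir_le {p : Seminorm ℝ (E d)} (hp : Def p) (u : E d) : p (dir p u) ≤ 1 := by
  by_cases hu : u = 0
  · subst hu
    simp [dir]
  · exact (p_dir hp hu).le

theorem p_smul_dir_le {p : Seminorm ℝ (E d)} (hp : Def p) (y u : E d) : p (p y • dir p u) ≤ p y := by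
  rw [map_smul_eq_mul, Real.norm_eq_abs, abs_of_nonneg (apply_nonneg p y)]
  exact mul_le_of_le_one_right (apply_nonneg p y) (p_dir_le hp u)

theorem p_smul_dir {p : Seminorm ℝ (E d)} (hp : Def p) (y : E d) {u : E d} (hu : u ≠ 0) :
    p (p y • dir p u) = p y := by
  rw [map_smul_eq_mul, Real.norm_eq_abs, abs_of_nonneg (apply_nonneg p y), p_dir hp hu, mul_one]

theorem blk_turn (p : Fin b → Seminorm ℝ (E d)) (u : Fin b → E d) (x : X b d) (i : Fin b) :
    blk i (turn p u x) = p i (blk i x) • dir (p i) (u i) := rfl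

theorem blk_rep (i j : Fin b) (y : E d) (x : X b d) :
    blk j (rep i y x) = if j = i then y else blk j x := by
  unfold rep
  rw [blk_cat, Function.update_apply]

theorem turn_turn {p : Fin b → Seminorm ℝ (E d)} (hp : ∀ i, Def (p i)) {u : Fin b → E d}
    (hu : ∀ i, u i ≠ 0) (v : Fin b → E d) (x : X b d) : turn p v (turn p u x) = turn p v x := by
  unfold turn
  congr 1
  funext i
  rw [blk_cat, p_smul_dir (hp i) _ (hu i)]

theorem turn_update {p : Fin b → Seminorm ℝ (E d)} (hp : ∀ i, Def (p i)) {u : Fin b → E d}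
    (hu : ∀ i, u i ≠ 0) (i : Fin b) (v : E d) (x : X b d) :
    turn p (Function.update u i v) x
      = rep i (p i (blk i (turn p u x)) • dir (p i) v) (turn p u x) := by
  rw [blk_turn, p_smul_dir (hp i) _ (hu i)]
  unfold rep turn
  congr 1
  funext j
  by_cases hj : j = i
  · subst hj
    simp
  · rw [Function.update_of_ne hj, Function.update_of_ne hj, blk_cat]

theorem avg_turn {p : Fin b → Seminorm ℝ (E d)} (hp : ∀ i, Def (p i)) {u : Fin b → E d}
    (hu : ∀ i, u i ≠ 0) (f : X b d → ℝ) (x : X b d) : avg p f (turn p u x) = avg p f x := by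
  unfold avg
  simp only [turn_turn hp hu]

theorem uu_ne {p : Fin b → Seminorm ℝ (E d)} (hd : 1 ≤ d) (hp : ∀ i, Def (p i)) :
    ∀ᵐ u ∂(uu p), ∀ i, u i ≠ 0 := by
  have : ∀ i, IsProbabilityMeasure (unif (p i)) := fun i => unif_prob (hp i)
  rw [ae_all_iff]
  intro i
  exact (measurePreserving_eval (fun i => unif (p i)) i).quasiMeasurePreserving.ae
    (unif_ne (p := p i) hd)

theorem blk_cont (i : Fin b) : Continuous (blk (d := d) i) :=
  (PiLp.continuous_toLp 2 _).comp (continuous_pi fun k => PiLp.continuous_apply 2 _ (i, k))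

theorem cat_cont : Continuous (cat : (Fin b → E d) → X b d) :=
  (PiLp.continuous_toLp 2 _).comp (continuous_pi fun q =>
    (PiLp.continuous_apply 2 _ q.2).comp (continuous_apply q.1))

theorem dir_meas (p : Seminorm ℝ (E d)) : Measurable (dir p) := by
  unfold dir
  exact (p_cont p).measurable.inv.smul measurable_id

/-- the set where the density does not vanish is contained in a compact set -/
theorem compact_S {p : Fin b → Seminorm ℝ (E d)} (hp : ∀ i, Def (p i)) (a : Fin b → ℝ) :
    IsCompact {x : X b d | ∀ j, p j (blk j x) ≤ a j} := by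
  have h1 : ∀ j, IsCompact {y : E d | p j y ≤ a j} := by
    intro j
    obtain ⟨C, hC0, hC⟩ := norm_le (hp j)
    refine (isCompact_closedBall 0 (C * a j)).of_isClosed_subset
      (isClosed_le (p_cont (p j)) continuous_const) fun y hy => ?_
    rw [mem_closedBall_zero_iff]
    exact (hC y).trans (mul_le_mul_of_nonneg_left hy hC0.le)
  have h2 := (isCompact_univ_pi h1).image cat_cont
  convert h2 using 1
  ext x
  constructor
  · intro hx
    exact ⟨fun i => blk i x, fun j _ => hx j, rfl⟩
  · rintro ⟨v, hv, rfl⟩ j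
    exact hv j (mem_univ j)

theorem turn_meas (p : Fin b → Seminorm ℝ (E d)) :
    Measurable fun q : X b d × (Fin b → E d) => turn p q.2 q.1 := by
  unfold turn
  refine cat_cont.measurable.comp (measurable_pi_iff.2 fun i => ?_)
  exact (((p_cont (p i)).comp (blk_cont i)).measurable.comp measurable_fst).smul
    ((dir_meas (p i)).comp ((measurable_pi_apply i).comp measurable_snd))

theorem rep_meas (p : Fin b → Seminorm ℝ (E d)) (i : Fin b) :
    Measurable fun q : X b d × E d => rep i (p i (blk i q.1) • dir (p i) q.2) q.1 := by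
  unfold rep
  refine cat_cont.measurable.comp (measurable_pi_iff.2 fun j => ?_)
  by_cases hj : j = i
  · subst hj
    simp only [Function.update_self]
    exact (((p_cont (p j)).comp (blk_cont j)).measurable.comp measurable_fst).smul
      ((dir_meas (p j)).comp measurable_snd)
  · simp only [Function.update_of_ne hj]
    exact (blk_cont j).measurable.comp measurable_fst

theorem p_blk_turn {p : Fin b → Seminorm ℝ (E d)} (hp : ∀ i, Def (p i)) {u : Fin b → E d}
    (hu : ∀ i, u i ≠ 0) (x : X b d) (j : Fin b) :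
    p j (blk j (turn p u x)) = p j (blk j x) := by
  rw [blk_turn, p_smul_dir (hp j) _ (hu j)]

/-- integrals of `G² ρ` through the polar decomposition -/
theorem polar_int (h_mp : S_mp) {p : Fin b → Seminorm ℝ (E d)} (hd : 1 ≤ d)
    (hp : ∀ i, Def (p i)) {ρ : X b d → ℝ} (hρm : Measurable ρ) (hρi : Integrable ρ)
    (hρt : ∀ u : Fin b → E d, (∀ i, u i ≠ 0) → ∀ x, ρ (turn p u x) = ρ x)
    {G : X b d → ℝ} (hG : Measurable G) {C : ℝ} (hC : ∀ x, |G x| ≤ C) :
    ∫ x, G x ^ 2 * ρ x = ∫ x, (∫ u, G (turn p u x) ^ 2 ∂(uu p)) * ρ x ∧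
    Integrable fun x => (∫ u, G (turn p u x) ^ 2 ∂(uu p)) * ρ x := by
  have hpr : ∀ i, IsProbabilityMeasure (unif (p i)) := fun i => unif_prob (hp i)
  have hpu : IsProbabilityMeasure (uu p) := by
    unfold uu
    infer_instance
  have hmp := h_mp b d hd p hp
  have hC2 : ∀ x, |G x ^ 2| ≤ C ^ 2 := fun x => by
    rw [abs_pow]
    exact pow_le_pow_left₀ (abs_nonneg _) (hC x) 2
  have hΦ := turn_meas p
  have e1 : ∫ x, G x ^ 2 * ρ x
      = ∫ q, G (turn p q.2 q.1) ^ 2 * ρ (turn p q.2 q.1) ∂(volume.prod (uu p)) := by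
    conv_lhs => rw [← hmp.map_eq]
    rw [integral_map hΦ.aemeasurable]
    exact ((hG.pow_const 2).mul hρm).aestronglyMeasurable
  have e2 : ∫ q, G (turn p q.2 q.1) ^ 2 * ρ (turn p q.2 q.1) ∂(volume.prod (uu p))
      = ∫ q, G (turn p q.2 q.1) ^ 2 * ρ q.1 ∂((volume : Measure (X b d)).prod (uu p)) := by
    refine integral_congr_ae ?_
    have h1 : ∀ᵐ q ∂((volume : Measure (X b d)).prod (uu p)), ∀ i, q.2 i ≠ 0 :=
      Measure.quasiMeasurePreserving_snd.ae (uu_ne hd hp)
    filter_upwards [h1] with q hq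
    rw [hρt q.2 hq q.1]
  have hint : Integrable (fun q : X b d × (Fin b → E d) => G (turn p q.2 q.1) ^ 2 * ρ q.1)
      ((volume : Measure (X b d)).prod (uu p)) := by
    refine (hρi.comp_fst (uu p)).bdd_mul (c := C ^ 2) ?_ ?_
    · exact ((hG.pow_const 2).comp hΦ).aestronglyMeasurable
    · exact Filter.Eventually.of_forall fun q => hC2 _
  have e3 := integral_prod _ hint
  have hmul : (fun x => ∫ u, G (turn p u x) ^ 2 * ρ x ∂(uu p))
      = fun x => (∫ u, G (turn p u x) ^ 2 ∂(uu p)) * ρ x := by
    funext x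
    exact integral_mul_const _ _
  refine ⟨?_, ?_⟩
  · rw [e1, e2, e3]
    exact congrArg (fun g : X b d → ℝ => ∫ x, g x) hmul
  · have := hint.integral_prod_left
    rw [← hmul]
    exact this

theorem avg_meas {p : Fin b → Seminorm ℝ (E d)} (hp : ∀ i, Def (p i)) {F : X b d → ℝ}
    (hF : Measurable F) : Measurable (avg p F) := by
  have hpr : ∀ i, IsProbabilityMeasure (unif (p i)) := fun i => unif_prob (hp i)
  have hpu : IsProbabilityMeasure (uu p) := by
    unfold uu
    infer_instance
  have h : StronglyMeasurable (Function.uncurry fun (x : X b d) (u : Fin b → E d) =>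
      F (turn p u x)) := (hF.comp (turn_meas p)).stronglyMeasurable
  exact h.integral_prod_right.measurable

theorem avg_bdd {p : Fin b → Seminorm ℝ (E d)} (hp : ∀ i, Def (p i)) {F : X b d → ℝ} {B : ℝ}
    (hB : ∀ x, |F x| ≤ B) (x : X b d) : |avg p F x| ≤ B := by
  have hpr : ∀ i, IsProbabilityMeasure (unif (p i)) := fun i => unif_prob (hp i)
  have hpu : IsProbabilityMeasure (uu p) := by
    unfold uu
    infer_instance
  have h := norm_integral_le_of_norm_le_const (μ := uu p) (f := fun u => F (turn p u x)) (C := B)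
    (Filter.Eventually.of_forall fun u => hB _)
  rw [probReal_univ, mul_one] at h
  exact h

/-- average of `f` over the direction of the block `i` -/
noncomputable def av1 (p : Fin b → Seminorm ℝ (E d)) (i : Fin b) (f : X b d → ℝ) (x : X b d) : ℝ :=
  ∫ v, f (rep i (p i (blk i x) • dir (p i) v) x) ∂(unif (p i))

theorem av1_meas {p : Fin b → Seminorm ℝ (E d)} (hp : ∀ i, Def (p i)) (i : Fin b) {F : X b d → ℝ}
    (hF : Measurable F) : Measurable (av1 p i F) := by
  have hpr : ∀ i, IsProbabilityMeasure (unif (p i)) := fun i => unif_prob (hp i)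
  have h : StronglyMeasurable (Function.uncurry fun (x : X b d) (v : E d) =>
      F (rep i (p i (blk i x) • dir (p i) v) x)) := (hF.comp (rep_meas p i)).stronglyMeasurable
  exact h.integral_prod_right.measurable

theorem av1_bdd {p : Fin b → Seminorm ℝ (E d)} (hp : ∀ i, Def (p i)) (i : Fin b) {F : X b d → ℝ}
    {B : ℝ} (hB : ∀ x, |F x| ≤ B) (x : X b d) : |av1 p i F x| ≤ B := by
  have hpr : ∀ i, IsProbabilityMeasure (unif (p i)) := fun i => unif_prob (hp i)
  have h := norm_integral_le_of_norm_le_const (μ := unif (p i))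
    (f := fun v => F (rep i (p i (blk i x) • dir (p i) v) x)) (C := B)
    (Filter.Eventually.of_forall fun u => hB _)
  rw [probReal_univ, mul_one] at h
  exact h

theorem core (h_es : S_es) (h_mp : S_mp) {p : Fin b → Seminorm ℝ (E d)} (hd : 1 ≤ d)
    (hp : ∀ i, Def (p i)) {ρ : X b d → ℝ} (hρm : Measurable ρ) (hρ0 : ∀ x, 0 ≤ ρ x)
    (hρi : Integrable ρ)
    (hρt : ∀ u : Fin b → E d, (∀ i, u i ≠ 0) → ∀ x, ρ (turn p u x) = ρ x)
    {F : X b d → ℝ} (hF : Measurable F) {B : ℝ} (hB : ∀ x, |F x| ≤ B) :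
    ∫ x, (F x - avg p F x) ^ 2 * ρ x ≤ ∑ i, ∫ x, (F x - av1 p i F x) ^ 2 * ρ x := by
  have hpr : ∀ i, IsProbabilityMeasure (unif (p i)) := fun i => unif_prob (hp i)
  have hpu : IsProbabilityMeasure (uu p) := by
    unfold uu
    infer_instance
  have hA : Measurable fun x => F x - avg p F x := hF.sub (avg_meas hp hF)
  have hAb : ∀ x, |F x - avg p F x| ≤ B + B := fun x =>
    (abs_sub _ _).trans (add_le_add (hB x) (avg_bdd hp hB x))
  have hI : ∀ i, Measurable fun x => F x - av1 p i F x := fun i => hF.sub (av1_meas hp i hF)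
  have hIb : ∀ i x, |F x - av1 p i F x| ≤ B + B := fun i x =>
    (abs_sub _ _).trans (add_le_add (hB x) (av1_bdd hp i hB x))
  obtain ⟨e0, i0⟩ := polar_int h_mp hd hp hρm hρi hρt hA hAb
  have e := fun i => polar_int h_mp hd hp hρm hρi hρt (hI i) (hIb i)
  rw [e0, Finset.sum_congr rfl fun i _ => (e i).1, ← integral_finsetSum _ fun i _ => (e i).2]
  refine integral_mono i0 (integrable_finsetSum _ fun i _ => (e i).2) fun x => ?_
  show (∫ u, (F (turn p u x) - avg p F (turn p u x)) ^ 2 ∂(uu p)) * ρ x ≤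
    ∑ i, (∫ u, (F (turn p u x) - av1 p i F (turn p u x)) ^ 2 ∂(uu p)) * ρ x
  rw [← Finset.sum_mul]
  refine mul_le_mul_of_nonneg_right ?_ (hρ0 x)
  have hne := uu_ne hd hp
  have hm : Measurable fun u : Fin b → E d => F (turn p u x) :=
    hF.comp ((turn_meas p).comp (measurable_const.prodMk measurable_id))
  have hLp : MemLp (fun u : Fin b → E d => F (turn p u x)) 2 (uu p) :=
    MemLp.of_bound hm.aestronglyMeasurable B (Filter.Eventually.of_forall fun u => hB _)
  have l1 : ∫ u, (F (turn p u x) - avg p F (turn p u x)) ^ 2 ∂(uu p)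
      = ∫ u, F (turn p u x) ^ 2 ∂(uu p) - (∫ u, F (turn p u x) ∂(uu p)) ^ 2 := by
    have v1 := ProbabilityTheory.variance_eq_sub hLp
    have v2 := ProbabilityTheory.variance_eq_integral (μ := uu p) hm.aemeasurable
    have v3 : ∫ u, (F (turn p u x) - avg p F (turn p u x)) ^ 2 ∂(uu p)
        = ∫ u, (F (turn p u x) - ∫ u, F (turn p u x) ∂(uu p)) ^ 2 ∂(uu p) := by
      refine integral_congr_ae ?_
      filter_upwards [hne] with u hu
      rw [avg_turn hp hu]
      rfl
    rw [v3, ← v2, v1]
    rfl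
  have l2 : ∀ i, ∫ u, (F (turn p u x) - av1 p i F (turn p u x)) ^ 2 ∂(uu p)
      = ∫ u, (F (turn p u x)
        - ∫ v, F (turn p (Function.update u i v) x) ∂(unif (p i))) ^ 2 ∂(uu p) := by
    intro i
    refine integral_congr_ae ?_
    filter_upwards [hne] with u hu
    simp only [turn_update hp hu i]
    rfl
  rw [l1, Finset.sum_congr rfl fun i _ => l2 i]
  exact h_es b (E d) (fun i => unif (p i)) (fun u => F (turn p u x)) hm ⟨B, fun u => hB _⟩

theorem main (h_es : S_es) (h_mp : S_mp) (h_ang : S_ang) : S_angAll := by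
  intro b d hd p hp K a hK ha hP ρ hρm hρ0 hρi hR hmono hvan f hf
  have hρt : ∀ u : Fin b → E d, (∀ i, u i ≠ 0) → ∀ x, ρ (turn p u x) = ρ x := by
    intro u hu x
    apply le_antisymm
    · exact hmono _ _ fun j => (p_blk_turn hp hu x j).ge
    · exact hmono _ _ fun j => (p_blk_turn hp hu x j).le
  set S : Set (X b d) := {x | ∀ j, p j (blk j x) ≤ a j} with hS
  have hSc : IsCompact S := compact_S hp a
  obtain ⟨B, hB⟩ := hSc.exists_bound_of_continuousOn hf.continuous.continuousOn
  have hSρ : ∀ x, x ∉ S → ρ x = 0 := by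
    intro x hx
    have : ∃ j, a j < p j (blk j x) := by
      by_contra hcon
      push Not at hcon
      exact hx hcon
    obtain ⟨j, hj⟩ := this
    exact hvan j x hj
  set F : X b d → ℝ := S.indicator f with hFdef
  have hF : Measurable F := hf.continuous.measurable.indicator hSc.measurableSet
  have hFb : ∀ x, |F x| ≤ max B 0 := by
    intro x
    by_cases hx : x ∈ S
    · rw [hFdef, indicator_of_mem hx]
      exact (hB x hx).trans (le_max_left _ _)
    · rw [hFdef, indicator_of_notMem hx, abs_zero]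
      exact le_max_right _ _
  have hturn : ∀ x ∈ S, ∀ u, turn p u x ∈ S := by
    intro x hx u j
    rw [blk_turn]
    exact (p_smul_dir_le (hp j) _ _).trans (hx j)
  have hrep : ∀ x ∈ S, ∀ i, ∀ v, rep i (p i (blk i x) • dir (p i) v) x ∈ S := by
    intro x hx i v j
    rw [blk_rep]
    by_cases hj : j = i
    · subst hj
      rw [if_pos rfl]
      exact (p_smul_dir_le (hp j) _ _).trans (hx j)
    · rw [if_neg hj]
      exact hx j
  have q1 : ∀ x, (f x - avg p f x) ^ 2 * ρ x = (F x - avg p F x) ^ 2 * ρ x := by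
    intro x
    by_cases hx : x ∈ S
    · have a1 : F x = f x := indicator_of_mem hx f
      have a2 : avg p F x = avg p f x := by
        unfold avg
        refine integral_congr_ae (Filter.Eventually.of_forall fun u => ?_)
        exact indicator_of_mem (hturn x hx u) f
      rw [a1, a2]
    · rw [hSρ x hx, mul_zero, mul_zero]
  have q2 : ∀ i x, (f x - av1 p i f x) ^ 2 * ρ x = (F x - av1 p i F x) ^ 2 * ρ x := by
    intro i x
    by_cases hx : x ∈ S
    · have a1 : F x = f x := indicator_of_mem hx f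
      have a2 : av1 p i F x = av1 p i f x := by
        unfold av1
        refine integral_congr_ae (Filter.Eventually.of_forall fun v => ?_)
        exact indicator_of_mem (hrep x hx i v) f
      rw [a1, a2]
    · rw [hSρ x hx, mul_zero, mul_zero]
  have hcore := core h_es h_mp hd hp hρm hρ0 hρi hρt hF hFb
  simp only [← q1, ← q2] at hcore
  refine hcore.trans (Finset.sum_le_sum fun i _ => ?_)
  exact h_ang b d hd p hp i (K i) (a i) (hK i) (ha i) (hP i) ρ hρm hρ0 hρi hR hmono (hvan i) f hf

end Pool.Agent.W148.USAngAll
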