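import Pool.Agent.W668.Uni.Stmts

/-!
# UNI-IFT: implicit function theorem with values in a closed subspace
-/

set_option autoImplicit false

open Set Filter
open scoped ContDiff Topology

namespace Pool.Agent.W148.Uni

open Pool.Agent.W668.Uni

/-- if `ι ∘ f` is differentiable, so is `f` (`ι` isometric embedding of a complete space) -/
theorem exists_hasFDerivAt_of_comp {D F G : Type} [NormedAddCommGroup D] [NormedSpace ℝ D]
    [NormedAddCommGroup F] [NormedSpace ℝ F] [CompleteSpace F]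
    [NormedAddCommGroup G] [NormedSpace ℝ G] (ι : F →ₗᵢ[ℝ] G) (f : D → F) (x : D)
    (A : D →L[ℝ] G) (hA : HasFDerivAt (fun y => ι (f y)) A x) :
    ∃ B : D →L[ℝ] F, HasFDerivAt f B x ∧ ι.toContinuousLinearMap.comp B = A := by
  have hcl : IsClosed (Set.range ι) := ι.isometry.isClosedEmbedding.isClosed_range
  have hmem : ∀ v : D, A v ∈ Set.range ι := by
    intro v
    have h1 : HasDerivAt (fun t : ℝ => ι (f (x + t • v))) (A v) 0 := by
      have h2 : HasDerivAt (fun t : ℝ => x + t • v) v 0 := by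
        simpa using ((hasDerivAt_id (0 : ℝ)).smul_const v).const_add x
      have h3 : HasFDerivAt (fun y => ι (f y)) A (x + (0 : ℝ) • v) := by simpa using hA
      exact h3.comp_hasDerivAt 0 h2
    rw [hasDerivAt_iff_tendsto_slope] at h1
    refine hcl.mem_of_tendsto h1 (Eventually.of_forall fun t => ?_)
    refine ⟨(t - 0)⁻¹ • (f (x + t • v) - f (x + (0 : ℝ) • v)), ?_⟩
    simp [slope_def_module]
  choose g hg using hmem
  have hadd : ∀ u v : D, g (u + v) = g u + g v := by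
    intro u v
    apply ι.injective
    rw [map_add, hg, hg, hg, map_add]
  have hsmul : ∀ (r : ℝ) (v : D), g (r • v) = r • g v := by
    intro r v
    apply ι.injective
    rw [map_smul, hg, hg, map_smul]
  let B : D →L[ℝ] F := LinearMap.mkContinuous
    { toFun := g, map_add' := hadd, map_smul' := hsmul } ‖A‖ (by
      intro v
      change ‖g v‖ ≤ _
      rw [← ι.norm_map, hg]
      exact A.le_opNorm v)
  have hB : ∀ v, ι (B v) = A v := fun v => hg v
  refine ⟨B, ?_, ?_⟩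
  · rw [hasFDerivAt_iff_isLittleO_nhds_zero] at hA ⊢
    rw [← Asymptotics.isLittleO_norm_left] at hA ⊢
    refine hA.congr (fun h => ?_) (fun _ => rfl)
    rw [← ι.norm_map (f (x + h) - f x - B h), map_sub, map_sub, hB]
  · ext v
    exact hB v

theorem contDiffOn_of_comp_nat {D : Type} [NormedAddCommGroup D] [NormedSpace ℝ D]
    {s : Set D} (hs : IsOpen s) (n : ℕ) :
    ∀ (F G : Type) [NormedAddCommGroup F] [NormedSpace ℝ F] [CompleteSpace F]
      [NormedAddCommGroup G] [NormedSpace ℝ G] (ι : F →ₗᵢ[ℝ] G) (f : D → F),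
      ContDiffOn ℝ n (fun x => ι (f x)) s → ContDiffOn ℝ n f s := by
  induction n with
  | zero =>
    intro F G _ _ _ _ _ ι f h
    simp only [Nat.cast_zero, contDiffOn_zero] at h ⊢
    exact (ι.isometry.isEmbedding.isInducing.continuousOn_iff).2 h
  | succ n ih =>
    intro F G _ _ _ _ _ ι f h
    have h' : ContDiffOn ℝ ((n : ℕ∞ω) + 1) (fun x => ι (f x)) s := by
      simpa using h
    rw [contDiffOn_succ_iff_fderiv_of_isOpen hs] at h'
    obtain ⟨h1, -, h2⟩ := h'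
    have key : ∀ x ∈ s, ∃ B : D →L[ℝ] F, HasFDerivAt f B x ∧
        ι.toContinuousLinearMap.comp B = fderiv ℝ (fun x => ι (f x)) x := fun x hx =>
      exists_hasFDerivAt_of_comp ι f x _ ((h1 x hx).differentiableAt (hs.mem_nhds hx)).hasFDerivAt
    have goal : ContDiffOn ℝ ((n : ℕ∞ω) + 1) f s := by
      rw [contDiffOn_succ_iff_fderiv_of_isOpen hs]
      refine ⟨fun x hx => ?_, fun h => ?_, ?_⟩
      · obtain ⟨B, hB, -⟩ := key x hx
        exact hB.differentiableAt.differentiableWithinAt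
      · exact absurd h (by simp)
      · let κ : (D →L[ℝ] F) →ₗᵢ[ℝ] (D →L[ℝ] G) :=
          { toFun := fun B => ι.toContinuousLinearMap.comp B
            map_add' := fun _ _ => by ext; simp
            map_smul' := fun _ _ => by ext; simp
            norm_map' := fun B => ι.norm_toContinuousLinearMap_comp }
        refine ih (D →L[ℝ] F) (D →L[ℝ] G) κ (fderiv ℝ f) ?_
        refine h2.congr fun x hx => ?_
        obtain ⟨B, hB, hB2⟩ := key x hx
        rw [hB.fderiv, ← hB2]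
        rfl
    simpa using goal

/-- corestriction along an isometric embedding of a complete space is smooth -/
theorem contDiffOn_of_comp {D : Type} [NormedAddCommGroup D] [NormedSpace ℝ D]
    {s : Set D} (hs : IsOpen s)
    {F G : Type} [NormedAddCommGroup F] [NormedSpace ℝ F] [CompleteSpace F]
    [NormedAddCommGroup G] [NormedSpace ℝ G] (ι : F →ₗᵢ[ℝ] G) (f : D → F)
    (h : ContDiffOn ℝ ∞ (fun x => ι (f x)) s) : ContDiffOn ℝ ∞ f s := by
  rw [contDiffOn_infty] at h ⊢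
  exact fun n => contDiffOn_of_comp_nat hs n F G ι f (h n)

theorem ift_abs {F : Type} [NormedAddCommGroup F] [NormedSpace ℝ F] [CompleteSpace F]
    (f : (ℝ × ℝ) × F → F) (Ω : Set ((ℝ × ℝ) × F)) (hΩ : IsOpen Ω)
    (h0 : ((0 : ℝ × ℝ), (0 : F)) ∈ Ω)
    (hf : ContDiffOn ℝ ∞ f Ω) (hf0 : f (0, 0) = 0)
    (hinv : (fderiv ℝ f (0, 0) ∘L .inr ℝ (ℝ × ℝ) F).IsInvertible) :
    ∃ (δ : ℝ) (ψ : ℝ × ℝ → F), 0 < δ ∧ ContDiffOn ℝ ∞ ψ {q | |q.1| < δ ∧ |q.2| < δ} ∧
      ψ 0 = 0 ∧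
      ∀ q : ℝ × ℝ, |q.1| < δ → |q.2| < δ → (q, ψ q) ∈ Ω ∧ f (q, ψ q) = 0 ∧
        ∀ g : F, ‖g‖ < δ → f (q, g) = 0 → g = ψ q := by
  have ninf : (∞ : ℕ∞ω) ≠ 0 := by simp
  have cd0 : ContDiffAt ℝ ∞ f (0, 0) := hf.contDiffAt (hΩ.mem_nhds h0)
  set ψ := cd0.implicitFunction ninf hinv with hψ
  have e1 : ψ 0 = 0 := cd0.implicitFunction_apply_self ninf hinv
  have e2 : ∀ᶠ q in 𝓝 (0 : ℝ × ℝ), f (q, ψ q) = 0 := by
    have := cd0.eventually_apply_implicitFunction ninf hinv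
    rw [hf0] at this
    exact this
  have e3 : ∀ᶠ v in 𝓝 ((0 : ℝ × ℝ), (0 : F)), f v = 0 ↔ ψ v.1 = v.2 := by
    have := cd0.eventually_apply_eq_iff_implicitFunction ninf hinv
    rw [hf0] at this
    exact this
  have e4 : ContDiffAt ℝ ∞ ψ 0 := cd0.contDiffAt_implicitFunction ninf hinv
  have e4' : ∀ᶠ q in 𝓝 (0 : ℝ × ℝ), ContinuousAt ψ q := by
    have h1 : ContDiffAt ℝ 1 ψ 0 := e4.of_le (by simp)
    filter_upwards [h1.eventually (by simp)] with q hq using hq.continuousAt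
  have cont0 : ContinuousAt (fun q : ℝ × ℝ => (q, ψ q)) 0 :=
    continuousAt_id.prodMk e4.continuousAt
  have cont0' : Tendsto (fun q : ℝ × ℝ => (q, ψ q)) (𝓝 0) (𝓝 ((0 : ℝ × ℝ), (0 : F))) := by
    have := cont0.tendsto
    simpa [e1] using this
  have e5 : ∀ᶠ v in 𝓝 ((0 : ℝ × ℝ), (0 : F)),
      (fderiv ℝ f v ∘L .inr ℝ (ℝ × ℝ) F).IsInvertible := by
    have h1 : ContinuousAt (fun v => (fderiv ℝ f v ∘L .inr ℝ (ℝ × ℝ) F)) ((0 : ℝ × ℝ), (0 : F)) := by
      have h2 : ContinuousAt (fderiv ℝ f) ((0 : ℝ × ℝ), (0 : F)) := by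
        have h3 : ContDiffAt ℝ 0 (fderiv ℝ f) ((0 : ℝ × ℝ), (0 : F)) :=
          cd0.fderiv_right (by simp)
        exact h3.continuousAt
      exact h2.clm_comp continuousAt_const
    have h4 : IsOpen (Set.range ((↑) : (F ≃L[ℝ] F) → F →L[ℝ] F)) := ContinuousLinearEquiv.isOpen
    have h5 := h1.eventually (h4.mem_nhds hinv)
    exact h5
  have e6 : ∀ᶠ q in 𝓝 (0 : ℝ × ℝ), (q, ψ q) ∈ Ω := cont0'.eventually (hΩ.mem_nhds h0)
  have e7 := cont0'.eventually e5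
  have e8 : ∀ᶠ q in 𝓝 (0 : ℝ × ℝ), ContDiffAt ℝ ∞ ψ q := by
    filter_upwards [e2, e6, e7, e4', eventually_eventually_nhds.2 e2] with q q1 q2 q3 q4 q5
    have cdq : ContDiffAt ℝ ∞ f (q, ψ q) := hf.contDiffAt (hΩ.mem_nhds q2)
    have h1 := cdq.eventually_apply_eq_iff_implicitFunction ninf q3
    have h2 : ContinuousAt (fun q' : ℝ × ℝ => (q', ψ q')) q := continuousAt_id.prodMk q4
    have h3 := h2.eventually h1
    have h4 : ψ =ᶠ[𝓝 q] cdq.implicitFunction ninf q3 := by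
      filter_upwards [h3, q5] with q' a1 a2
      exact (a1.1 (by rw [a2, q1])).symm
    exact (cdq.contDiffAt_implicitFunction ninf q3).congr_of_eventuallyEq h4
  have e9 : ∀ᶠ q in 𝓝 (0 : ℝ × ℝ), ContDiffAt ℝ ∞ ψ q ∧ (q, ψ q) ∈ Ω ∧ f (q, ψ q) = 0 := by
    filter_upwards [e8, e6, e2] with q a b c using ⟨a, b, c⟩
  obtain ⟨r₁, hr₁, h₁⟩ := Metric.eventually_nhds_iff.1 e9
  obtain ⟨r₂, hr₂, h₂⟩ := Metric.eventually_nhds_iff.1 e3
  refine ⟨min r₁ r₂, ψ, lt_min hr₁ hr₂, ?_, e1, ?_⟩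
  · intro q hq
    have hd : dist q 0 < r₁ := by
      rw [dist_zero_right, Prod.norm_def]
      exact max_lt (lt_of_lt_of_le hq.1 (min_le_left _ _)) (lt_of_lt_of_le hq.2 (min_le_left _ _))
    exact (h₁ hd).1.contDiffWithinAt
  · intro q hq1 hq2
    have hd : dist q 0 < min r₁ r₂ := by
      rw [dist_zero_right, Prod.norm_def]
      exact max_lt hq1 hq2
    obtain ⟨-, a2, a3⟩ := h₁ (lt_of_lt_of_le hd (min_le_left _ _))
    refine ⟨a2, a3, fun g hg hfg => ?_⟩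
    have hd2 : dist (q, g) ((0 : ℝ × ℝ), (0 : F)) < r₂ := by
      rw [Prod.dist_eq]
      refine max_lt (lt_of_lt_of_le hd (min_le_right _ _)) ?_
      simpa using lt_of_lt_of_le hg (min_le_right _ _)
    exact ((h₂ hd2).1 hfg).symm

/-- abstract version of `P_ift` for a closed subspace `W` of a Banach space `V` -/
theorem ift_sub {V : Type} [NormedAddCommGroup V] [NormedSpace ℝ V] [CompleteSpace V]
    (W : Submodule ℝ V) (hcl : IsClosed (W : Set V)) (H : ℝ × ℝ × W → V) (L : W →L[ℝ] V)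
    (Ω : Set (ℝ × ℝ × W)) (hΩ : IsOpen Ω) (h0 : (0, 0, 0) ∈ Ω) (hH : ContDiffOn ℝ ∞ H Ω)
    (hmem : ∀ p ∈ Ω, H p ∈ W) (hH0 : H (0, 0, 0) = 0)
    (hder : ∀ g : W, HasDerivAt (fun s : ℝ => H (0, 0, s • g)) (L g) 0)
    (huniq : ∀ r : W, ∃! g : W, L g = (r : V)) :
    ∃ (δ : ℝ) (G : ℝ × ℝ → W), 0 < δ ∧ ContDiffOn ℝ ∞ G {q | |q.1| < δ ∧ |q.2| < δ} ∧
    G (0, 0) = 0 ∧
    ∀ q : ℝ × ℝ, |q.1| < δ → |q.2| < δ →
      (q.1, q.2, G q) ∈ Ω ∧ H (q.1, q.2, G q) = 0 ∧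
      ∀ g : W, ‖g‖ < δ → H (q.1, q.2, g) = 0 → g = G q := by
  have : CompleteSpace W := hcl.completeSpace_coe
  classical
  let f : (ℝ × ℝ) × W → W := fun p =>
    if h : H (p.1.1, p.1.2, p.2) ∈ W then ⟨H (p.1.1, p.1.2, p.2), h⟩ else 0
  let e : (ℝ × ℝ) × W → ℝ × ℝ × W := fun p => (p.1.1, p.1.2, p.2)
  have he : ContDiff ℝ ∞ e := by fun_prop
  let Ω' := e ⁻¹' Ω
  have hΩ' : IsOpen Ω' := hΩ.preimage he.continuous
  have hfe : ∀ p ∈ Ω', ((f p : W) : V) = H (e p) := by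
    intro p hp
    have : H (p.1.1, p.1.2, p.2) ∈ W := hmem _ hp
    simp only [f, dif_pos this]
    rfl
  let ι : W →ₗᵢ[ℝ] V := W.subtypeₗᵢ
  have hfs : ContDiffOn ℝ ∞ f Ω' := by
    refine contDiffOn_of_comp hΩ' ι f ?_
    refine (hH.comp he.contDiffOn (fun p hp => hp)).congr fun p hp => hfe p hp
  have h0' : ((0 : ℝ × ℝ), (0 : W)) ∈ Ω' := h0
  have hf0 : f (0, 0) = 0 := by
    apply Subtype.ext
    rw [hfe _ h0']
    exact hH0
  have hfd : HasFDerivAt f (fderiv ℝ f (0, 0)) ((0 : ℝ × ℝ), (0 : W)) :=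
    ((hfs.contDiffAt (hΩ'.mem_nhds h0')).differentiableAt (by simp)).hasFDerivAt
  have hLL : ∀ g : W, ((fderiv ℝ f (0, 0) ((0 : ℝ × ℝ), g) : W) : V) = L g := by
    intro g
    have h1 : HasDerivAt (fun s : ℝ => (((0 : ℝ × ℝ), s • g) : (ℝ × ℝ) × W)) (0, g) 0 := by
      have a1 : HasDerivAt (fun s : ℝ => s • g) g 0 := by
        simpa using (hasDerivAt_id (0 : ℝ)).smul_const g
      exact (hasDerivAt_const (0 : ℝ) (0 : ℝ × ℝ)).prodMk a1
    have h2 : HasFDerivAt f (fderiv ℝ f (0, 0)) (((0 : ℝ × ℝ), (0 : ℝ) • g) : (ℝ × ℝ) × W) := by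
      simpa using hfd
    have h3 := h2.comp_hasDerivAt (0 : ℝ) h1
    have h4 : HasDerivAt (fun s : ℝ => ι (f ((0 : ℝ × ℝ), s • g)))
        (ι (fderiv ℝ f (0, 0) ((0 : ℝ × ℝ), g))) 0 :=
      ι.toContinuousLinearMap.hasFDerivAt.comp_hasDerivAt (0 : ℝ) h3
    have h5 : (fun s : ℝ => ι (f ((0 : ℝ × ℝ), s • g))) =ᶠ[𝓝 0] fun s : ℝ => H (0, 0, s • g) := by
      have a1 : Tendsto (fun s : ℝ => (((0 : ℝ × ℝ), s • g) : (ℝ × ℝ) × W)) (𝓝 0)
          (𝓝 ((0 : ℝ × ℝ), (0 : W))) := by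
        have := h1.continuousAt.tendsto
        simpa using this
      filter_upwards [a1.eventually (hΩ'.mem_nhds h0')] with s hs
      exact hfe _ hs
    exact (h4.congr_of_eventuallyEq h5.symm).unique (hder g)
  have hbij : Function.Bijective (fderiv ℝ f (0, 0) ∘L .inr ℝ (ℝ × ℝ) W) := by
    constructor
    · intro g g' h
      have h' : fderiv ℝ f (0, 0) ((0 : ℝ × ℝ), g) = fderiv ℝ f (0, 0) ((0 : ℝ × ℝ), g') := h
      have h1 : L g = L g' := by rw [← hLL, ← hLL, h']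
      obtain ⟨g₀, -, hu⟩ := huniq (fderiv ℝ f (0, 0) ((0 : ℝ × ℝ), g))
      have a1 := hu g (hLL g).symm
      have a2 := hu g' (by rw [h']; exact (hLL g').symm)
      rw [a1, a2]
    · intro r
      obtain ⟨g, hg, -⟩ := huniq r
      refine ⟨g, Subtype.ext ?_⟩
      have := hLL g
      rw [hg] at this
      exact this
  have hinv : (fderiv ℝ f (0, 0) ∘L .inr ℝ (ℝ × ℝ) W).IsInvertible := by
    refine ⟨ContinuousLinearEquiv.ofBijective _ (LinearMap.ker_eq_bot.2 hbij.1)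
      (LinearMap.range_eq_top.2 hbij.2), ?_⟩
    ext g
    rfl
  obtain ⟨δ, ψ, hδ, hψ, hψ0, hq⟩ := ift_abs f Ω' hΩ' h0' hfs hf0 hinv
  refine ⟨δ, ψ, hδ, hψ, hψ0, ?_⟩
  intro q hq1 hq2
  obtain ⟨a1, a2, a3⟩ := hq q hq1 hq2
  refine ⟨a1, ?_, ?_⟩
  · have := hfe _ a1
    rw [a2] at this
    exact this.symm
  · intro g hg hHg
    apply a3 g hg
    apply Subtype.ext
    have hHg' : H (q.1, q.2, g) ∈ W := by rw [hHg]; exact W.zero_mem
    simp only [f, dif_pos hHg']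
    exact hHg

theorem isClosed_Ep : IsClosed ((Ep : Submodule ℝ (E 3)) : Set (E 3)) := by
  have h1 : ((Ep : Submodule ℝ (E 3)) : Set (E 3))
      = ⋂ i : Fin 4, ⋂ x : ℝ, ⋂ _ : 0 ≤ x, ⋂ _ : x ≤ 1 / 4,
        {u : E 3 | evX ((u : Fin 4 → X) i) x = 0} := by
    ext u
    simp only [Set.mem_iInter, Set.mem_ofPred_eq]
    exact Iff.rfl
  rw [h1]
  refine isClosed_iInter fun i => isClosed_iInter fun x => isClosed_iInter fun _ =>
    isClosed_iInter fun _ => isClosed_eq ?_ continuous_const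
  have h2 : Continuous fun u : E 3 => ((u : Fin 4 → X) i) :=
    (continuous_apply i).comp continuous_subtype_val
  exact (ContinuousEvalConst.continuous_eval_const _).comp h2

theorem uni_ift : P_ift := by
  intro EM H L Ω hΩ h0 hH hmem hH0 hder huniq
  have : CompleteSpace (E 3) := EM.complete 3
  exact ift_sub (V := ↥(E 3)) (W := Ep) (hcl := isClosed_Ep) (H := H) (L := L) (Ω := Ω) (hΩ := hΩ)
    (h0 := h0) (hH := hH) (hmem := hmem) (hH0 := hH0) (hder := hder) (huniq := huniq)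

end Pool.Agent.W148.Uni
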