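import Pool.Agent.W921.VP.DefsC

set_option autoImplicit false

/-!
# Project VP, task EMB: any two points outside `K` are in a copy
-/

namespace Pool.Agent.W148.VPEMB

open FirstOrder Set
open Pool.Agent.W921.VP

section

variable {L : FirstOrder.Language.{0, 0}} {M : Type}

lemma sim_refl (S : L.Structure M) (K : Set M) (m : M) : Sim S K m m := fun _ _ _ => Iff.rfl

lemma sim_symm {S : L.Structure M} {K : Set M} {m m' : M} (h : Sim S K m m') : Sim S K m' m :=
  fun n R p => (h n R p).symm

lemma sim_rel {S : L.Structure M} {K : Set M} {m m' : M} (h : Sim S K m m') {n : ℕ}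
    (R : L.Relations n) (s s' : Fin n → M)
    (hs : ∀ i, (s i ∈ K ∧ s' i = s i) ∨ (s i = m ∧ s' i = m')) :
    S.RelMap R s ↔ S.RelMap R s' := by
  classical
  have h1 := h n R (fun i => if h : s i ∈ K ∧ s' i = s i then some ⟨s i, h.1⟩ else none)
  have e1 : (fun i => Option.elim (if h : s i ∈ K ∧ s' i = s i then some (⟨s i, h.1⟩ : K) else none)
      m Subtype.val) = s := by
    funext i
    by_cases hi : s i ∈ K ∧ s' i = s i
    · rw [dif_pos hi]; rfl
    · rw [dif_neg hi]
      rcases hs i with h2 | h2
      · exact absurd h2 hi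
      · exact h2.1.symm
  have e2 : (fun i => Option.elim (if h : s i ∈ K ∧ s' i = s i then some (⟨s i, h.1⟩ : K) else none)
      m' Subtype.val) = s' := by
    funext i
    by_cases hi : s i ∈ K ∧ s' i = s i
    · rw [dif_pos hi]; exact hi.2.symm
    · rw [dif_neg hi]
      rcases hs i with h2 | h2
      · exact absurd h2 hi
      · exact h2.2.symm
  rw [e1, e2] at h1
  exact h1

lemma role_child {J : Type} {q : Cp J} {a : El J} (tyY : ℕ → J) (h : Child q a) :
    Role q a (ty tyY a) := by
  obtain ⟨z, h1, h2, rfl⟩ := h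
  exact Role.child z h1 h2

/-- The value of a relation at a tuple with at most one point outside `K`. -/
lemma one_rel (hu : S_UNQ) (S : L.Structure M) {K : Set M} (pl : Plan L K) (t : Out K → Out K)
    {n : ℕ} (R : L.Relations n) (s : Fin n → K ⊕ El (Out K)) (h1 : One s) :
    RelN S pl t R s ↔ S.RelMap R (fun i => ev (ty pl.tyY) (s i)) := by
  have key : ∀ q, InCopy S pl q s → ∀ i e, s i = Sum.inr e → Role q e (ty pl.tyY e) := by
    rintro q ⟨-, ⟨j, e', hj, hch⟩, -⟩ i e hi
    have : e = e' := h1 i j e e' hi hj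
    subst this
    exact role_child _ hch
  constructor
  · rintro (⟨q, hq, ρ, h2, h3⟩ | ⟨-, ⟨-, h⟩ | ⟨a, b, h, -⟩ | ⟨h, -⟩⟩)
    · have : (fun i => ev ρ (s i)) = (fun i => ev (ty pl.tyY) (s i)) := by
        funext i
        cases hsi : s i with
        | inl k => rfl
        | inr e =>
          have r1 := key q hq i e hsi
          have r2 := h2 i e hsi
          have : ρ e = ty pl.tyY e := (hu _).1 q e _ _ hq.1.ne r2 r1
          simp only [ev, Sum.elim_inr, this]
      rw [this] at h3
      exact h3
    · exact h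
    · obtain ⟨h4, ⟨i, hi⟩, ⟨j, hj⟩, -⟩ := h
      exact absurd (h1 i j a b hi hj) h4
    · exact absurd h1 h
  · intro hR
    by_cases hc : ∃ q, InCopy S pl q s
    · obtain ⟨q, hq⟩ := hc
      exact Or.inl ⟨q, hq, ty pl.tyY, key q hq, hR⟩
    · exact Or.inr ⟨hc, Or.inl ⟨h1, hR⟩⟩

open Classical in
/-- default pair of roles -/
noncomputable def ppd {K : Set M} (pl : Plan L K) (t : Out K → Out K) (a b : El (Out K)) :
    Out K × Out K :=
  if ty pl.tyY a ≠ ty pl.tyY b then (ty pl.tyY a, ty pl.tyY b)
      else if pl.lt a b then (ty pl.tyY a, t (ty pl.tyY a)) else (t (ty pl.tyY a), ty pl.tyY a)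

lemma ppd_swap {S : L.Structure M} {K : Set M} {pl : Plan L K} {t : Out K → Out K}
    (hpl : PlanOk S K pl) {a b : El (Out K)} (hab : a ≠ b) :
    ppd pl t b a = (ppd pl t a b).swap := by
  unfold ppd
  by_cases h : ty pl.tyY a = ty pl.tyY b
  · have h' : ¬ (ty pl.tyY b ≠ ty pl.tyY a) := by simp [h]
    have h'' : ¬ (ty pl.tyY a ≠ ty pl.tyY b) := by simp [h]
    rw [if_neg h', if_neg h'']
    have h1 := hpl.tot a b hab
    by_cases h2 : pl.lt a b
    · rw [if_neg (h1.1 h2), if_pos h2, h]; rfl
    · have h3 : pl.lt b a := by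
        by_contra h3; exact h2 (h1.2 h3)
      rw [if_neg h2, if_pos h3, h]; rfl
  · rw [if_pos h, if_pos (Ne.symm h)]; rfl

lemma ppd_ok {S : L.Structure M} {K : Set M} {pl : Plan L K} {t : Out K → Out K}
    (ht : ∀ m : Out K, t m ≠ m ∧ Sim S K m (t m)) (a b : El (Out K)) :
    (ppd pl t a b).1 ≠ (ppd pl t a b).2 ∧ Sim S K (ppd pl t a b).1 (ty pl.tyY a : Out K) := by
  unfold ppd
  by_cases h : ty pl.tyY a = ty pl.tyY b
  · have h'' : ¬ (ty pl.tyY a ≠ ty pl.tyY b) := by simp [h]
    rw [if_neg h'']
    by_cases h2 : pl.lt a b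
    · rw [if_pos h2]
      exact ⟨(ht _).1.symm, sim_refl _ _ _⟩
    · rw [if_neg h2]
      exact ⟨(ht _).1, sim_symm (ht _).2⟩
  · rw [if_pos h]
    exact ⟨h, sim_refl _ _ _⟩

lemma pp_cases {K : Set M} (pl : Plan L K) (t : Out K → Out K) (a b : El (Out K)) :
    (∃ i j, a = El.y i ∧ b = El.y j ∧ pp pl t a b = pl.pY i j ∧ pp pl t b a = pl.pY j i) ∨
      (pp pl t a b = ppd pl t a b ∧ pp pl t b a = ppd pl t b a) := by
  cases a with
  | y i =>
    cases b with
    | y j => exact Or.inl ⟨i, j, rfl, rfl, rfl, rfl⟩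
    | new u v m m' z => exact Or.inr ⟨rfl, rfl⟩
  | new u v m m' z =>
    cases b with
    | y j => exact Or.inr ⟨rfl, rfl⟩
    | new u v m m' z => exact Or.inr ⟨rfl, rfl⟩

lemma pp_swap {S : L.Structure M} {K : Set M} {pl : Plan L K} {t : Out K → Out K}
    (hpl : PlanOk S K pl) {a b : El (Out K)} (hab : a ≠ b) :
    pp pl t b a = (pp pl t a b).swap := by
  rcases pp_cases pl t a b with ⟨i, j, rfl, rfl, h1, h2⟩ | ⟨h1, h2⟩
  · rw [h1, h2]
    exact hpl.swap i j (fun h => hab (by rw [h]))
  · rw [h1, h2]
    exact ppd_swap hpl hab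

lemma pp_ok {S : L.Structure M} {K : Set M} {pl : Plan L K} {t : Out K → Out K}
    (ht : ∀ m : Out K, t m ≠ m ∧ Sim S K m (t m)) (hpl : PlanOk S K pl)
    {a b : El (Out K)} (hab : a ≠ b) :
    (pp pl t a b).1 ≠ (pp pl t a b).2 ∧ Sim S K (pp pl t a b).1 (ty pl.tyY a : Out K) := by
  rcases pp_cases pl t a b with ⟨i, j, rfl, rfl, h1, h2⟩ | ⟨h1, h2⟩
  · rw [h1]
    have hij : i ≠ j := fun h => hab (by rw [h])
    exact ⟨hpl.ne i j hij, hpl.sim i j hij⟩
  · rw [h1]
    exact ppd_ok ht a b

lemma role_sim {S : L.Structure M} {K : Set M} {pl : Plan L K} {q : Cp (Out K)}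
    (hq : Good S pl q) {a : El (Out K)} {z : Out K} (h : Role q a z) :
    Sim S K z (ty pl.tyY a : Out K) := by
  cases h with
  | left => exact hq.sim
  | right => exact hq.sim'
  | child z h1 h2 => exact sim_refl _ _ _

/-- existence of the roles -/
lemma roles (hu : S_UNQ) {S : L.Structure M} {K : Set M} {pl : Plan L K} {t : Out K → Out K}
    (ht : ∀ m : Out K, t m ≠ m ∧ Sim S K m (t m)) (hpl : PlanOk S K pl)
    {x y : El (Out K)} (hxy : x ≠ y) :
    ∃ m m' : Out K, m ≠ m' ∧ Sim S K m (ty pl.tyY x : Out K) ∧ Sim S K m' (ty pl.tyY y : Out K) ∧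
      ((∃ q0, Good S pl q0 ∧ Role q0 x m ∧ Role q0 y m' ∧ (Child q0 x ∨ Child q0 y)) ∨
       ((¬ ∃ q0, Good S pl q0 ∧ (∃ z, Role q0 x z) ∧ (∃ z, Role q0 y z) ∧
          (Child q0 x ∨ Child q0 y)) ∧ pp pl t x y = (m, m'))) := by
  by_cases h : ∃ q0, Good S pl q0 ∧ (∃ z, Role q0 x z) ∧ (∃ z, Role q0 y z) ∧
          (Child q0 x ∨ Child q0 y)
  · obtain ⟨q0, hg, ⟨m, hm⟩, ⟨m', hm'⟩, hc⟩ := h
    refine ⟨m, m', ?_, role_sim hg hm, role_sim hg hm', Or.inl ⟨q0, hg, hm, hm', hc⟩⟩
    rintro rfl
    exact hxy ((hu _).2.1 q0 x y m hg.ne hg.ne' hm hm')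
  · have h1 := pp_ok ht hpl hxy
    have h2 := pp_ok ht hpl hxy.symm
    rw [pp_swap hpl hxy] at h2
    exact ⟨(pp pl t x y).1, (pp pl t x y).2, h1.1, h1.2, h2.2, Or.inr ⟨h, rfl⟩⟩

end

theorem task (hu : S_UNQ) : S_EMB := by
  intro L _ M S K t ht pl hpl x y hxy
  classical
  obtain ⟨m, m', hne, hs, hs', hm⟩ := roles hu ht hpl hxy
  set q : Cp (Out K) := ⟨x, y, m, m'⟩ with hq
  have hG : Good S pl q := ⟨hxy, hne, hs, hs'⟩
  set g : Out K → El (Out K) := fun z =>
    if z = m then x else if z = m' then y else El.new x y m m' z with hg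
  have hrole : ∀ z, Role q (g z) z := by
    intro z
    by_cases h1 : z = m
    · have : g z = x := by rw [hg]; simp only [if_pos h1]
      rw [this, h1]
      exact Role.left
    · by_cases h2 : z = m'
      · have : g z = y := by rw [hg]; simp only [if_neg h1, if_pos h2]
        rw [this, h2]
        exact Role.right
      · have : g z = El.new x y m m' z := by rw [hg]; simp only [if_neg h1, if_neg h2]
        rw [this]
        exact Role.child (q := q) z h1 h2
  have hgm : g m = x := by rw [hg]; simp only [if_true]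
  have hgm' : g m' = y := by rw [hg]; simp only [if_neg hne.symm, if_true]
  have hgc : ∀ z, z = m ∨ z = m' ∨ Child q (g z) := by
    intro z
    by_cases h1 : z = m
    · exact Or.inl h1
    · by_cases h2 : z = m'
      · exact Or.inr (Or.inl h2)
      · right; right
        have : g z = El.new x y m m' z := by rw [hg]; simp only [if_neg h1, if_neg h2]
        exact ⟨z, h1, h2, this⟩
  set e : M → K ⊕ El (Out K) := fun z =>
    if h : z ∈ K then Sum.inl ⟨z, h⟩ else Sum.inr (g ⟨z, h⟩) with he
  have heK : ∀ k : K, e k = Sum.inl k := by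
    intro k
    rw [he]; simp only [dif_pos k.2]
  have heO : ∀ z : Out K, e z = Sum.inr (g z) := by
    intro z
    rw [he]; simp only [dif_neg z.2]
  have hcase : ∀ z : M, (∃ k : K, z = k ∧ e z = Sum.inl k) ∨
      (∃ o : Out K, z = o ∧ e z = Sum.inr (g o)) := by
    intro z
    by_cases h : z ∈ K
    · exact Or.inl ⟨⟨z, h⟩, rfl, heK ⟨z, h⟩⟩
    · exact Or.inr ⟨⟨z, h⟩, rfl, heO ⟨z, h⟩⟩
  refine ⟨e, ⟨?_, ?_⟩, heK, ⟨m, by rw [heO, hgm]⟩, ⟨m', by rw [heO, hgm']⟩⟩
  · intro z z' hzz
    rcases hcase z with ⟨k, h1, h2⟩ | ⟨k, h1, h2⟩ <;> rcases hcase z' with ⟨k', h1', h2'⟩ | ⟨k', h1', h2'⟩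
    · rw [h2, h2'] at hzz
      rw [h1, h1', Sum.inl.inj hzz]
    · rw [h2, h2'] at hzz
      cases hzz
    · rw [h2, h2'] at hzz
      cases hzz
    · rw [h2, h2'] at hzz
      have h3 : g k = g k' := Sum.inr.inj hzz
      have h4 := hrole k
      rw [h3] at h4
      rw [h1, h1', (hu _).1 q _ _ _ hG.ne h4 (hrole k')]
  · intro n R s
    change S.RelMap R s ↔ RelN S pl t R (fun i => e (s i))
    have hinr : ∀ i a, e (s i) = Sum.inr a → ∃ o : Out K, s i = o ∧ a = g o := by
      intro i a hi
      rcases hcase (s i) with ⟨k, h1, h2⟩ | ⟨k, h1, h2⟩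
      · rw [h2] at hi; cases hi
      · rw [h2] at hi
        exact ⟨k, h1, (Sum.inr.inj hi).symm⟩
    have hall : ∀ i a, e (s i) = Sum.inr a → ∃ z, Role q a z := by
      intro i a hi
      obtain ⟨o, h1, rfl⟩ := hinr i a hi
      exact ⟨o, hrole o⟩
    by_cases hA : ∃ i a, e (s i) = Sum.inr a ∧ Child q a
    · -- a new point of `q` occurs
      have hin : InCopy S pl q (fun i => e (s i)) := ⟨hG, hA, hall⟩
      have huniq : ∀ q', InCopy S pl q' (fun i => e (s i)) → q' = q := by
        rintro q' ⟨-, ⟨j, b, hj, hb⟩, h2⟩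
        obtain ⟨i, a, hi, ha⟩ := hA
        obtain ⟨z, hz⟩ := hall j b hj
        obtain ⟨z', hz'⟩ := h2 i a hi
        exact ((hu _).2.2 q q' a b z z' ha hb hz hz').symm
      have hev : ∀ ρ : El (Out K) → Out K, (∀ i a, e (s i) = Sum.inr a → Role q a (ρ a)) →
          (fun i => ev ρ (e (s i))) = s := by
        intro ρ hρ
        funext i
        rcases hcase (s i) with ⟨k, h1, h2⟩ | ⟨k, h1, h2⟩
        · rw [h2, h1]; rfl
        · rw [h2, h1]
          have h3 := hρ i _ h2
          have : ρ (g k) = k := (hu _).1 q _ _ _ hG.ne h3 (hrole k)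
          simp only [ev, Sum.elim_inr, this]
      constructor
      · intro hR
        left
        refine ⟨q, hin, fun a => if h : ∃ z, Role q a z then h.choose else m, ?_, ?_⟩
        · intro i a hi
          have h := hall i a hi
          simp only [dif_pos h]
          exact h.choose_spec
        · rw [hev _ (fun i a hi => by
            have h := hall i a hi
            simp only [dif_pos h]
            exact h.choose_spec)]
          exact hR
      · rintro (⟨q', hq', ρ, h2, h3⟩ | ⟨hn, -⟩)
        · rw [huniq q' hq'] at h2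
          rw [hev ρ h2] at h3
          exact h3
        · exact absurd ⟨q, hin⟩ hn
    · -- only `x` and `y` occur
      have hxyo : ∀ i, (∃ k : K, s i = k ∧ e (s i) = Sum.inl k) ∨
          (s i = m ∧ e (s i) = Sum.inr x) ∨ (s i = m' ∧ e (s i) = Sum.inr y) := by
        intro i
        rcases hcase (s i) with h | ⟨k, h1, h2⟩
        · exact Or.inl h
        · right
          rcases hgc k with h3 | h3 | h3
          · left
            rw [h3, hgm] at h2
            exact ⟨by rw [h1, h3], h2⟩
          · right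
            rw [h3, hgm'] at h2
            exact ⟨by rw [h1, h3], h2⟩
          · exact absurd ⟨i, _, h2, h3⟩ hA
      have hxy' : ∀ i a, e (s i) = Sum.inr a → a = x ∨ a = y := by
        intro i a hi
        rcases hxyo i with ⟨k, h1, h2⟩ | ⟨h1, h2⟩ | ⟨h1, h2⟩
        · rw [h2] at hi; cases hi
        · rw [h2] at hi; exact Or.inl (Sum.inr.inj hi).symm
        · rw [h2] at hi; exact Or.inr (Sum.inr.inj hi).symm
      by_cases hx : ∃ i, e (s i) = Sum.inr x
      · by_cases hy : ∃ i, e (s i) = Sum.inr y
        · -- both occur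
          have hTwo : Two x y (fun i => e (s i)) := ⟨hxy, hx, hy, hxy'⟩
          have hnOne : ¬ One (fun i => e (s i)) := by
            intro h
            obtain ⟨i, hi⟩ := hx
            obtain ⟨j, hj⟩ := hy
            exact hxy (h i j x y hi hj)
          have hev : ∀ ρ : El (Out K) → Out K, ρ x = m → ρ y = m' →
              (fun i => ev ρ (e (s i))) = s := by
            intro ρ h3 h4
            funext i
            rcases hxyo i with ⟨k, h1, h2⟩ | ⟨h1, h2⟩ | ⟨h1, h2⟩
            · rw [h2, h1]; rfl
            · rw [h2, h1]; simp only [ev, Sum.elim_inr, h3]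
            · rw [h2, h1]; simp only [ev, Sum.elim_inr, h4]
          have hin : ∀ q', InCopy S pl q' (fun i => e (s i)) ↔
              (Good S pl q' ∧ (∃ z, Role q' x z) ∧ (∃ z, Role q' y z) ∧ (Child q' x ∨ Child q' y)) := by
            intro q'
            obtain ⟨i, hi⟩ := hx
            obtain ⟨j, hj⟩ := hy
            constructor
            · rintro ⟨h1, ⟨l, b, hl, hb⟩, h2⟩
              refine ⟨h1, h2 i x hi, h2 j y hj, ?_⟩
              rcases hxy' l b hl with rfl | rfl
              · exact Or.inl hb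
              · exact Or.inr hb
            · rintro ⟨h1, h2, h3, h4⟩
              refine ⟨h1, ?_, ?_⟩
              · rcases h4 with h4 | h4
                · exact ⟨i, x, hi, h4⟩
                · exact ⟨j, y, hj, h4⟩
              · intro l b hl
                rcases hxy' l b hl with rfl | rfl
                · exact h2
                · exact h3
          rcases hm with ⟨q0, hg0, hr0, hr0', hc0⟩ | ⟨hn, hpp⟩
          · -- in a copy
            have hin0 : InCopy S pl q0 (fun i => e (s i)) :=
              (hin q0).2 ⟨hg0, ⟨m, hr0⟩, ⟨m', hr0'⟩, hc0⟩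
            have huniq : ∀ q', InCopy S pl q' (fun i => e (s i)) → q' = q0 := by
              intro q' hq'
              obtain ⟨-, ⟨z, hz⟩, ⟨z', hz'⟩, hc'⟩ := (hin q').1 hq'
              rcases hc0 with hc0 | hc0 <;> rcases hc' with hc' | hc'
              · exact ((hu _).2.2 q0 q' x x _ _ hc0 hc' hr0 hz).symm
              · exact ((hu _).2.2 q0 q' x y _ _ hc0 hc' hr0' hz).symm
              · exact ((hu _).2.2 q0 q' y x _ _ hc0 hc' hr0 hz').symm
              · exact ((hu _).2.2 q0 q' y y _ _ hc0 hc' hr0' hz').symm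
            constructor
            · intro hR
              left
              refine ⟨q0, hin0, fun a => if a = x then m else m', ?_, ?_⟩
              · intro i a hi
                rcases hxy' i a hi with rfl | rfl
                · simpa using hr0
                · simp only [if_neg hxy.symm]
                  exact hr0'
              · rw [hev _ (by simp) (by simp only [if_neg hxy.symm])]
                exact hR
            · rintro (⟨q', hq', ρ, h2, h3⟩ | ⟨hn, -⟩)
              · rw [huniq q' hq'] at h2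
                obtain ⟨i, hi⟩ := hx
                obtain ⟨j, hj⟩ := hy
                rw [hev ρ ((hu _).1 q0 _ _ _ hg0.ne (h2 i x hi) hr0)
                  ((hu _).1 q0 _ _ _ hg0.ne (h2 j y hj) hr0')] at h3
                exact h3
              · exact absurd ⟨q0, hin0⟩ hn
          · -- not in a copy
            have hnc : ¬ ∃ q', InCopy S pl q' (fun i => e (s i)) := by
              rintro ⟨q', hq'⟩
              exact hn ⟨q', (hin q').1 hq'⟩
            have hpp' : pp pl t y x = (m', m) := by
              rw [pp_swap hpl hxy, hpp]; rfl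
            constructor
            · intro hR
              right
              refine ⟨hnc, Or.inr (Or.inl ⟨x, y, hTwo, ?_⟩)⟩
              rw [hev _ (by simp [hpp]) (by simp [hpp, hxy.symm])]
              exact hR
            · rintro (⟨q', hq', -⟩ | ⟨-, ⟨h, -⟩ | ⟨a, b, h, h3⟩ | ⟨-, h, -⟩⟩)
              · exact absurd ⟨q', hq'⟩ hnc
              · exact absurd h hnOne
              · obtain ⟨hab, ⟨i, hi⟩, ⟨j, hj⟩, -⟩ := h
                rcases hxy' i a hi with rfl | rfl
                · rcases hxy' j b hj with rfl | rfl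
                  · exact absurd rfl hab
                  · rw [hev _ (by simp [hpp]) (by simp [hpp, hxy.symm])] at h3
                    exact h3
                · rcases hxy' j b hj with rfl | rfl
                  · rw [hev _ (by simp [hpp', hxy]) (by simp [hpp'])] at h3
                    exact h3
                  · exact absurd rfl hab
              · exact absurd ⟨x, y, hTwo⟩ h
        · -- only `x` occurs
          have hOne : One (fun i => e (s i)) := by
            intro i j a b hi hj
            rcases hxy' i a hi with rfl | rfl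
            · rcases hxy' j b hj with rfl | rfl
              · rfl
              · exact absurd ⟨j, hj⟩ hy
            · exact absurd ⟨i, hi⟩ hy
          rw [one_rel hu S pl t R _ hOne]
          apply sim_rel hs R
          intro i
          rcases hxyo i with ⟨k, h1, h2⟩ | ⟨h1, h2⟩ | ⟨h1, h2⟩
          · left
            rw [h2, h1]
            exact ⟨k.2, rfl⟩
          · right
            rw [h2, h1]
            exact ⟨rfl, rfl⟩
          · exact absurd ⟨i, h2⟩ hy
      · -- only `y` occurs
        have hOne : One (fun i => e (s i)) := by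
          intro i j a b hi hj
          rcases hxy' i a hi with rfl | rfl
          · exact absurd ⟨i, hi⟩ hx
          · rcases hxy' j b hj with rfl | rfl
            · exact absurd ⟨j, hj⟩ hx
            · rfl
        rw [one_rel hu S pl t R _ hOne]
        apply sim_rel hs' R
        intro i
        rcases hxyo i with ⟨k, h1, h2⟩ | ⟨h1, h2⟩ | ⟨h1, h2⟩
        · left
          rw [h2, h1]
          exact ⟨k.2, rfl⟩
        · exact absurd ⟨i, h2⟩ hx
        · right
          rw [h2, h1]
          exact ⟨rfl, rfl⟩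

end Pool.Agent.W148.VPEMB
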